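import Pool.Agent.MP_ca1109_lc.Xl.Defs

namespace Pool.Agent.MP_ca1109_lc.Xl

open Finset Pool.Agent.H66 Pool.Agent.MP_ca1109_lc.Mpg Pool.Agent.MP_ca1109_lc.Agp
open Pool.Agent.MP_ca1109_lc.Dnf (Cube ch one Term)
open Pool.Agent.MP_ca1109_lc.Xp (Sp Bias xo fl Src mv)

variable {n : ℕ} {ι : Type} [DecidableEq ι]

/-! ## NF: the reduced form (Lemma 1 of XPM, RED of XS9) -/

theorem nf_update {S : Finset (Fin n)} {a : Cube n} {i : Fin n} (hi : i ∈ S) (x : Cube n) :
    Tr S a (Function.update x i false) ↔ a i = false ∧ Tr (S.erase i) a x := by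
  constructor
  · intro h
    refine ⟨?_, fun j hj => ?_⟩
    · have h1 := h i hi
      rw [Function.update_self] at h1
      exact h1.symm
    · have h1 := h j (mem_of_mem_erase hj)
      rwa [Function.update_of_ne (ne_of_mem_erase hj)] at h1
  · rintro ⟨h1, h2⟩ j hj
    by_cases hji : j = i
    · rw [hji, Function.update_self, h1]
    · rw [Function.update_of_ne hji]
      exact h2 j (mem_erase.2 ⟨hji, hj⟩)

open Classical in
/-- The new term. -/
noncomputable def nfT (T : ι → Term n) (R : Finset ι) (i : Fin n) (m : ι) : Term n :=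
  ⟨if m ∈ R then (if (T m).a i = true then ∅ else (T m).S.erase i) else (T m).S, (T m).a⟩

open Classical in
/-- The new coefficient. -/
noncomputable def nfz (T : ι → Term n) (ζ : ι → ℂ) (R : Finset ι) (i : Fin n) (m : ι) : ℂ :=
  if m ∈ R ∧ (T m).a i = true then 1 else ζ m

theorem nfT_sub (T : ι → Term n) (R : Finset ι) (i : Fin n) (m : ι) :
    (nfT T R i m).S ⊆ (T m).S := by
  unfold nfT
  dsimp only
  split_ifs
  · exact empty_subset _
  · exact erase_subset _ _
  · exact Subset.rfl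

/-- One step of the reduction. -/
theorem nf_step {T : ι → Term n} {ζ : ι → ℂ} {M R : Finset ι} {i : Fin n} (hR : R ⊆ M)
    (hRi : ∀ m ∈ R, i ∈ (T m).S) (h : ∀ x, pr T ζ R (fl i x) = pr T ζ R x) (x : Cube n) :
    pr (nfT T R i) (nfz T ζ R i) M x = pr T ζ M x := by
  have h0 : pr T ζ R (Function.update x i false) = pr T ζ R x := by
    rcases hx : x i with _ | _
    · rw [show Function.update x i false = x by rw [← hx]; exact Function.update_eq_self i x]
    · have h1 := h x
      unfold fl at h1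
      rwa [hx] at h1
  have h2 : pr (nfT T R i) (nfz T ζ R i) R x = pr T ζ R (Function.update x i false) := by
    unfold pr
    refine prod_congr rfl fun m hm => ?_
    have h3 := nf_update (a := (T m).a) (hRi m hm) x
    rcases ha : (T m).a i with _ | _
    · have h4 : (nfT T R i m).S = (T m).S.erase i := by
        unfold nfT
        simp [hm, ha]
      have h5 : (nfT T R i m).a = (T m).a := rfl
      have h6 : nfz T ζ R i m = ζ m := by
        unfold nfz
        simp [ha]
      rw [h4, h5, h6]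
      have h7 : Tr (T m).S (T m).a (Function.update x i false) ↔ Tr ((T m).S.erase i) (T m).a x := by
        rw [h3, ha]
        exact ⟨fun h => h.2, fun h => ⟨rfl, h⟩⟩
      rcases Classical.em (Tr ((T m).S.erase i) (T m).a x) with hT | hT
      · rw [if_pos hT, if_pos (h7.2 hT)]
      · rw [if_neg hT, if_neg fun h => hT (h7.1 h)]
    · have h6 : nfz T ζ R i m = 1 := by
        unfold nfz
        simp [hm, ha]
      have h7 : ¬ Tr (T m).S (T m).a (Function.update x i false) := by
        rw [h3, ha]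
        exact fun h => absurd h.1 (by simp)
      rw [h6, if_neg h7, ite_self]
  have h8 : pr (nfT T R i) (nfz T ζ R i) (M \ R) x = pr T ζ (M \ R) x := by
    unfold pr
    refine prod_congr rfl fun m hm => ?_
    have hm' : m ∉ R := (mem_sdiff.1 hm).2
    have h4 : nfT T R i m = T m := by
      unfold nfT
      simp [hm']
    have h6 : nfz T ζ R i m = ζ m := by
      unfold nfz
      simp [hm']
    rw [h4, h6]
  have h9 : ∀ (T' : ι → Term n) (ζ' : ι → ℂ), pr T' ζ' M x =
      pr T' ζ' (M \ R) x * pr T' ζ' R x := by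
    intro T' ζ'
    unfold pr
    rw [prod_sdiff hR]
  rw [h9, h9 T ζ, h8, h2, h0]

/-- The reduced form, empty terms allowed. -/
theorem nf_red {q : ℕ} (M : Finset ι) : ∀ (N : ℕ) (T : ι → Term n) (ζ : ι → ℂ),
    ∑ m ∈ M, (T m).S.card ≤ N → (∀ m ∈ M, ζ m ^ q = 1) →
      ∃ (T' : ι → Term n) (ζ' : ι → ℂ), (∀ m, (T' m).S ⊆ (T m).S) ∧ (∀ m ∈ M, ζ' m ^ q = 1) ∧
        (∀ x, pr T' ζ' M x = pr T ζ M x) ∧ Red T' ζ' M := by
  intro N
  induction N with
  | zero =>
    intro T ζ hT hζ
    refine ⟨T, ζ, fun m => Subset.rfl, hζ, fun x => rfl, fun i R hR hne hRi => ?_⟩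
    exfalso
    obtain ⟨m, hm⟩ := hne
    have h1 : (T m).S.card ≤ ∑ m ∈ M, (T m).S.card :=
      single_le_sum (f := fun m => (T m).S.card) (fun _ _ => Nat.zero_le _) (hR hm)
    have h2 : 0 < (T m).S.card := card_pos.2 ⟨i, hRi m hm⟩
    omega
  | succ N ih =>
    intro T ζ hT hζ
    by_cases hred : Red T ζ M
    · exact ⟨T, ζ, fun m => Subset.rfl, hζ, fun x => rfl, hred⟩
    · unfold Red at hred
      push Not at hred
      obtain ⟨i, R, hR, hne, hRi, h⟩ := hred
      have hlt : ∑ m ∈ M, (nfT T R i m).S.card < ∑ m ∈ M, (T m).S.card := by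
        obtain ⟨m, hm⟩ := hne
        refine sum_lt_sum (fun m _ => card_le_card (nfT_sub T R i m)) ⟨m, hR hm, ?_⟩
        refine card_lt_card ((ssubset_iff_of_subset (nfT_sub T R i m)).2 ⟨i, hRi m hm, ?_⟩)
        unfold nfT
        dsimp only
        rw [if_pos hm]
        split_ifs
        · exact notMem_empty _
        · exact notMem_erase _ _
      obtain ⟨T', ζ', h1, h2, h3, h4⟩ := ih (nfT T R i) (nfz T ζ R i) (by omega) (fun m hm => by
        unfold nfz
        split_ifs
        · exact one_pow _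
        · exact hζ m hm)
      exact ⟨T', ζ', fun m => (h1 m).trans (nfT_sub T R i m), h2,
        fun x => (h3 x).trans (nf_step hR hRi h x), h4⟩

theorem reduce {q r W : ℕ} (hq : 0 < q) (T : ι → Term n) (ζ : ι → ℂ) (M : Finset ι)
    (hM : Rd r T M) (hW : ∀ m ∈ M, (T m).S.card ≤ W) (hζ : ∀ m ∈ M, ζ m ^ q = 1) :
    ∃ (T' : ι → Term n) (ζ' : ι → ℂ) (M' : Finset ι) (κ : ℂ), ‖κ‖ = 1 ∧ M' ⊆ M ∧
      Fam r W T' M' ∧ (∀ m ∈ M', ζ' m ^ q = 1) ∧ Red T' ζ' M' ∧
      ∀ x, pr T ζ M x = κ * pr T' ζ' M' x := by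
  obtain ⟨T', ζ', h1, h2, h3, h4⟩ := nf_red M _ T ζ le_rfl hζ
  have hsub : M.filter (fun m => (T' m).S ≠ ∅) ⊆ M := filter_subset _ _
  refine ⟨T', ζ', M.filter fun m => (T' m).S ≠ ∅, ∏ m ∈ M \ M.filter fun m => (T' m).S ≠ ∅, ζ' m,
    ?_, hsub, ⟨fun m hm => (mem_filter.1 hm).2, fun i => ?_, fun m hm => ?_⟩,
    fun m hm => h2 m (hsub hm), fun i R hR hne hRi => h4 i R (hR.trans hsub) hne hRi, fun x => ?_⟩
  · rw [norm_prod]
    refine prod_eq_one fun m hm => ?_
    have h5 := congrArg norm (h2 m (mem_sdiff.1 hm).1)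
    rw [norm_pow, norm_one] at h5
    exact (pow_eq_one_iff_of_nonneg (norm_nonneg _) hq.ne').1 h5
  · refine (card_le_card ?_).trans (hM i)
    intro m hm
    rw [mem_filter] at hm
    exact mem_filter.2 ⟨hsub hm.1, h1 m hm.2⟩
  · exact (card_le_card (h1 m)).trans (hW m (hsub hm))
  · rw [← h3 x]
    unfold pr
    rw [← prod_sdiff hsub]
    congr 1
    refine prod_congr rfl fun m hm => ?_
    rw [mem_sdiff, mem_filter, not_and, not_not] at hm
    have h5 : (T' m).S = ∅ := hm.2 hm.1
    refine if_pos fun j hj => ?_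
    rw [h5] at hj
    exact absurd hj (notMem_empty _)

end Pool.Agent.MP_ca1109_lc.Xl
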