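import Pool.Agent.MP_ca1109_lc.Xp.Defs

/-!
# Sums modulo `q` of terms (conjunctions of literals) with bounded read: definitions

`T : ι → Term n` is a family of terms (`(T m).S`: the variables, `(T m).a`: the literals), `M` a
finite set of indices, `ζ m` unimodular.

* `Tr S a x`: `x i = a i` for all `i ∈ S`; `tm S a` its indicator.
* `pr T ζ M x = ∏ m ∈ M, ζ m ^ [T m is true at x]`.
* `Rd r T M`, `Fam r W T M`: every variable occurs in at most `r` terms; nonempty terms, widths `≤ W`.
* `Red T ζ M`: no partial product over some terms at `i` is independent of the bit `i`.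
* `Ac T ζ M i z`: the value of `pr T ζ M` changes if the bit `i` is flipped.
-/

namespace Pool.Agent.MP_ca1109_lc.Xl

open Finset Pool.Agent.MP_ca1109_lc.Mpg Pool.Agent.MP_ca1109_lc.Agp
open Pool.Agent.MP_ca1109_lc.Dnf (Cube ch one Term)
open Pool.Agent.MP_ca1109_lc.Xp (Sp Bias xo fl Src mv)

variable {n : ℕ} {ι : Type*}

/-- The literals `x i = a i`, `i ∈ S`, are true. -/
def Tr (S : Finset (Fin n)) (a x : Cube n) : Prop := ∀ i ∈ S, x i = a i

/-- The indicator. -/
noncomputable def tm (S : Finset (Fin n)) (a x : Cube n) : ℝ := one (Tr S a x)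

open Classical in
/-- The product of `ζ m` over the terms which are true at `x`. -/
noncomputable def pr (T : ι → Term n) (ζ : ι → ℂ) (M : Finset ι) (x : Cube n) : ℂ :=
  ∏ m ∈ M, if Tr (T m).S (T m).a x then ζ m else 1

/-- Every variable occurs in at most `r` terms. -/
def Rd (r : ℕ) (T : ι → Term n) (M : Finset ι) : Prop :=
  ∀ i, (M.filter fun m => i ∈ (T m).S).card ≤ r

/-- Nonempty terms of width at most `W`, read `r`. -/
structure Fam (r W : ℕ) (T : ι → Term n) (M : Finset ι) : Prop where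
  ne : ∀ m ∈ M, (T m).S ≠ ∅
  rd : Rd r T M
  wd : ∀ m ∈ M, (T m).S.card ≤ W

/-- The sum of the probabilities of the terms. -/
noncomputable def lam (T : ι → Term n) (M : Finset ι) : ℝ := ∑ m ∈ M, (1 / 2 : ℝ) ^ (T m).S.card

/-- The sum of `|m| 2^-|m|`. -/
noncomputable def A1 (T : ι → Term n) (M : Finset ι) : ℝ :=
  ∑ m ∈ M, ((T m).S.card : ℝ) * (1 / 2) ^ (T m).S.card

/-- The sum of `|m|² 2^-|m|`. -/
noncomputable def A2 (T : ι → Term n) (M : Finset ι) : ℝ :=
  ∑ m ∈ M, ((T m).S.card : ℝ) ^ 2 * (1 / 2) ^ (T m).S.card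

/-- No partial product over terms at `i` is independent of the bit `i`. -/
def Red (T : ι → Term n) (ζ : ι → ℂ) (M : Finset ι) : Prop :=
  ∀ (i : Fin n) (R : Finset ι), R ⊆ M → R.Nonempty → (∀ m ∈ R, i ∈ (T m).S) →
    ∃ x : Cube n, pr T ζ R (fl i x) ≠ pr T ζ R x

/-! ## Truncated expansions -/

/-- The expansion of `pr T ζ M`, truncated at `D` terms. -/
noncomputable def trn (T : ι → Term n) (ζ : ι → ℂ) (M : Finset ι) (D : ℕ) (x : Cube n) : ℂ :=
  ∑ J ∈ M.powerset.filter fun J => J.card ≤ D,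
    ∏ m ∈ J, (ζ m - 1) * ((tm (T m).S (T m).a x : ℝ) : ℂ)

/-- The bound for the error. -/
noncomputable def rem (T : ι → Term n) (M : Finset ι) (D : ℕ) (x : Cube n) : ℝ :=
  ∑ J ∈ M.powerset.filter fun J => J.card = D + 1, ∏ m ∈ J, 2 * tm (T m).S (T m).a x

/-! ## The linear part -/

/-- The variable `i` is alive: some term is true or becomes true if `i` is flipped. -/
def Al (T : ι → Term n) (M : Finset ι) (i : Fin n) (z : Cube n) : Prop :=
  ∃ m ∈ M, i ∈ (T m).S ∧ Tr ((T m).S.erase i) (T m).a z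

/-- The value of the product changes if the bit `i` is flipped. -/
def Ac (T : ι → Term n) (ζ : ι → ℂ) (M : Finset ι) (i : Fin n) (z : Cube n) : Prop :=
  pr T ζ M (fl i z) ≠ pr T ζ M z

/-- The indicator. -/
noncomputable def ac (T : ι → Term n) (ζ : ι → ℂ) (M : Finset ι) (i : Fin n) (z : Cube n) : ℝ :=
  one (Ac T ζ M i z)

/-- The sensitivity. -/
noncomputable def S0 (T : ι → Term n) (ζ : ι → ℂ) (M : Finset ι) (z : Cube n) : ℝ :=
  ∑ i, ac T ζ M i z

/-- No term has two alive variables in `η`. -/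
def Lin (T : ι → Term n) (M : Finset ι) (η : Finset (Fin n)) (z : Cube n) : Prop :=
  ∀ m ∈ M, ∀ B ⊆ (T m).S, 2 ≤ B.card → B ⊆ η → ¬ Tr ((T m).S \ B) (T m).a z

/-- The hash function separates the alive variables in `η`. -/
def Inj {B : ℕ} (T : ι → Term n) (M : Finset ι) (η : Finset (Fin n)) (h : Fin n → Fin B)
    (z : Cube n) : Prop :=
  ∀ i ∈ η, ∀ j ∈ η, Al T M i z → Al T M j z → h i = h j → i = j

open Classical in
/-- The number of active variables in `η`. -/
noncomputable def nac (T : ι → Term n) (ζ : ι → ℂ) (M : Finset ι) (η : Finset (Fin n))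
    (z : Cube n) : ℕ :=
  (η.filter fun i => Ac T ζ M i z).card

end Pool.Agent.MP_ca1109_lc.Xl
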