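import Pool.Agent.MP_ca1109_lc.Xl.ACP
import Pool.Agent.MP_ca1109_lc.Xl.Defs

namespace Pool.Agent.MP_ca1109_lc.Xl

open Finset Pool.Agent.H66 Pool.Agent.MP_ca1109_lc.Mpg Pool.Agent.MP_ca1109_lc.Agp
open Pool.Agent.MP_ca1109_lc.Dnf (Cube ch one Term)
open Pool.Agent.MP_ca1109_lc.Xp (Sp Bias xo fl Src mv)

variable {n : ℕ} {ι : Type}

/-! ## AC: activity of one variable (Lemma 2 of XPM), from `acl` -/

/-- The literals of the term `m` without `i`. -/
def ac1T (T : ι → Term n) (i : Fin n) (m : ι) : Finset (Fin n × Bool) :=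
  ((T m).S.erase i).image fun j => (j, (T m).a j)

/-- The coefficient with the sign of the literal of `i`. -/
noncomputable def ac1w (T : ι → Term n) (ζ : ι → ℂ) (i : Fin n) (m : ι) : ℂ :=
  if (T m).a i = true then ζ m else (ζ m)⁻¹

theorem ac1T_iff (T : ι → Term n) (i : Fin n) (m : ι) (z : Cube n) :
    acT (ac1T T i m) z ↔ Tr ((T m).S.erase i) (T m).a z := by
  constructor
  · intro h j hj
    exact h (j, (T m).a j) (mem_image_of_mem _ hj)
  · intro h p hp
    obtain ⟨j, hj, rfl⟩ := mem_image.1 hp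
    exact h j hj

theorem ac1T_card (T : ι → Term n) {i : Fin n} {m : ι} (hi : i ∈ (T m).S) :
    (ac1T T i m).card + 1 = (T m).S.card := by
  unfold ac1T
  rw [card_image_of_injective _ fun j k h => (Prod.mk.inj h).1, card_erase_of_mem hi]
  have : 0 < (T m).S.card := card_pos.2 ⟨i, hi⟩
  omega

theorem ac1_tr {S : Finset (Fin n)} {a : Cube n} {i : Fin n} (hi : i ∈ S) (x : Cube n) (b : Bool) :
    Tr S a (Function.update x i b) ↔ a i = b ∧ Tr (S.erase i) a x := by
  constructor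
  · intro h
    refine ⟨?_, fun j hj => ?_⟩
    · have h1 := h i hi
      rw [Function.update_self] at h1
      exact h1.symm
    · have h1 := h j (mem_of_mem_erase hj)
      rwa [Function.update_of_ne (ne_of_mem_erase hj)] at h1
  · rintro ⟨h1, h2⟩ j hj
    by_cases hji : j = i
    · rw [hji, Function.update_self, h1]
    · rw [Function.update_of_ne hji]
      exact h2 j (mem_erase.2 ⟨hji, hj⟩)

/-- The quotient of the values at `1` and `0`. -/
theorem ac1_quot {T : ι → Term n} {ζ : ι → ℂ} {C : Finset ι} {i : Fin n}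
    (hi : ∀ m ∈ C, i ∈ (T m).S) (hζ : ∀ m ∈ C, ζ m ≠ 0) (z : Cube n) :
    pr T ζ C (Function.update z i true) =
      acN (ac1T T i) (ac1w T ζ i) C z * pr T ζ C (Function.update z i false) := by
  unfold pr acN
  rw [← prod_mul_distrib]
  refine prod_congr rfl fun m hm => ?_
  have h1 := ac1_tr (a := (T m).a) (hi m hm) z true
  have h2 := ac1_tr (a := (T m).a) (hi m hm) z false
  have h3 := ac1T_iff T i m z
  by_cases hT : Tr ((T m).S.erase i) (T m).a z
  · rcases ha : (T m).a i with _ | _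
    · rw [if_neg fun h => by simpa [ha] using (h1.1 h).1, if_pos (h3.2 hT), if_pos (h2.2 ⟨ha, hT⟩)]
      unfold ac1w
      rw [if_neg (by simp [ha]), inv_mul_cancel₀ (hζ m hm)]
    · rw [if_pos (h1.2 ⟨ha, hT⟩), if_pos (h3.2 hT), if_neg fun h => by simpa [ha] using (h2.1 h).1]
      unfold ac1w
      rw [if_pos ha, mul_one]
  · rw [if_neg fun h => hT (h1.1 h).2, if_neg fun h => hT (h3.1 h), if_neg fun h => hT (h2.1 h).2,
      mul_one]

theorem ac1_pr_ne {T : ι → Term n} {ζ : ι → ℂ} {C : Finset ι} (hζ : ∀ m ∈ C, ζ m ≠ 0) (z : Cube n) :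
    pr T ζ C z ≠ 0 := by
  unfold pr
  refine prod_ne_zero_iff.2 fun m hm => ?_
  split_ifs
  · exact hζ m hm
  · exact one_ne_zero

theorem ac1_iff {T : ι → Term n} {ζ : ι → ℂ} {C : Finset ι} {i : Fin n}
    (hi : ∀ m ∈ C, i ∈ (T m).S) (hζ : ∀ m ∈ C, ζ m ≠ 0) (z : Cube n) :
    pr T ζ C (fl i z) ≠ pr T ζ C z ↔ acN (ac1T T i) (ac1w T ζ i) C z ≠ 1 := by
  have h1 := ac1_quot hi hζ z
  have h2 : pr T ζ C (Function.update z i false) ≠ 0 := ac1_pr_ne hζ _
  rw [not_iff_not]
  rcases hz : z i with _ | _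
  · have h3 : Function.update z i false = z := by
      rw [← hz]
      exact Function.update_eq_self i z
    have h4 : fl i z = Function.update z i true := by
      unfold fl
      rw [hz]
      rfl
    rw [h4, h1, h3]
    rw [h3] at h2
    exact mul_eq_right₀ h2
  · have h3 : Function.update z i true = z := by
      rw [← hz]
      exact Function.update_eq_self i z
    have h4 : fl i z = Function.update z i false := by
      unfold fl
      rw [hz]
      rfl
    rw [h3] at h1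
    rw [h4, h1, eq_comm]
    exact mul_eq_right₀ h2

theorem ac1_Ac [DecidableEq ι] {T : ι → Term n} {ζ : ι → ℂ} {M : Finset ι} {i : Fin n}
    (hζ : ∀ m ∈ M, ζ m ≠ 0) (z : Cube n) :
    Ac T ζ M i z ↔
      acN (ac1T T i) (ac1w T ζ i) (M.filter fun m => i ∈ (T m).S) z ≠ 1 := by
  have hsub : M.filter (fun m => i ∈ (T m).S) ⊆ M := filter_subset _ _
  rw [← ac1_iff (fun m hm => (mem_filter.1 hm).2) (fun m hm => hζ m (hsub hm))]
  have h9 : ∀ x, pr T ζ M x = pr T ζ (M \ M.filter fun m => i ∈ (T m).S) x *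
      pr T ζ (M.filter fun m => i ∈ (T m).S) x := by
    intro x
    unfold pr
    rw [prod_sdiff hsub]
  have h10 : pr T ζ (M \ M.filter fun m => i ∈ (T m).S) (fl i z) =
      pr T ζ (M \ M.filter fun m => i ∈ (T m).S) z := by
    unfold pr
    refine prod_congr rfl fun m hm => ?_
    rw [mem_sdiff, mem_filter, not_and] at hm
    have hi : i ∉ (T m).S := hm.2 hm.1
    have h11 : Tr (T m).S (T m).a (fl i z) ↔ Tr (T m).S (T m).a z := by
      unfold Tr fl
      refine forall_congr' fun j => forall_congr' fun hj => ?_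
      have hji : j ≠ i := fun h => hi (h ▸ hj)
      rw [Function.update_of_ne hji]
    by_cases hT : Tr (T m).S (T m).a z
    · rw [if_pos hT, if_pos (h11.2 hT)]
    · rw [if_neg hT, if_neg fun h => hT (h11.1 h)]
  unfold Ac
  rw [h9, h9 z, h10, not_iff_not]
  exact mul_right_inj' (ac1_pr_ne (fun m hm => hζ m (mem_sdiff.1 hm).1) z)

/-- Lemma 2 of XPM (one variable): the constant for the lower bound. -/
theorem ac_one (q r : ℕ) (hq : 0 < q) : ∃ κ : ℝ, 0 < κ ∧ ∀ (n : ℕ) {ι : Type} [DecidableEq ι]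
    (T : ι → Term n) (M : Finset ι) (ζ : ι → ℂ), Rd r T M → (∀ m ∈ M, ζ m ^ q = 1) →
    Red T ζ M → ∀ (i : Fin n) (m : ι), m ∈ M → i ∈ (T m).S →
      (∀ m' ∈ M, i ∈ (T m').S → (T m).S.card ≤ (T m').S.card) →
      κ * (1 / 2) ^ (T m).S.card ≤ avg (ac T ζ M i) := by
  obtain ⟨c, hc, H⟩ := acl r
  refine ⟨c, hc, ?_⟩
  intro n ι _ T M ζ hM hζ hred i m hm hi hmin
  have hζ0 : ∀ m ∈ M, ζ m ≠ 0 := by
    intro m hm h
    have h1 := hζ m hm
    rw [h, zero_pow hq.ne'] at h1
    exact zero_ne_one h1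
  have h1 := H n (M.filter fun m => i ∈ (T m).S) (ac1T T i) (ac1w T ζ i) (hM i) ?_ m
    (mem_filter.2 ⟨hm, hi⟩) ?_
  · have h2 : (fun z => one (acN (ac1T T i) (ac1w T ζ i) (M.filter fun m => i ∈ (T m).S) z ≠ 1)) =
        ac T ζ M i := by
      funext z
      unfold ac
      rw [propext (ac1_Ac hζ0 z)]
    rw [h2] at h1
    refine le_trans ?_ h1
    refine mul_le_mul_of_nonneg_left ?_ hc.le
    refine pow_le_pow_of_le_one (by norm_num) (by norm_num) ?_
    have := ac1T_card T hi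
    omega
  · intro C hC hne
    have hCi : ∀ m ∈ C, i ∈ (T m).S := fun m hm => (mem_filter.1 (hC hm)).2
    have hCM : C ⊆ M := hC.trans (filter_subset _ _)
    obtain ⟨x, hx⟩ := hred i C hCM hne hCi
    exact ⟨x, (ac1_iff hCi (fun m hm => hζ0 m (hCM hm)) x).1 hx⟩
  · intro l hl
    have h1 := ac1T_card T hi
    have h2 := ac1T_card T (mem_filter.1 hl).2
    have h3 := hmin l (mem_filter.1 hl).1 (mem_filter.1 hl).2
    omega

end Pool.Agent.MP_ca1109_lc.Xl
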