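import Pool.Agent.MP_ca1109_lc.Xl.ACS
import Pool.Agent.MP_ca1109_lc.Xl.AC1
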