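import Pool.Agent.MP_ca1109_lc.Xp.SP

/-!
# Sets of literals: a product of few indicator functions which is not constant (pure lemma)
-/

namespace Pool.Agent.MP_ca1109_lc.Xl

open Finset Pool.Agent.MP_ca1109_lc.Xp
open Pool.Agent.MP_ca1109_lc.Dnf (Cube ch one)

variable {n : ℕ}

/-- All literals of the set are true. -/
def acT (m : Finset (Fin n × Bool)) (x : Cube n) : Prop := ∀ p ∈ m, x p.1 = p.2

theorem acT_eq {m : Finset (Fin n × Bool)} {z0 : Cube n} (h : acT m z0) (x : Cube n) :
    acT m x ↔ Tr (m.image Prod.fst) (xo x fun i => !(z0 i)) := by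
  constructor
  · intro hx i hi
    obtain ⟨p, hp, rfl⟩ := mem_image.1 hi
    have h1 := hx p hp
    have h2 := h p hp
    change xor (x p.1) (!(z0 p.1)) = true
    rw [h1, h2]
    cases p.2 <;> rfl
  · intro hx p hp
    have h1 : xor (x p.1) (!(z0 p.1)) = true := hx p.1 (mem_image_of_mem _ hp)
    have h2 := h p hp
    rw [h2] at h1
    revert h1
    cases x p.1 <;> cases p.2 <;> simp

theorem acT_card {m : Finset (Fin n × Bool)} {z0 : Cube n} (h : acT m z0) :
    (m.image Prod.fst).card = m.card := by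
  refine card_image_of_injOn fun p hp q hq hpq => ?_
  have h1 := h p hp
  have h2 := h q hq
  exact Prod.ext hpq (by rw [← h1, ← h2, hpq])

theorem acT_avg {m : Finset (Fin n × Bool)} {z0 : Cube n} (h : acT m z0) :
    avg (fun x => one (acT m x)) = (1 / 2) ^ m.card := by
  have h1 : (fun x => one (acT m x)) = fun x => mon (m.image Prod.fst) (xo x fun i => !(z0 i)) := by
    funext x
    unfold mon
    rw [propext (acT_eq h x)]
  rw [h1, avg_xo, avg_mon, acT_card h]

theorem acT_avg_le (m : Finset (Fin n × Bool)) :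
    avg (fun x => one (acT m x)) ≤ (1 / 2) ^ m.card := by
  by_cases h : ∃ z0, acT m z0
  · obtain ⟨z0, h⟩ := h
    exact (acT_avg h).le
  · have h1 : (fun x : Cube n => one (acT m x)) = fun _ => 0 := by
      funext x
      exact Dnf.one_false fun hx => h ⟨x, hx⟩
    rw [h1, avg_const]
    positivity

open Classical in
/-- The product of the `w l`, `l ∈ C`, for which the literals of `T l` are true. -/
noncomputable def acN {ι : Type*} (T : ι → Finset (Fin n × Bool)) (w : ι → ℂ) (C : Finset ι)
    (z : Cube n) : ℂ := ∏ l ∈ C, if acT (T l) z then w l else 1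

/-- The thresholds. -/
def acL (r : ℕ) : ℕ → ℕ
  | 0 => 0
  | a + 1 => (2 * r + 1) * acL r a + r + 2

theorem acL_mono (r : ℕ) : Monotone (acL r) := by
  refine monotone_nat_of_le_succ fun a => ?_
  have : acL r (a + 1) = (2 * r + 1) * acL r a + r + 2 := rfl
  rw [this]
  nlinarith [Nat.zero_le (r * acL r a)]

/-- The pigeonhole principle. -/
theorem ac_pigeon {ι : Type*} [DecidableEq ι] {r : ℕ} {K : Finset ι} (hK : K.card ≤ r) (d : ι → ℕ)
    {l1 : ι} (hl1 : l1 ∈ K) (h0 : d l1 = 0) :
    ∃ a < r, ∀ l ∈ K, d l ≤ acL r a ∨ acL r (a + 1) < d l := by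
  by_contra hcon
  push Not at hcon
  have h1 : ∀ a ∈ range r, ∃ l ∈ K, acL r a < d l ∧ d l ≤ acL r (a + 1) := fun a ha =>
    hcon a (mem_range.1 ha)
  have : Nonempty ι := ⟨l1⟩
  choose! f hf using h1
  have h2 : ∀ a ∈ range r, f a ∈ K.erase l1 := by
    intro a ha
    refine mem_erase.2 ⟨?_, (hf a ha).1⟩
    intro h
    have h3 := (hf a ha).2.1
    rw [h, h0] at h3
    exact absurd h3 (Nat.not_lt_zero _)
  have h3 : Set.InjOn f (range r : Finset ℕ) := by
    have key : ∀ a ∈ range r, ∀ b ∈ range r, a < b → f a ≠ f b := by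
      intro a ha b hb hab h
      have h4 := (hf a ha).2.2
      have h5 := (hf b hb).2.1
      rw [← h] at h5
      have h6 := acL_mono r (Nat.succ_le_of_lt hab)
      simp only [Nat.succ_eq_add_one] at h6
      omega
    intro a ha b hb hab
    rcases lt_trichotomy a b with h | h | h
    · exact absurd hab (key a ha b hb h)
    · exact h
    · exact absurd hab.symm (key b hb a ha h)
  have h4 := card_le_card_of_injOn f h2 h3
  rw [card_range, card_erase_of_mem hl1] at h4
  have h5 : 0 < K.card := card_pos.2 ⟨l1, hl1⟩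
  omega

/-- A product of at most `r` factors, no subproduct of which is constant, differs from `1` with
probability at least `c 2 ^ -w`, `w` the least number of literals. -/
theorem acl (r : ℕ) : ∃ c : ℝ, 0 < c ∧ ∀ (n : ℕ) {ι : Type*} (K : Finset ι)
    (T : ι → Finset (Fin n × Bool)) (w : ι → ℂ), K.card ≤ r →
    (∀ C ⊆ K, C.Nonempty → ∃ z, acN T w C z ≠ 1) →
    ∀ l1 ∈ K, (∀ l ∈ K, (T l1).card ≤ (T l).card) →
      c * (1 / 2) ^ (T l1).card ≤ avg fun z => one (acN T w K z ≠ 1) := by
  refine ⟨(1 / 2) ^ ((2 * r + 1) * acL r r + 1), by positivity, ?_⟩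
  intro n ι K T w hK hN l1 hl1 hmin
  classical
  obtain ⟨a, har, ha⟩ := ac_pigeon hK (fun l => (T l \ T l1).card) hl1 (by simp)
  set L := acL r a with hL
  have hL' : acL r (a + 1) = (2 * r + 1) * L + r + 2 := rfl
  rw [hL'] at ha
  set C := K.filter fun l => (T l \ T l1).card ≤ L with hC
  have hl1C : l1 ∈ C := mem_filter.2 ⟨hl1, by simp⟩
  obtain ⟨z0, hz0⟩ := hN C (filter_subset _ _) ⟨l1, hl1C⟩
  -- some term of `C` is true at `z0`
  obtain ⟨lc, hlc, hT⟩ : ∃ l ∈ C, acT (T l) z0 := by
    by_contra hcon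
    push Not at hcon
    apply hz0
    unfold acN
    exact prod_eq_one fun l hl => if_neg (hcon l hl)
  have hlcK : lc ∈ K := (mem_filter.1 hlc).1
  have hlcL : (T lc \ T l1).card ≤ L := (mem_filter.1 hlc).2
  have e1 := card_sdiff_add_card_inter (T lc) (T l1)
  have e2 := card_sdiff_add_card_inter (T l1) (T lc)
  rw [inter_comm] at e2
  have e3 := hmin lc hlcK
  have hsub : ∀ l ∈ C, (T l \ T lc).card ≤ 2 * L := by
    intro l hl
    have h1 : T l \ T lc ⊆ (T l \ T l1) ∪ (T l1 \ T lc) := by
      intro p hp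
      rw [mem_sdiff] at hp
      rw [mem_union, mem_sdiff, mem_sdiff]
      tauto
    have h2 := (card_le_card h1).trans (card_union_le _ _)
    have h3 := (mem_filter.1 hl).2
    omega
  have hout : ∀ l ∈ K \ C, 2 * r * L + r + 2 ≤ (T l \ T lc).card := by
    intro l hl
    rw [mem_sdiff] at hl
    have h0 : ¬ (T l \ T l1).card ≤ L := fun h => hl.2 (mem_filter.2 ⟨hl.1, h⟩)
    have h1 : (2 * r + 1) * L + r + 2 < (T l \ T l1).card := (ha l hl.1).resolve_left h0
    have h2 : T l \ T l1 ⊆ (T l \ T lc) ∪ (T lc \ T l1) := by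
      intro p hp
      rw [mem_sdiff] at hp
      rw [mem_union, mem_sdiff, mem_sdiff]
      tauto
    have h3 := (card_le_card h2).trans (card_union_le _ _)
    have h4 : (2 * r + 1) * L = 2 * r * L + L := by ring
    omega
  -- the literals of `z0` on the variables of `C`
  set Vr := C.biUnion fun l => (T l).image Prod.fst \ (T lc).image Prod.fst with hVr
  set U := T lc ∪ Vr.image fun i => (i, z0 i) with hU
  have hU0 : acT U z0 := by
    intro p hp
    rcases mem_union.1 hp with h | h
    · exact hT p h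
    · obtain ⟨i, -, rfl⟩ := mem_image.1 h
      rfl
  have hCr : C.card ≤ r := (card_le_card (filter_subset _ _)).trans hK
  have hVc : Vr.card ≤ 2 * r * L := by
    calc Vr.card ≤ ∑ l ∈ C, ((T l).image Prod.fst \ (T lc).image Prod.fst).card := card_biUnion_le
      _ ≤ ∑ _l ∈ C, 2 * L := by
        refine sum_le_sum fun l hl => ?_
        have h1 : (T l).image Prod.fst \ (T lc).image Prod.fst ⊆ (T l \ T lc).image Prod.fst := by
          intro i hi
          rw [mem_sdiff] at hi
          obtain ⟨p, hp, rfl⟩ := mem_image.1 hi.1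
          exact mem_image_of_mem _ (mem_sdiff.2 ⟨hp, fun h => hi.2 (mem_image_of_mem _ h)⟩)
        exact (card_le_card h1).trans (card_image_le.trans (hsub l hl))
      _ = C.card * (2 * L) := by rw [sum_const, smul_eq_mul]
      _ ≤ r * (2 * L) := Nat.mul_le_mul_right _ hCr
      _ = 2 * r * L := by ring
  have hUc : U.card ≤ (T lc).card + 2 * r * L :=
    (card_union_le _ _).trans (Nat.add_le_add_left (card_image_le.trans hVc) _)
  -- on `U` the product over `C` is that at `z0`
  have hsame : ∀ z, acT U z → acN T w C z = acN T w C z0 := by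
    intro z hz
    have h1 : ∀ l ∈ C, ∀ p ∈ T l, z p.1 = z0 p.1 := by
      intro l hl p hp
      by_cases h2 : p.1 ∈ (T lc).image Prod.fst
      · obtain ⟨p', hp', he⟩ := mem_image.1 h2
        rw [← he, hz p' (mem_union_left _ hp'), hT p' hp']
      · have h3 : p.1 ∈ Vr := mem_biUnion.2 ⟨l, hl, mem_sdiff.2 ⟨mem_image_of_mem _ hp, h2⟩⟩
        exact hz (p.1, z0 p.1) (mem_union_right _ (mem_image_of_mem (fun i => (i, z0 i)) h3))
    unfold acN
    refine prod_congr rfl fun l hl => ?_
    have h2 : acT (T l) z ↔ acT (T l) z0 := by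
      constructor
      · intro h p hp
        rw [← h1 l hl p hp, h p hp]
      · intro h p hp
        rw [h1 l hl p hp, h p hp]
    simp only [h2]
  have hpt : ∀ z, one (acT U z) - ∑ l ∈ K \ C, one (acT (T lc ∪ T l) z) ≤
      one (acN T w K z ≠ 1) := by
    intro z
    by_cases hz : acT U z
    · by_cases hk : ∃ l ∈ K \ C, acT (T l) z
      · obtain ⟨l, hl, hlz⟩ := hk
        have h1 : acT (T lc ∪ T l) z := by
          intro p hp
          rcases mem_union.1 hp with h | h
          · exact hz p (mem_union_left _ h)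
          · exact hlz p h
        have h2 : one (acT (T lc ∪ T l) z) ≤ ∑ l ∈ K \ C, one (acT (T lc ∪ T l) z) :=
          single_le_sum (f := fun l => one (acT (T lc ∪ T l) z))
            (fun l _ => Dnf.one_nonneg _) hl
        rw [Dnf.one_true h1] at h2
        rw [Dnf.one_true hz]
        linarith [Dnf.one_nonneg (acN T w K z ≠ 1)]
      · push Not at hk
        have h1 : acN T w K z ≠ 1 := by
          have h2 : acN T w K z = acN T w C z := by
            unfold acN
            rw [← prod_sdiff (filter_subset (fun l => (T l \ T l1).card ≤ L) K)]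
            rw [prod_eq_one fun l hl => if_neg (hk l hl), one_mul]
          rw [h2, hsame z hz]
          exact hz0
        rw [Dnf.one_true h1, Dnf.one_true hz]
        linarith [sum_nonneg fun l (_ : l ∈ K \ C) => Dnf.one_nonneg (acT (T lc ∪ T l) z)]
    · rw [Dnf.one_false hz]
      linarith [sum_nonneg fun l (_ : l ∈ K \ C) => Dnf.one_nonneg (acT (T lc ∪ T l) z),
        Dnf.one_nonneg (acN T w K z ≠ 1)]
  have h1 := avg_mono hpt
  rw [avg_sub, avg_sum, acT_avg hU0] at h1
  have hhalf : (0 : ℝ) ≤ 1 / 2 := by norm_num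
  have hhalf1 : (1 / 2 : ℝ) ≤ 1 := by norm_num
  have h2 : ∑ l ∈ K \ C, avg (fun z => one (acT (T lc ∪ T l) z)) ≤
      r * (1 / 2) ^ ((T lc).card + (2 * r * L + r + 2)) := by
    calc ∑ l ∈ K \ C, avg (fun z => one (acT (T lc ∪ T l) z)) ≤
        ∑ _l ∈ K \ C, (1 / 2 : ℝ) ^ ((T lc).card + (2 * r * L + r + 2)) := by
          refine sum_le_sum fun l hl => (acT_avg_le _).trans ?_
          refine pow_le_pow_of_le_one hhalf hhalf1 ?_
          have h3 : (T lc ∪ T l).card = (T lc).card + (T l \ T lc).card := by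
            rw [← union_sdiff_self_eq_union, card_union_of_disjoint disjoint_sdiff]
          rw [h3]
          exact Nat.add_le_add_left (hout l hl) _
      _ = (K \ C).card * (1 / 2 : ℝ) ^ ((T lc).card + (2 * r * L + r + 2)) := by
          rw [sum_const, nsmul_eq_mul]
      _ ≤ _ := by
          refine mul_le_mul_of_nonneg_right ?_ (by positivity)
          exact_mod_cast (card_le_card sdiff_subset).trans hK
  have h3 : (1 / 2 : ℝ) ^ ((T lc).card + 2 * r * L) ≤ (1 / 2) ^ U.card :=
    pow_le_pow_of_le_one hhalf hhalf1 hUc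
  have h4 : (r : ℝ) * (1 / 2) ^ ((T lc).card + (2 * r * L + r + 2)) ≤
      1 / 4 * (1 / 2) ^ ((T lc).card + 2 * r * L) := by
    have h5 : (r : ℝ) * (1 / 2) ^ r ≤ 1 := by
      have h6 : (r : ℝ) ≤ 2 ^ r := by exact_mod_cast (Nat.lt_two_pow_self (n := r)).le
      calc (r : ℝ) * (1 / 2) ^ r ≤ 2 ^ r * (1 / 2) ^ r :=
            mul_le_mul_of_nonneg_right h6 (by positivity)
        _ = 1 := by rw [← mul_pow]; norm_num
    have h6 : (1 / 2 : ℝ) ^ ((T lc).card + (2 * r * L + r + 2)) =
        (1 / 2) ^ ((T lc).card + 2 * r * L) * ((1 / 2) ^ r * (1 / 4)) := by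
      rw [show (T lc).card + (2 * r * L + r + 2) = ((T lc).card + 2 * r * L) + (r + 2) by ring,
        pow_add, pow_add (1 / 2 : ℝ) r 2]
      norm_num
    rw [h6]
    have h7 : (0 : ℝ) ≤ (1 / 2) ^ ((T lc).card + 2 * r * L) := by positivity
    nlinarith
  have h5 : (T lc).card + 2 * r * L + 1 ≤ (2 * r + 1) * acL r r + 1 + (T l1).card := by
    have h6 : L ≤ acL r r := acL_mono r har.le
    have h7 : (2 * r + 1) * L ≤ (2 * r + 1) * acL r r := Nat.mul_le_mul_left _ h6
    have h8 : (2 * r + 1) * L = 2 * r * L + L := by ring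
    have h9 : (T lc ∩ T l1).card ≤ (T l1).card := card_le_card inter_subset_right
    omega
  have h6 : (1 / 2 : ℝ) ^ ((2 * r + 1) * acL r r + 1) * (1 / 2) ^ (T l1).card ≤
      1 / 2 * (1 / 2) ^ ((T lc).card + 2 * r * L) := by
    rw [← pow_add]
    calc (1 / 2 : ℝ) ^ ((2 * r + 1) * acL r r + 1 + (T l1).card) ≤
        (1 / 2) ^ ((T lc).card + 2 * r * L + 1) := pow_le_pow_of_le_one hhalf hhalf1 h5
      _ = _ := by rw [pow_succ]; ring
  have h7 : (0 : ℝ) ≤ (1 / 2) ^ ((T lc).card + 2 * r * L) := by positivity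
  linarith

end Pool.Agent.MP_ca1109_lc.Xl
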