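import Pool.Agent.MP_ca1109_lc.Xl.ST

/-!
# Row ACS: the activity of a variable depends only on the terms at this variable
-/

namespace Pool.Agent.MP_ca1109_lc.Xl

open Finset Pool.Agent.H66 Pool.Agent.MP_ca1109_lc.Mpg Pool.Agent.MP_ca1109_lc.Agp
open Pool.Agent.MP_ca1109_lc.Dnf (Cube ch one Term)
open Pool.Agent.MP_ca1109_lc.Xp (Sp Bias xo fl Src mv)

variable {n : ℕ} {ι : Type} [DecidableEq ι]

/-- The product over the terms of `R` which want `i` true differs from the product over the terms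
of `R` which want `i` false. -/
def acsD (T : ι → Term n) (ζ : ι → ℂ) (i : Fin n) (R : Finset ι) : Prop :=
  ∏ m ∈ R.filter (fun m => (T m).a i = true), ζ m ≠
    ∏ m ∈ R.filter (fun m => (T m).a i = false), ζ m

open Classical in
/-- The terms at `i` which are true up to `i`. -/
noncomputable def acsK (T : ι → Term n) (M : Finset ι) (i : Fin n) (z : Cube n) : Finset ι :=
  (M.filter fun m => i ∈ (T m).S).filter fun m => Tr ((T m).S.erase i) (T m).a z

theorem acs_tr_iff {S : Finset (Fin n)} {a x : Cube n} {i : Fin n} (hi : i ∈ S) :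
    Tr S a x ↔ Tr (S.erase i) a x ∧ a i = x i := by
  constructor
  · intro h
    exact ⟨fun j hj => h j (mem_of_mem_erase hj), (h i hi).symm⟩
  · rintro ⟨h1, h2⟩ j hj
    by_cases hji : j = i
    · rw [hji, h2]
    · exact h1 j (mem_erase.2 ⟨hji, hj⟩)

theorem acs_tr_congr {S : Finset (Fin n)} {a x y : Cube n} (h : ∀ j ∈ S, x j = y j) :
    Tr S a x ↔ Tr S a y := by
  constructor
  · intro h1 j hj
    rw [← h j hj]; exact h1 j hj
  · intro h1 j hj
    rw [h j hj]; exact h1 j hj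

theorem acs_fl_ne {i j : Fin n} (x : Cube n) (h : j ≠ i) : fl i x j = x j := by
  unfold Xp.fl
  exact Function.update_of_ne h _ _

theorem acs_fl_eq (i : Fin n) (x : Cube n) : fl i x i = !(x i) := by
  unfold Xp.fl
  exact Function.update_self _ _ _

omit [DecidableEq ι] in
theorem acs_K_congr {T : ι → Term n} {M : Finset ι} {i : Fin n} {x y : Cube n}
    (h : ∀ m ∈ M, i ∈ (T m).S → ∀ j ∈ (T m).S, j ≠ i → x j = y j) :
    acsK T M i x = acsK T M i y := by
  classical
  unfold acsK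
  refine filter_congr fun m hm => ?_
  obtain ⟨hmM, hi⟩ := mem_filter.1 hm
  exact acs_tr_congr fun j hj => h m hmM hi j (mem_of_mem_erase hj) (mem_erase.1 hj).1

omit [DecidableEq ι] in
theorem acs_pr {T : ι → Term n} {ζ : ι → ℂ} {M : Finset ι} (i : Fin n) (x : Cube n) :
    pr T ζ (M.filter fun m => i ∈ (T m).S) x =
      ∏ m ∈ (acsK T M i x).filter (fun m => (T m).a i = x i), ζ m := by
  classical
  unfold pr acsK
  rw [filter_filter, filter_filter, prod_filter (s := M), prod_filter (s := M)]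
  refine prod_congr rfl fun m _ => ?_
  by_cases hi : i ∈ (T m).S
  · rw [if_pos hi]
    by_cases hT : Tr (T m).S (T m).a x
    · rw [if_pos hT, if_pos]
      obtain ⟨h1, h2⟩ := (acs_tr_iff hi).1 hT
      exact ⟨hi, h1, h2⟩
    · rw [if_neg hT, if_neg]
      rintro ⟨_, h1, h2⟩
      exact hT ((acs_tr_iff hi).2 ⟨h1, h2⟩)
  · rw [if_neg hi, if_neg]
    rintro ⟨h, _⟩
    exact hi h

theorem acs_iff {T : ι → Term n} {M : Finset ι} {ζ : ι → ℂ} (hζ : ∀ m ∈ M, ζ m ≠ 0) (i : Fin n)
    (z : Cube n) : Ac T ζ M i z ↔ acsD T ζ i (acsK T M i z) := by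
  classical
  have hsplit : ∀ x, pr T ζ M x = pr T ζ (M.filter fun m => i ∈ (T m).S) x *
      pr T ζ (M.filter fun m => ¬ i ∈ (T m).S) x := by
    intro x
    unfold pr
    rw [prod_filter_mul_prod_filter_not]
  have hN : pr T ζ (M.filter fun m => ¬ i ∈ (T m).S) (fl i z) =
      pr T ζ (M.filter fun m => ¬ i ∈ (T m).S) z := by
    unfold pr
    refine prod_congr rfl fun m hm => ?_
    have hi := (mem_filter.1 hm).2
    have : Tr (T m).S (T m).a (fl i z) ↔ Tr (T m).S (T m).a z :=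
      acs_tr_congr fun j hj => acs_fl_ne z fun h => hi (h ▸ hj)
    simp only [this]
  have hN0 : pr T ζ (M.filter fun m => ¬ i ∈ (T m).S) z ≠ 0 := by
    unfold pr
    refine prod_ne_zero_iff.2 fun m hm => ?_
    split_ifs
    · exact hζ m (mem_filter.1 hm).1
    · exact one_ne_zero
  have hKf : acsK T M i (fl i z) = acsK T M i z :=
    acs_K_congr fun m _ _ j _ hj => acs_fl_ne z hj
  unfold Ac acsD
  rw [hsplit (fl i z), hsplit z, hN, acs_pr, acs_pr, hKf, acs_fl_eq, Ne, Ne,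
    mul_left_inj' hN0]
  cases z i
  · simp
  · simp only [Bool.not_true]
    rw [eq_comm]

/-- The value of `ac` depends only on the variables of the terms at `i`, without `i`. -/
theorem ac_dep {T : ι → Term n} {M : Finset ι} {ζ : ι → ℂ} (hζ : ∀ m ∈ M, ζ m ≠ 0) (i : Fin n)
    (x y : Cube n) (h : ∀ m ∈ M, i ∈ (T m).S → ∀ j ∈ (T m).S, j ≠ i → x j = y j) :
    ac T ζ M i x = ac T ζ M i y := by
  unfold ac
  congr 1
  exact propext (by rw [acs_iff hζ i x, acs_iff hζ i y, acs_K_congr h])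

theorem acs_tm_true {S : Finset (Fin n)} {a x : Cube n} (h : Tr S a x) :
    ((tm S a x : ℝ) : ℂ) = 1 := by
  unfold tm one
  rw [if_pos h, Complex.ofReal_one]

theorem acs_tm_false {S : Finset (Fin n)} {a x : Cube n} (h : ¬ Tr S a x) :
    ((tm S a x : ℝ) : ℂ) = 0 := by
  unfold tm one
  rw [if_neg h, Complex.ofReal_zero]

theorem acs_expand {T : ι → Term n} {M : Finset ι} {ζ : ι → ℂ} (hζ : ∀ m ∈ M, ζ m ≠ 0) (i : Fin n)
    (z : Cube n) : ((ac T ζ M i z : ℝ) : ℂ) =
      ∑ R ∈ (M.filter fun m => i ∈ (T m).S).powerset, ((one (acsD T ζ i R) : ℝ) : ℂ) *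
        ((∏ m ∈ R, ((tm ((T m).S.erase i) (T m).a z : ℝ) : ℂ)) *
          ∏ m ∈ (M.filter fun m => i ∈ (T m).S) \ R,
            (1 + (-1) * ((tm ((T m).S.erase i) (T m).a z : ℝ) : ℂ))) := by
  classical
  set K := M.filter fun m => i ∈ (T m).S with hK
  have hKK : acsK T M i z = K.filter fun m => Tr ((T m).S.erase i) (T m).a z := by
    unfold acsK
    rfl
  have hsub : acsK T M i z ⊆ K := by rw [hKK]; exact filter_subset _ _
  rw [sum_eq_single (acsK T M i z)]
  · have h1 : ∏ m ∈ acsK T M i z, ((tm ((T m).S.erase i) (T m).a z : ℝ) : ℂ) = 1 := by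
      refine prod_eq_one fun m hm => acs_tm_true ?_
      rw [hKK] at hm
      exact (mem_filter.1 hm).2
    have h2 : ∏ m ∈ K \ acsK T M i z,
        (1 + (-1) * ((tm ((T m).S.erase i) (T m).a z : ℝ) : ℂ)) = 1 := by
      refine prod_eq_one fun m hm => ?_
      obtain ⟨hm1, hm2⟩ := mem_sdiff.1 hm
      rw [acs_tm_false]
      · ring
      · intro h
        exact hm2 (by rw [hKK]; exact mem_filter.2 ⟨hm1, h⟩)
    rw [h1, h2, mul_one, mul_one]
    unfold ac
    rw [propext (acs_iff hζ i z)]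
  · intro R hR hne
    have hRK := mem_powerset.1 hR
    by_cases h : R ⊆ acsK T M i z
    · -- some element of the true set is missing
      obtain ⟨m, hm, hmR⟩ : ∃ m ∈ acsK T M i z, m ∉ R := by
        by_contra hcon
        exact hne (h.antisymm fun m hm => by
          by_contra hmR
          exact hcon ⟨m, hm, hmR⟩)
      have hm' := hm
      rw [hKK] at hm'
      rw [prod_eq_zero (i := m) (mem_sdiff.2 ⟨hsub hm, hmR⟩), mul_zero, mul_zero]
      rw [acs_tm_true (mem_filter.1 hm').2]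
      ring
    · obtain ⟨m, hm, hmK⟩ := not_subset.1 h
      rw [prod_eq_zero hm, zero_mul, mul_zero]
      refine acs_tm_false fun hT => hmK ?_
      rw [hKK]
      exact mem_filter.2 ⟨hRK hm, hT⟩
  · intro h
    exact absurd (mem_powerset.2 hsub) h

/-- The value of `ac` is a function of the (at most `r`) terms at `i` without `i`. -/
theorem ac_sp {r : ℕ} {T : ι → Term n} {M : Finset ι} (ζ : ι → ℂ) (hζ : ∀ m ∈ M, ζ m ≠ 0)
    (hM : Rd r T M) (i : Fin n) : Sp (4 ^ r) (fun z => ((ac T ζ M i z : ℝ) : ℂ)) := by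
  classical
  set K := M.filter fun m => i ∈ (T m).S with hK
  have hKr : K.card ≤ r := hM i
  have h1 : ∀ m : ι, Sp 2 (fun z : Cube n =>
      (1 + (-1) * ((tm ((T m).S.erase i) (T m).a z : ℝ) : ℂ))) := by
    intro m
    have := (Xp.Sp.const (n := n) (1 : ℂ)).add ((sp_tm ((T m).S.erase i) (T m).a).smul (-1 : ℂ))
    refine this.mono ?_
    norm_num
  have h2 : ∀ R ∈ K.powerset, Sp ((2 : ℝ) ^ K.card) (fun z : Cube n =>
      ((one (acsD T ζ i R) : ℝ) : ℂ) * ((∏ m ∈ R, ((tm ((T m).S.erase i) (T m).a z : ℝ) : ℂ)) *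
          ∏ m ∈ K \ R, (1 + (-1) * ((tm ((T m).S.erase i) (T m).a z : ℝ) : ℂ)))) := by
    intro R _
    have h3 := (Xp.Sp.prod R (fun _ => (1 : ℝ)) _ fun m _ => sp_tm ((T m).S.erase i) (T m).a).mul
      (Xp.Sp.prod (K \ R) (fun _ => (2 : ℝ)) _ fun m _ => h1 m)
    refine (h3.smul ((one (acsD T ζ i R) : ℝ) : ℂ)).mono ?_
    rw [prod_const, prod_const, one_pow, one_mul]
    have h4 : ‖((one (acsD T ζ i R) : ℝ) : ℂ)‖ ≤ 1 := by
      unfold one
      split_ifs <;> simp
    have h5 : (2 : ℝ) ^ (K \ R).card ≤ 2 ^ K.card :=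
      pow_le_pow_right₀ (by norm_num) (card_le_card sdiff_subset)
    have h6 : (0 : ℝ) ≤ 2 ^ (K \ R).card := by positivity
    calc _ ≤ 1 * (2 : ℝ) ^ (K \ R).card := mul_le_mul_of_nonneg_right h4 h6
      _ ≤ _ := by rw [one_mul]; exact h5
  have h3 := Xp.Sp.sum K.powerset (fun _ => (2 : ℝ) ^ K.card) _ h2
  refine (h3.mono ?_).of_eq fun z => ?_
  · rw [sum_const, card_powerset, nsmul_eq_mul]
    push_cast
    rw [← mul_pow]
    norm_num
    exact pow_le_pow_right₀ (by norm_num) hKr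
  · exact (acs_expand hζ i z).symm

end Pool.Agent.MP_ca1109_lc.Xl
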