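import Pool.Agent.MP_ca1109_lc.Xl.AC

namespace Pool.Agent.MP_ca1109_lc.Xl

open Finset Pool.Agent.H66 Pool.Agent.MP_ca1109_lc.Mpg Pool.Agent.MP_ca1109_lc.Agp
open Pool.Agent.MP_ca1109_lc.Dnf (Cube ch one Term)
open Pool.Agent.MP_ca1109_lc.Xp (Sp Bias xo fl Src mv)

variable {n : ℕ} {ι : Type} [DecidableEq ι]

/-! ## AL: the mean of the sensitivity (from `ac_one`) -/

omit [DecidableEq ι] in
private theorem al_A1_eq {T : ι → Term n} {M : Finset ι} : A1 T M =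
    ∑ i : Fin n, ∑ m ∈ M.filter (fun m => i ∈ (T m).S), (1 / 2 : ℝ) ^ (T m).S.card := by
  unfold A1
  simp only [Finset.sum_filter]
  rw [Finset.sum_comm]
  refine Finset.sum_congr rfl fun m _ => ?_
  rw [← Finset.sum_filter, Finset.filter_mem_eq_inter, Finset.univ_inter, Finset.sum_const,
    nsmul_eq_mul]

omit [DecidableEq ι] in
private theorem al_S0_eq {T : ι → Term n} {M : Finset ι} (ζ : ι → ℂ) : avg (S0 T ζ M) =
    ∑ i : Fin n, avg (ac T ζ M i) := by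
  have : S0 T ζ M = fun z => ∑ i ∈ (Finset.univ : Finset (Fin n)), ac T ζ M i z := by
    funext z; rfl
  rw [this, avg_sum]

theorem ac_lower (q r : ℕ) (hq : 0 < q) : ∃ K : ℕ, 1 ≤ K ∧ ∀ (n : ℕ) {ι : Type} [DecidableEq ι]
    (T : ι → Term n) (M : Finset ι) (ζ : ι → ℂ), Rd r T M → (∀ m ∈ M, ζ m ^ q = 1) →
    Red T ζ M → A1 T M ≤ K * avg (S0 T ζ M) := by
  obtain ⟨κ, hκ, H⟩ := ac_one q r hq
  refine ⟨max 1 ⌈(r : ℝ) / κ⌉₊, le_max_left _ _, ?_⟩
  intro n ι _ T M ζ hR hζ hRed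
  have hK : (r : ℝ) / κ ≤ ((max 1 ⌈(r : ℝ) / κ⌉₊ : ℕ) : ℝ) :=
    (Nat.le_ceil _).trans (by exact_mod_cast le_max_right _ _)
  set K : ℕ := max 1 ⌈(r : ℝ) / κ⌉₊ with hKdef
  have hac : ∀ i, 0 ≤ avg (ac T ζ M i) := fun i =>
    avg_nonneg fun z => Pool.Agent.MP_ca1109_lc.Dnf.one_nonneg _
  rw [al_A1_eq, al_S0_eq, Finset.mul_sum]
  refine Finset.sum_le_sum fun i _ => ?_
  rcases (M.filter fun m => i ∈ (T m).S).eq_empty_or_nonempty with he | hne
  · rw [he, Finset.sum_empty]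
    exact mul_nonneg (Nat.cast_nonneg _) (hac i)
  · obtain ⟨m, hm, hmin⟩ := Finset.exists_min_image (M.filter fun m => i ∈ (T m).S)
      (fun m => (T m).S.card) hne
    rw [Finset.mem_filter] at hm
    have h1 := H n T M ζ hR hζ hRed i m hm.1 hm.2 fun m' hm' hi =>
      hmin m' (Finset.mem_filter.2 ⟨hm', hi⟩)
    have h2 : ∑ m' ∈ M.filter (fun m => i ∈ (T m).S), (1 / 2 : ℝ) ^ (T m').S.card
        ≤ r * (1 / 2 : ℝ) ^ (T m).S.card := by
      calc ∑ m' ∈ M.filter (fun m => i ∈ (T m).S), (1 / 2 : ℝ) ^ (T m').S.card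
          ≤ ∑ _m' ∈ M.filter (fun m => i ∈ (T m).S), (1 / 2 : ℝ) ^ (T m).S.card :=
            Finset.sum_le_sum fun m' hm' =>
              pow_le_pow_of_le_one (by norm_num) (by norm_num) (hmin m' hm')
        _ = ((M.filter fun m => i ∈ (T m).S).card : ℝ) * (1 / 2 : ℝ) ^ (T m).S.card := by
            rw [Finset.sum_const, nsmul_eq_mul]
        _ ≤ r * (1 / 2 : ℝ) ^ (T m).S.card :=
            mul_le_mul_of_nonneg_right (by exact_mod_cast hR i) (by positivity)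
    refine h2.trans ?_
    have h3 : (r : ℝ) * (1 / 2 : ℝ) ^ (T m).S.card
        = (r : ℝ) / κ * (κ * (1 / 2 : ℝ) ^ (T m).S.card) := by
      field_simp
    rw [h3]
    calc (r : ℝ) / κ * (κ * (1 / 2 : ℝ) ^ (T m).S.card)
        ≤ (r : ℝ) / κ * avg (ac T ζ M i) :=
          mul_le_mul_of_nonneg_left h1 (div_nonneg (Nat.cast_nonneg _) hκ.le)
      _ ≤ (K : ℝ) * avg (ac T ζ M i) := mul_le_mul_of_nonneg_right hK (hac i)

end Pool.Agent.MP_ca1109_lc.Xl
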