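import Pool.Agent.MP_ca1109_lc.Xl.Defs
import Pool.Agent.MP_ca1109_lc.Xp.FN

/-!
# Finner's inequality for terms: the exponential bound
-/

namespace Pool.Agent.MP_ca1109_lc.Xl

open Finset Pool.Agent.H66 Pool.Agent.MP_ca1109_lc.Mpg Pool.Agent.MP_ca1109_lc.Agp
open Pool.Agent.MP_ca1109_lc.Dnf (Cube ch one Term)
open Pool.Agent.MP_ca1109_lc.Xp (Sp Bias xo fl Src mv)

variable {n : ℕ} {ι : Type} [DecidableEq ι]

/-! ## FX: Finner's inequality (from `Xor.mgf`) -/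

theorem finner_exp {r : ℕ} (hr : 1 ≤ r) (T : ι → Term n) (M : Finset ι) (hM : Rd r T M) :
    avg (fun x => ∏ m ∈ M, (1 + 4 * tm (T m).S (T m).a x)) ≤ Real.exp (5 ^ r * lam T M) := by
  rw [Xp.avg_E]
  have h := Xor.mgf r hr M T hM 4 (by norm_num)
  refine (le_of_eq ?_).trans (h.trans (Real.exp_le_exp.2 ?_))
  · rfl
  · have h0 : 0 ≤ lam T M := Finset.sum_nonneg fun _ _ => by positivity
    change ((1 + 4 : ℝ) ^ r - 1) / r * lam T M ≤ 5 ^ r * lam T M
    refine mul_le_mul_of_nonneg_right ?_ h0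
    have h1 : (1 : ℝ) ≤ r := by exact_mod_cast hr
    have h2 : (0 : ℝ) < 5 ^ r := by positivity
    rw [show (1 + 4 : ℝ) = 5 by norm_num, div_le_iff₀ (by linarith)]
    nlinarith

end Pool.Agent.MP_ca1109_lc.Xl
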