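import Pool.Agent.MP_ca1109_lc.Xl.Defs

namespace Pool.Agent.MP_ca1109_lc.Xl

open Finset Pool.Agent.H66 Pool.Agent.MP_ca1109_lc.Mpg Pool.Agent.MP_ca1109_lc.Agp
open Pool.Agent.MP_ca1109_lc.Dnf (Cube ch one Term)
open Pool.Agent.MP_ca1109_lc.Xp (Sp Bias xo fl Src mv)

variable {n : ℕ} {ι : Type} [DecidableEq ι]

/-! ## SM: sums -/

theorem card_le {r : ℕ} {T : ι → Term n} {M : Finset ι} (h0 : ∀ m ∈ M, (T m).S ≠ ∅)
    (hM : Rd r T M) : M.card ≤ r * n := by
  classical
  have h1 : M ⊆ (univ : Finset (Fin n)).biUnion fun i => M.filter fun m => i ∈ (T m).S := by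
    intro m hm
    obtain ⟨i, hi⟩ := Finset.nonempty_iff_ne_empty.2 (h0 m hm)
    exact Finset.mem_biUnion.2 ⟨i, Finset.mem_univ _, Finset.mem_filter.2 ⟨hm, hi⟩⟩
  refine (Finset.card_le_card h1).trans (Finset.card_biUnion_le.trans ?_)
  refine (Finset.sum_le_card_nsmul _ _ r fun i _ => ?_).trans ?_
  · exact (Finset.card_le_card (by intro m hm; simpa using hm)).trans (hM i)
  rw [Finset.card_univ, Fintype.card_fin, smul_eq_mul, mul_comm]

theorem A2_le {W : ℕ} {T : ι → Term n} {M : Finset ι} (hW : ∀ m ∈ M, (T m).S.card ≤ W) :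
    A2 T M ≤ W * A1 T M := by
  unfold A2 A1
  rw [Finset.mul_sum]
  refine Finset.sum_le_sum fun m hm => ?_
  have h1 : ((T m).S.card : ℝ) ≤ W := by exact_mod_cast hW m hm
  have h2 : (0 : ℝ) ≤ ((T m).S.card : ℝ) * (1 / 2) ^ (T m).S.card := by positivity
  calc ((T m).S.card : ℝ) ^ 2 * (1 / 2) ^ (T m).S.card =
        (T m).S.card * (((T m).S.card : ℝ) * (1 / 2) ^ (T m).S.card) := by ring
    _ ≤ W * (((T m).S.card : ℝ) * (1 / 2) ^ (T m).S.card) := mul_le_mul_of_nonneg_right h1 h2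

theorem sm_half (d : ℕ) : (d : ℝ) * (1 / 2) ^ d ≤ 1 := by
  have h1 : (d : ℝ) ≤ 2 ^ d := by exact_mod_cast Nat.lt_two_pow_self.le
  rw [one_div, inv_pow, ← div_eq_mul_inv]
  exact div_le_one_of_le₀ h1 (by positivity)

theorem A1_nonneg (T : ι → Term n) (M : Finset ι) : 0 ≤ A1 T M := by
  unfold A1
  exact Finset.sum_nonneg fun m _ => by positivity

theorem A1_le_card (T : ι → Term n) (M : Finset ι) : A1 T M ≤ M.card := by
  unfold A1
  calc ∑ m ∈ M, ((T m).S.card : ℝ) * (1 / 2) ^ (T m).S.card ≤ ∑ _m ∈ M, (1 : ℝ) :=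
        Finset.sum_le_sum fun m _ => sm_half _
    _ = M.card := by rw [Finset.sum_const, nsmul_eq_mul, mul_one]

theorem lam_le_A1 {T : ι → Term n} {M : Finset ι} (h0 : ∀ m ∈ M, (T m).S ≠ ∅) :
    lam T M ≤ A1 T M := by
  unfold lam A1
  refine Finset.sum_le_sum fun m hm => ?_
  have h1 : (1 : ℝ) ≤ (T m).S.card := by
    exact_mod_cast Finset.card_pos.2 (Finset.nonempty_iff_ne_empty.2 (h0 m hm))
  have h2 : (0 : ℝ) ≤ (1 / 2 : ℝ) ^ (T m).S.card := by positivity
  nlinarith

/-- One set. -/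
theorem sm_one {m : Finset (Fin n)} {p : ℝ} (hp : 0 ≤ p) (hpm : 2 * p * m.card ≤ 1) :
    ∑ B ∈ m.powerset.filter (fun B => 2 ≤ B.card), p ^ B.card * (1 / 2) ^ (m \ B).card ≤
      4 * p ^ 2 * ((m.card : ℝ) ^ 2 * (1 / 2) ^ m.card) := by
  classical
  have h1 : ∀ B ∈ m.powerset, p ^ B.card * (1 / 2) ^ (m \ B).card =
      (1 / 2 : ℝ) ^ m.card * (2 * p) ^ B.card := by
    intro B hB
    have hB' := Finset.mem_powerset.1 hB
    have h2 : (m \ B).card + B.card = m.card := Finset.card_sdiff_add_card_eq_card hB'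
    rw [← h2, pow_add, mul_pow]
    have h3 : (1 / 2 : ℝ) ^ B.card * 2 ^ B.card = 1 := by
      rw [← mul_pow]
      norm_num
    calc p ^ B.card * (1 / 2) ^ (m \ B).card =
          (1 / 2 : ℝ) ^ (m \ B).card * (((1 / 2 : ℝ) ^ B.card * 2 ^ B.card) * p ^ B.card) := by
          rw [h3]
          ring
      _ = _ := by ring
  rw [Finset.sum_congr rfl fun B hB => h1 B (Finset.mem_filter.1 hB).1, ← Finset.mul_sum]
  -- the complement: the empty set and the singletons
  have h2 := Finset.sum_filter_add_sum_filter_not m.powerset (fun B => 2 ≤ B.card)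
    (fun B => (2 * p) ^ B.card)
  have h3 : ∑ B ∈ m.powerset, (2 * p) ^ B.card = (1 + 2 * p) ^ m.card := by
    have := Finset.prod_one_add (f := fun _ : Fin n => 2 * p) m
    simp only [Finset.prod_const] at this
    exact this.symm
  have h4 : 1 + 2 * p * m.card ≤ ∑ B ∈ m.powerset.filter (fun B => ¬ 2 ≤ B.card), (2 * p) ^ B.card := by
    have hsub : insert ∅ (m.image fun i => ({i} : Finset (Fin n))) ⊆
        m.powerset.filter (fun B => ¬ 2 ≤ B.card) := by
      intro B hB
      rw [Finset.mem_insert, Finset.mem_image] at hB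
      rw [Finset.mem_filter, Finset.mem_powerset]
      rcases hB with hB | ⟨i, hi, hB⟩
      · subst hB
        simp
      · subst hB
        rw [Finset.singleton_subset_iff, Finset.card_singleton]
        exact ⟨hi, by norm_num⟩
    have hne : (∅ : Finset (Fin n)) ∉ m.image fun i => ({i} : Finset (Fin n)) := by
      rw [Finset.mem_image]
      rintro ⟨i, _, hi⟩
      exact Finset.singleton_ne_empty i hi
    calc 1 + 2 * p * m.card = ∑ B ∈ insert ∅ (m.image fun i => ({i} : Finset (Fin n))),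
          (2 * p) ^ B.card := by
          rw [Finset.sum_insert hne, Finset.sum_image fun i _ j _ h => Finset.singleton_injective h]
          simp only [Finset.card_empty, pow_zero, Finset.card_singleton, pow_one, Finset.sum_const,
            nsmul_eq_mul]
          ring
      _ ≤ _ := Finset.sum_le_sum_of_subset_of_nonneg hsub fun B _ _ => by positivity
  have h5 : (1 + 2 * p) ^ m.card ≤ Real.exp (2 * p * m.card) := by
    have h6 : 1 + 2 * p ≤ Real.exp (2 * p) := by
      have := Real.add_one_le_exp (2 * p)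
      linarith
    calc (1 + 2 * p) ^ m.card ≤ Real.exp (2 * p) ^ m.card :=
          pow_le_pow_left₀ (by linarith) h6 _
      _ = Real.exp (2 * p * m.card) := by
          rw [← Real.exp_nat_mul]
          congr 1
          ring
  have h7 : |Real.exp (2 * p * m.card) - 1 - 2 * p * m.card| ≤ (2 * p * m.card) ^ 2 := by
    apply Real.abs_exp_sub_one_sub_id_le
    rw [abs_of_nonneg (by positivity)]
    exact hpm
  have h8 := (abs_le.1 h7).2
  have h9 : ∑ B ∈ m.powerset.filter (fun B => 2 ≤ B.card), (2 * p) ^ B.card ≤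
      (2 * p * m.card) ^ 2 := by linarith
  calc (1 / 2 : ℝ) ^ m.card * ∑ B ∈ m.powerset.filter (fun B => 2 ≤ B.card), (2 * p) ^ B.card ≤
        (1 / 2 : ℝ) ^ m.card * (2 * p * m.card) ^ 2 :=
        mul_le_mul_of_nonneg_left h9 (by positivity)
    _ = _ := by ring

theorem sum_lin {W : ℕ} {T : ι → Term n} {M : Finset ι} (hW : ∀ m ∈ M, (T m).S.card ≤ W) {p : ℝ}
    (hp : 0 ≤ p) (hpW : 2 * p * W ≤ 1) :
    ∑ m ∈ M, ∑ B ∈ (T m).S.powerset.filter (fun B => 2 ≤ B.card),
      p ^ B.card * (1 / 2) ^ ((T m).S \ B).card ≤ 4 * p ^ 2 * A2 T M := by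
  unfold A2
  rw [Finset.mul_sum]
  refine Finset.sum_le_sum fun m hm => sm_one hp ?_
  have h1 : ((T m).S.card : ℝ) ≤ W := by exact_mod_cast hW m hm
  calc 2 * p * (T m).S.card ≤ 2 * p * W := mul_le_mul_of_nonneg_left h1 (by positivity)
    _ ≤ 1 := hpW

theorem sm_pair (m m' : Finset (Fin n)) :
    ((m \ m').card : ℝ) * (m' \ m).card * (1 / 2) ^ (m ∪ m').card ≤
      ((m.card : ℝ) * (1 / 2) ^ m.card) * ((m'.card : ℝ) * (1 / 2) ^ m'.card) +
        ((m.card : ℝ) * (1 / 2) ^ m.card) * one (¬ Disjoint m m') := by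
  by_cases hd : Disjoint m m'
  · rw [Finset.sdiff_eq_self_of_disjoint hd, Finset.sdiff_eq_self_of_disjoint hd.symm,
      Finset.card_union_of_disjoint hd, pow_add]
    have h2 : (one (¬ Disjoint m m') : ℝ) = 0 := by
      unfold Dnf.one
      rw [if_neg (not_not.2 hd)]
    rw [h2]
    apply le_of_eq
    ring
  · have h2 : (one (¬ Disjoint m m') : ℝ) = 1 := by
      unfold Dnf.one
      rw [if_pos hd]
    rw [h2]
    have h3 : (m ∪ m').card = m.card + (m' \ m).card := by
      rw [← Finset.union_sdiff_self_eq_union, Finset.card_union_of_disjoint Finset.disjoint_sdiff]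
    have h4 : ((m \ m').card : ℝ) ≤ m.card := by
      exact_mod_cast Finset.card_le_card Finset.sdiff_subset
    have h5 := sm_half (m' \ m).card
    have h6 : (0 : ℝ) ≤ ((m' \ m).card : ℝ) * (1 / 2) ^ (m' \ m).card := by positivity
    have h7 : (0 : ℝ) ≤ (m.card : ℝ) * (1 / 2) ^ m.card := by positivity
    rw [h3, pow_add]
    calc ((m \ m').card : ℝ) * (m' \ m).card * ((1 / 2) ^ m.card * (1 / 2) ^ (m' \ m).card) =
          (((m \ m').card : ℝ) * (1 / 2) ^ m.card) *
            (((m' \ m).card : ℝ) * (1 / 2) ^ (m' \ m).card) := by ring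
      _ ≤ ((m.card : ℝ) * (1 / 2) ^ m.card) * 1 := by
          apply mul_le_mul _ h5 h6 h7
          exact mul_le_mul_of_nonneg_right h4 (by positivity)
      _ ≤ _ := by
          have h8 : (0 : ℝ) ≤ ((m.card : ℝ) * (1 / 2) ^ m.card) *
            ((m'.card : ℝ) * (1 / 2) ^ m'.card) := by positivity
          linarith

theorem sum_Q {r : ℕ} {T : ι → Term n} {M : Finset ι} (hM : Rd r T M) :
    ∑ m ∈ M, ∑ m' ∈ M.erase m, (((T m).S \ (T m').S).card : ℝ) * ((T m').S \ (T m).S).card *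
      (1 / 2) ^ ((T m).S ∪ (T m').S).card ≤ A1 T M ^ 2 + r * A2 T M := by
  have h2 : ∀ m : Finset (Fin n), ∑ m' ∈ M, (one (¬ Disjoint m (T m').S) : ℝ) ≤ r * m.card := by
    classical
    intro m
    have e1 : ∑ m' ∈ M, (one (¬ Disjoint m (T m').S) : ℝ) =
        ((M.filter fun m' => ¬ Disjoint m (T m').S).card : ℝ) := by
      rw [Finset.card_filter]
      push_cast
      refine Finset.sum_congr rfl fun m' _ => ?_
      unfold Dnf.one
      by_cases h : Disjoint m (T m').S
      · rw [if_neg (not_not.2 h), if_neg (not_not.2 h)]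
      · rw [if_pos h, if_pos h]
    rw [e1]
    have e2 : (M.filter fun m' => ¬ Disjoint m (T m').S) ⊆
        m.biUnion fun i => M.filter fun m' => i ∈ (T m').S := by
      intro m' hm'
      rw [Finset.mem_filter, Finset.not_disjoint_iff] at hm'
      obtain ⟨hm', i, hi, hi'⟩ := hm'
      exact Finset.mem_biUnion.2 ⟨i, hi, Finset.mem_filter.2 ⟨hm', hi'⟩⟩
    have e3 : (M.filter fun m' => ¬ Disjoint m (T m').S).card ≤ r * m.card := by
      refine (Finset.card_le_card e2).trans (Finset.card_biUnion_le.trans ?_)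
      refine (Finset.sum_le_card_nsmul _ _ r fun i _ => ?_).trans ?_
      · exact (Finset.card_le_card (by intro m hm; simpa using hm)).trans (hM i)
      rw [smul_eq_mul, mul_comm]
    exact_mod_cast e3
  have h3 : ∀ m ∈ M, ∑ m' ∈ M.erase m, (((T m).S \ (T m').S).card : ℝ) *
      ((T m').S \ (T m).S).card * (1 / 2) ^ ((T m).S ∪ (T m').S).card ≤
      (((T m).S.card : ℝ) * (1 / 2) ^ (T m).S.card) * A1 T M +
        r * (((T m).S.card : ℝ) ^ 2 * (1 / 2) ^ (T m).S.card) := by
    intro m _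
    calc ∑ m' ∈ M.erase m, (((T m).S \ (T m').S).card : ℝ) * ((T m').S \ (T m).S).card *
          (1 / 2) ^ ((T m).S ∪ (T m').S).card ≤
          ∑ m' ∈ M, (((T m).S \ (T m').S).card : ℝ) * ((T m').S \ (T m).S).card *
          (1 / 2) ^ ((T m).S ∪ (T m').S).card :=
          Finset.sum_le_sum_of_subset_of_nonneg (Finset.erase_subset _ _) fun m' _ _ => by positivity
      _ ≤ ∑ m' ∈ M, ((((T m).S.card : ℝ) * (1 / 2) ^ (T m).S.card) *
            (((T m').S.card : ℝ) * (1 / 2) ^ (T m').S.card) +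
            (((T m).S.card : ℝ) * (1 / 2) ^ (T m).S.card) * one (¬ Disjoint (T m).S (T m').S)) :=
          Finset.sum_le_sum fun m' _ => sm_pair (T m).S (T m').S
      _ = (((T m).S.card : ℝ) * (1 / 2) ^ (T m).S.card) * A1 T M +
            (((T m).S.card : ℝ) * (1 / 2) ^ (T m).S.card) *
              ∑ m' ∈ M, (one (¬ Disjoint (T m).S (T m').S) : ℝ) := by
          rw [Finset.sum_add_distrib, ← Finset.mul_sum, ← Finset.mul_sum]
          rfl
      _ ≤ (((T m).S.card : ℝ) * (1 / 2) ^ (T m).S.card) * A1 T M +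
            (((T m).S.card : ℝ) * (1 / 2) ^ (T m).S.card) * (r * (T m).S.card) := by
          have := mul_le_mul_of_nonneg_left (h2 (T m).S)
            (by positivity : (0 : ℝ) ≤ ((T m).S.card : ℝ) * (1 / 2) ^ (T m).S.card)
          linarith
      _ = _ := by ring
  calc ∑ m ∈ M, ∑ m' ∈ M.erase m, (((T m).S \ (T m').S).card : ℝ) * ((T m').S \ (T m).S).card *
        (1 / 2) ^ ((T m).S ∪ (T m').S).card ≤
        ∑ m ∈ M, ((((T m).S.card : ℝ) * (1 / 2) ^ (T m).S.card) * A1 T M +
          r * (((T m).S.card : ℝ) ^ 2 * (1 / 2) ^ (T m).S.card)) := Finset.sum_le_sum h3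
    _ = A1 T M ^ 2 + r * A2 T M := by
        rw [Finset.sum_add_distrib, ← Finset.sum_mul, ← Finset.mul_sum]
        unfold A1 A2
        ring

end Pool.Agent.MP_ca1109_lc.Xl
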