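import Pool.Agent.MP_ca1109_lc.Xl.AC

/-!
# The variance of the number of active variables (Fourier)
-/

namespace Pool.Agent.MP_ca1109_lc.Xl

open Finset Pool.Agent.H66 Pool.Agent.MP_ca1109_lc.Mpg Pool.Agent.MP_ca1109_lc.Agp
open Pool.Agent.MP_ca1109_lc.Dnf (Cube ch one Term)
open Pool.Agent.MP_ca1109_lc.Xp (Sp Bias xo fl Src mv)

variable {n : ℕ} {ι : Type} [DecidableEq ι]

/-- The coefficients at the sets through a variable on which the function does not depend. -/
private theorem vr_fc_zero {f : Cube n → ℝ} {l : Fin n} {S : Finset (Fin n)} (hl : l ∈ S)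
    (hf : ∀ x y : Cube n, (∀ j, j ≠ l → x j = y j) → f x = f y) : Dnf.fc f S = 0 := by
  classical
  have hi : Function.Involutive fun x : Cube n => Function.update x l (!x l) := by
    intro x
    dsimp only
    rw [Function.update_idem, Function.update_self, Bool.not_not, Function.update_eq_self]
  have hch : ∀ x : Cube n, ch S (Function.update x l (!x l)) = -ch S x := by
    intro x
    unfold ch
    rw [← Finset.mul_prod_erase S _ hl, ← Finset.mul_prod_erase S (fun i => Dnf.sg (x i)) hl]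
    have h1 : ∏ i ∈ S.erase l, Dnf.sg (Function.update x l (!x l) i) =
        ∏ i ∈ S.erase l, Dnf.sg (x i) := by
      refine Finset.prod_congr rfl fun i hi => ?_
      rw [Function.update_of_ne (Finset.ne_of_mem_erase hi)]
    rw [h1, Function.update_self]
    cases x l <;> simp [Dnf.sg]
  have h1 : ∑ x : Cube n, f (Function.update x l (!x l)) * ch S (Function.update x l (!x l)) =
      ∑ x : Cube n, f x * ch S x := Equiv.sum_comp (hi.toPerm _) fun x => f x * ch S x
  have h2 : ∀ x : Cube n, f (Function.update x l (!x l)) * ch S (Function.update x l (!x l)) =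
      -(f x * ch S x) := by
    intro x
    rw [hch, hf (Function.update x l (!x l)) x fun j hj => Function.update_of_ne hj _ _]
    ring
  rw [Finset.sum_congr rfl fun x _ => h2 x, Finset.sum_neg_distrib] at h1
  have h3 : ∑ x : Cube n, f x * ch S x = 0 := by linarith
  unfold Dnf.fc Dnf.E
  rw [h3, zero_div]

/-! ## VR: the variance (Lemma 3 of XPM) -/

theorem S0_var {r W : ℕ} {T : ι → Term n} {M : Finset ι} {ζ : ι → ℂ} (hζ : ∀ m ∈ M, ζ m ≠ 0)
    (hM : Fam r W T M) :
    avg (fun z => (S0 T ζ M z - avg (S0 T ζ M)) ^ 2) ≤ r * W * avg (S0 T ζ M) := by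
  classical
  have hac : ∀ (i : Fin n) (x : Cube n), ac T ζ M i x ^ 2 = ac T ζ M i x := by
    intro i x
    unfold ac
    by_cases h : Ac T ζ M i x
    · rw [Dnf.one_true h, one_pow]
    · rw [Dnf.one_false h]
      norm_num
  rw [Xp.spb_avg_E, Xp.spb_avg_E]
  set μ := Dnf.E (S0 T ζ M) with hμ
  have hfc : ∀ S : Finset (Fin n), Dnf.fc (S0 T ζ M) S = ∑ i, Dnf.fc (ac T ζ M i) S := by
    intro S
    have : S0 T ζ M = fun z => ∑ i ∈ univ, ac T ζ M i z := rfl
    rw [this, Dnf.fc_sum]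
  have hconst : ∀ S : Finset (Fin n), S ≠ ∅ → Dnf.fc (fun _ : Cube n => μ) S = 0 := by
    intro S hS
    have h1 := Dnf.fc_smul μ (fun x : Cube n => ch (∅ : Finset (Fin n)) x) S
    rw [Dnf.fc_ch, if_neg (Ne.symm hS), mul_zero] at h1
    simpa [Dnf.ch_empty] using h1
  have h0 : Dnf.fc (fun z => S0 T ζ M z - μ) ∅ = 0 := by
    rw [Dnf.fc_empty, Dnf.E_sub, Dnf.E_const, hμ, sub_self]
  have hS : ∀ S : Finset (Fin n), S ≠ ∅ →
      Dnf.fc (fun z => S0 T ζ M z - μ) S ^ 2 ≤ r * W * ∑ i, Dnf.fc (ac T ζ M i) S ^ 2 := by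
    intro S hS
    rw [Dnf.fc_sub, hconst S hS, sub_zero, hfc]
    obtain ⟨l, hl⟩ := Finset.nonempty_iff_ne_empty.2 hS
    set A : Finset (Fin n) := (M.filter fun m => l ∈ (T m).S).biUnion fun m => (T m).S with hA
    have hAc : (A.card : ℝ) ≤ r * W := by
      have h1 : A.card ≤ r * W := by
        calc A.card ≤ ∑ m ∈ M.filter fun m => l ∈ (T m).S, (T m).S.card := Finset.card_biUnion_le
          _ ≤ ∑ m ∈ M.filter fun m => l ∈ (T m).S, W :=
              Finset.sum_le_sum fun m hm => hM.wd m (Finset.mem_filter.1 hm).1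
          _ = (M.filter fun m => l ∈ (T m).S).card * W := by rw [Finset.sum_const, smul_eq_mul]
          _ ≤ r * W := Nat.mul_le_mul_right _ (hM.rd l)
      exact_mod_cast h1
    have hz : ∀ i, i ∉ A → Dnf.fc (ac T ζ M i) S = 0 := by
      intro i hi
      refine vr_fc_zero hl fun x y hxy => ac_dep hζ i x y fun m hm him j hj _ => hxy j ?_
      rintro rfl
      exact hi (Finset.mem_biUnion.2 ⟨m, Finset.mem_filter.2 ⟨hm, hj⟩, him⟩)
    have h1 : ∑ i, Dnf.fc (ac T ζ M i) S = ∑ i ∈ A, Dnf.fc (ac T ζ M i) S :=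
      (Finset.sum_subset (Finset.subset_univ A) fun i _ hi => hz i hi).symm
    rw [h1]
    refine (sq_sum_le_card_mul_sum_sq).trans ?_
    have h2 : ∑ i ∈ A, Dnf.fc (ac T ζ M i) S ^ 2 ≤ ∑ i, Dnf.fc (ac T ζ M i) S ^ 2 :=
      Finset.sum_le_sum_of_subset_of_nonneg (Finset.subset_univ A) fun i _ _ => sq_nonneg _
    exact mul_le_mul hAc h2 (Finset.sum_nonneg fun i _ => sq_nonneg _) (by positivity)
  rw [Dnf.parseval, ← Finset.add_sum_erase univ _ (Finset.mem_univ ∅), h0]
  calc (0 : ℝ) ^ 2 + ∑ S ∈ univ.erase (∅ : Finset (Fin n)), Dnf.fc (fun z => S0 T ζ M z - μ) S ^ 2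
      ≤ ∑ S ∈ univ.erase (∅ : Finset (Fin n)), r * W * ∑ i, Dnf.fc (ac T ζ M i) S ^ 2 := by
        rw [zero_pow two_ne_zero, zero_add]
        exact Finset.sum_le_sum fun S hS' => hS S (Finset.ne_of_mem_erase hS')
    _ ≤ ∑ S : Finset (Fin n), r * W * ∑ i, Dnf.fc (ac T ζ M i) S ^ 2 :=
        Finset.sum_le_sum_of_subset_of_nonneg (Finset.erase_subset _ _) fun S _ _ =>
          mul_nonneg (by positivity) (Finset.sum_nonneg fun i _ => sq_nonneg _)
    _ = r * W * ∑ i, ∑ S : Finset (Fin n), Dnf.fc (ac T ζ M i) S ^ 2 := by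
        rw [← Finset.mul_sum, Finset.sum_comm]
    _ = r * W * ∑ i, Dnf.E (ac T ζ M i) := by
        congr 1
        refine Finset.sum_congr rfl fun i _ => ?_
        rw [← Dnf.parseval]
        congr 1
        funext x
        exact hac i x
    _ = r * W * μ := by
        rw [hμ]
        congr 1
        have : S0 T ζ M = fun z => ∑ i ∈ univ, ac T ζ M i z := rfl
        rw [this, Dnf.E_sum]

end Pool.Agent.MP_ca1109_lc.Xl
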