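import Pool.Agent.MP_ca1109_lc.Xl.PW
import Pool.Agent.MP_ca1109_lc.Xl.CH
import Pool.Agent.MP_ca1109_lc.Xl.EV1
import Pool.Agent.MP_ca1109_lc.Xl.EV2
import Pool.Agent.MP_ca1109_lc.Xl.VR
import Pool.Agent.MP_ca1109_lc.Xl.AL

namespace Pool.Agent.MP_ca1109_lc.Xl

open Finset Pool.Agent.H66 Pool.Agent.MP_ca1109_lc.Mpg Pool.Agent.MP_ca1109_lc.Agp
open Pool.Agent.MP_ca1109_lc.Dnf (Cube ch one Term)
open Pool.Agent.MP_ca1109_lc.Xp (Sp Bias xo fl Src mv)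

variable {n : ℕ} {ι : Type} [DecidableEq ι]

/-! ## CO: case II (assembly of PW, CH, EV, AL, VR, SM) -/

theorem co_norm {Ω : Type*} [Fintype Ω] (f : Ω → ℂ) : ‖av f‖ ≤ avg fun ω => ‖f ω‖ := by
  unfold av avg
  rw [norm_div, Complex.norm_natCast]
  exact div_le_div_of_nonneg_right (norm_sum_le _ _) (Nat.cast_nonneg _)

theorem co_pr_norm (T : ι → Term n) (ζ : ι → ℂ) (M : Finset ι)
    (hζ : ∀ m ∈ M, ‖ζ m‖ = 1) (x : Cube n) : ‖pr T ζ M x‖ = 1 := by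
  unfold pr
  rw [norm_prod]
  refine Finset.prod_eq_one fun m hm => ?_
  split_ifs
  · exact hζ m hm
  · simp

theorem co_point {B q : ℕ} (hq : 0 < q) (T : ι → Term n) (M : Finset ι) (η : Finset (Fin n))
    (h : Fin n → Fin B) (z : Cube n) (ζ : ι → ℂ) {ρ : ℝ} (hζ : ∀ m ∈ M, ζ m ^ q = 1)
    (hρ0 : 0 ≤ ρ) (hρ1 : ρ ≤ 1) (hρ : ∀ ξ : ℂ, ξ ^ q = 1 → ξ ≠ 1 → ‖(1 + ξ) / 2‖ ≤ ρ) (K : ℕ) :
    ‖av fun u : Fin B → Bool => pr T ζ M (mv z η h u)‖ ≤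
      one (¬ Lin T M η z) + one (Lin T M η z ∧ ¬ Inj T M η h z) + one (nac T ζ M η z < K) +
        ρ ^ K := by
  have h0 : ‖av fun u : Fin B → Bool => pr T ζ M (mv z η h u)‖ ≤ 1 := by
    refine (co_norm _).trans ?_
    have : (fun u : Fin B → Bool => ‖pr T ζ M (mv z η h u)‖) = fun _ => (1 : ℝ) := by
      funext u
      exact co_pr_norm T ζ M (fun m hm => Complex.norm_eq_one_of_pow_eq_one (hζ m hm) hq.ne') _
    rw [this, avg_const]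
  have hρK : 0 ≤ ρ ^ K := pow_nonneg hρ0 K
  have n1 := Dnf.one_nonneg (¬ Lin T M η z)
  have n2 := Dnf.one_nonneg (Lin T M η z ∧ ¬ Inj T M η h z)
  have n3 := Dnf.one_nonneg (nac T ζ M η z < K)
  by_cases hL : Lin T M η z
  · by_cases hI : Inj T M η h z
    · by_cases hK : nac T ζ M η z < K
      · rw [Dnf.one_true hK] at n3 ⊢
        linarith
      · have h1 := pointwise hq T M η h z ζ hζ hρ0 hρ1 hρ hL hI
        have h2 : ρ ^ nac T ζ M η z ≤ ρ ^ K := pow_le_pow_of_le_one hρ0 hρ1 (not_lt.1 hK)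
        linarith
    · rw [Dnf.one_true (p := Lin T M η z ∧ ¬ Inj T M η h z) ⟨hL, hI⟩]
      linarith
  · rw [Dnf.one_true (p := ¬ Lin T M η z) hL]
    linarith

theorem core (q r : ℕ) (hq : 0 < q) {ρ ε : ℝ} (hρ0 : 0 ≤ ρ) (hρ1 : ρ < 1)
    (hρ : ∀ ξ : ℂ, ξ ^ q = 1 → ξ ≠ 1 → ‖(1 + ξ) / 2‖ ≤ ρ) (hε : 0 < ε) :
    ∃ t s C : ℕ, 1 ≤ t ∧ ∀ (n W : ℕ) {ι : Type} [DecidableEq ι] (T : ι → Term n) (M : Finset ι)
      (ζ : ι → ℂ), Fam r W T M → 1 ≤ W → (∀ m ∈ M, ζ m ^ q = 1) → Red T ζ M →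
      ∀ p δ : ℝ, 0 < p → p ≤ 1 → t ≤ p * A1 T M → p * A1 T M ≤ 2 * t → C * p * W ≤ 1 → 0 ≤ δ →
      C * δ * ((n : ℝ) + 1) ^ 2 * 4 ^ W ≤ 1 →
      ∀ {Ω₁ Ω₂ : Type} [Fintype Ω₁] [Nonempty Ω₁] [Fintype Ω₂] [Nonempty Ω₂]
        (Z : Ω₂ → Ω₁ → Cube n) (η : Ω₂ → Finset (Fin n)) (h : Ω₂ → Fin n → Fin (2 ^ s)),
        (∀ ω₂, Bias δ (Z ω₂)) → Src p δ η h →
        (avg fun ω₂ => avg fun ω₁ =>
          ‖av fun u : Fin (2 ^ s) → Bool => pr T ζ M (mv (Z ω₂ ω₁) (η ω₂) (h ω₂) u)‖) ≤ ε := by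
  obtain ⟨K, hK⟩ := exists_pow_lt_of_lt_one (show (0 : ℝ) < ε / 5 by positivity) hρ1
  obtain ⟨C₁, hcheb⟩ := cheb r
  obtain ⟨D₁, hD₁, hlow⟩ := ac_lower q r hq
  set D : ℝ := (D₁ : ℝ) with hD
  have hD1 : (1 : ℝ) ≤ D := by
    rw [hD]
    exact_mod_cast hD₁
  have hD0 : 0 ≤ D := by linarith
  obtain ⟨t, ht⟩ := exists_nat_ge (1 + 2 * K * D + 20 * D / ε)
  have hKD : 0 ≤ 2 * (K : ℝ) * D := by positivity
  have hDε : 0 ≤ 20 * D / ε := by positivity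
  have ht1 : (1 : ℝ) ≤ t := by linarith
  have ht2 : 2 * (K : ℝ) * D ≤ t := by linarith
  have ht3 : 4 * D / t ≤ ε / 5 := by
    rw [div_le_iff₀ (by linarith)]
    have h1 : 20 * D / ε ≤ t := by linarith
    rw [div_le_iff₀ hε] at h1
    linarith
  obtain ⟨s, hs⟩ := pow_unbounded_of_one_lt ((16 * (t : ℝ) ^ 2 + 8 * r * t) * 5 / ε)
    (show (1 : ℝ) < 2 by norm_num)
  have hs' : (16 * (t : ℝ) ^ 2 + 8 * r * t) / 2 ^ s ≤ ε / 5 := by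
    rw [div_le_iff₀ (by positivity)]
    rw [div_lt_iff₀ hε] at hs
    linarith
  obtain ⟨C, hC⟩ := exists_nat_ge (2 + (5 / ε) * (8 * t + 3 * r + 3 * (r : ℝ) ^ 2 +
    4 * r * D + 4 * C₁ * D ^ 2))
  have hX0 : 0 ≤ 8 * (t : ℝ) + 3 * r + 3 * (r : ℝ) ^ 2 + 4 * r * D +
    4 * C₁ * D ^ 2 := by positivity
  have hC2 : (2 : ℝ) ≤ C := by
    have : 0 ≤ (5 / ε) * (8 * (t : ℝ) + 3 * r + 3 * (r : ℝ) ^ 2 +
      4 * r * D + 4 * C₁ * D ^ 2) := by positivity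
    linarith
  have hCX : (8 * (t : ℝ) + 3 * r + 3 * (r : ℝ) ^ 2 + 4 * r * D +
      4 * C₁ * D ^ 2) / C ≤ ε / 5 := by
    rw [div_le_iff₀ (by linarith)]
    have h1 : (5 / ε) * (8 * (t : ℝ) + 3 * r + 3 * (r : ℝ) ^ 2 + 4 * r * D +
      4 * C₁ * D ^ 2) ≤ C := by linarith
    rw [div_mul_eq_mul_div, div_le_iff₀ hε] at h1
    linarith
  refine ⟨t, s, C, by exact_mod_cast ht1, ?_⟩
  intro n W ι _ T M ζ hM hW hζ hRed p δ hp hp1 hta hta' hCp hδ hCδ Ω₁ Ω₂ _ _ _ _ Z η h hZ hS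
  -- abbreviations
  set a : ℝ := p * A1 T M with ha
  set S : ℝ := avg (S0 T ζ M) with hSd
  have hζ0 : ∀ m ∈ M, ζ m ≠ 0 := fun m hm h0 => by
    have := hζ m hm
    rw [h0, zero_pow hq.ne'] at this
    exact zero_ne_one this
  have hC0 : (0 : ℝ) < C := by linarith
  have hWr : (1 : ℝ) ≤ W := by exact_mod_cast hW
  have hDpos : 0 < D := by linarith
  -- `p W ≤ 1 / C`
  have hpW : p * W ≤ 1 / C := by
    rw [le_div_iff₀ hC0]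
    linarith
  have hpW2 : 2 * p * W ≤ 1 := by
    have : 1 / (C : ℝ) ≤ 1 / 2 := one_div_le_one_div_of_le (by norm_num) hC2
    linarith
  -- the `δ` terms
  have hn1 : (1 : ℝ) ≤ ((n : ℝ) + 1) ^ 2 := by
    exact one_le_pow₀ (le_add_of_nonneg_left (Nat.cast_nonneg n))
  have h4W : (1 : ℝ) ≤ 4 ^ W := one_le_pow₀ (by norm_num)
  have hδC : δ * ((n : ℝ) + 1) ^ 2 * 4 ^ W ≤ 1 / C := by
    rw [le_div_iff₀ hC0]
    linarith
  have hδn : δ * ((n : ℝ) + 1) ^ 2 ≤ 1 / C := by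
    refine le_trans ?_ hδC
    have : 0 ≤ δ * ((n : ℝ) + 1) ^ 2 := by positivity
    exact le_mul_of_one_le_right this h4W
  have hδ1 : δ ≤ 1 := by
    have h1 : 1 / (C : ℝ) ≤ 1 := by
      rw [div_le_one hC0]
      linarith
    have h2 : δ ≤ δ * ((n : ℝ) + 1) ^ 2 := le_mul_of_one_le_right hδ hn1
    linarith
  have hMc : (M.card : ℝ) ≤ r * n := by exact_mod_cast card_le hM.ne hM.rd
  have hn0 : (0 : ℝ) ≤ n := Nat.cast_nonneg n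
  have hr0 : (0 : ℝ) ≤ r := Nat.cast_nonneg r
  have h2W : (2 : ℝ) ^ W ≤ 4 ^ W := pow_le_pow_left₀ (by norm_num) (by norm_num) W
  have hW2 : (W : ℝ) ^ 2 ≤ 4 ^ W := by
    have h1 : (W : ℝ) ≤ 2 ^ W := by exact_mod_cast (Nat.lt_two_pow_self (n := W)).le
    calc (W : ℝ) ^ 2 ≤ (2 ^ W) ^ 2 := pow_le_pow_left₀ (by positivity) h1 2
      _ = 4 ^ W := by
        rw [← pow_mul, mul_comm, pow_mul]
        norm_num
  have hcard1 : (M.card : ℝ) ≤ r * ((n : ℝ) + 1) ^ 2 := by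
    refine hMc.trans (mul_le_mul_of_nonneg_left ?_ hr0)
    linarith only [hn0, mul_nonneg hn0 hn0]
  have hcard2 : (M.card : ℝ) ^ 2 ≤ (r : ℝ) ^ 2 * ((n : ℝ) + 1) ^ 2 := by
    have h1 : (M.card : ℝ) ^ 2 ≤ (r * n) ^ 2 := pow_le_pow_left₀ (Nat.cast_nonneg _) hMc 2
    rw [mul_pow] at h1
    refine h1.trans (mul_le_mul_of_nonneg_left ?_ (by positivity))
    linarith only [hn0]
  -- `A2`
  have hA2 : A2 T M ≤ W * A1 T M := A2_le hM.wd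
  have hA2' : p ^ 2 * A2 T M ≤ 2 * t / C := by
    calc p ^ 2 * A2 T M ≤ p ^ 2 * (W * A1 T M) := mul_le_mul_of_nonneg_left hA2 (by positivity)
      _ = (p * W) * a := by rw [ha]; ring
      _ ≤ (1 / C) * (2 * t) := mul_le_mul hpW hta' (by linarith) (by positivity)
      _ = 2 * t / C := by ring
  have hA20 : 0 ≤ A2 T M := Finset.sum_nonneg fun m _ => by positivity
  -- event 1
  have e1 : (avg fun ω₂ => avg fun ω₁ => one (¬ Lin T M (η ω₂) (Z ω₂ ω₁))) ≤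
      (8 * t + 3 * r) / C := by
    refine (ev_lin hM hp.le hp1 hpW2 hδ hδ1 Z η h hZ hS).trans ?_
    have h1 : 3 * δ * M.card * 2 ^ W ≤ 3 * r * (1 / C) := by
      calc 3 * δ * M.card * 2 ^ W ≤ 3 * δ * (r * ((n : ℝ) + 1) ^ 2) * 4 ^ W := by gcongr
        _ = 3 * r * (δ * ((n : ℝ) + 1) ^ 2 * 4 ^ W) := by ring
        _ ≤ 3 * r * (1 / C) := mul_le_mul_of_nonneg_left hδC (by positivity)
    have h2 : 4 * p ^ 2 * A2 T M ≤ 4 * (2 * t / C) := by linarith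
    calc 4 * p ^ 2 * A2 T M + 3 * δ * M.card * 2 ^ W ≤ 4 * (2 * t / C) + 3 * r * (1 / C) := by
          linarith
      _ = (8 * t + 3 * r) / C := by ring
  -- event 2
  have e2 : (avg fun ω₂ => avg fun ω₁ => one (Lin T M (η ω₂) (Z ω₂ ω₁) ∧
        ¬ Inj T M (η ω₂) (h ω₂) (Z ω₂ ω₁))) ≤
      (16 * (t : ℝ) ^ 2 + 8 * r * t) / 2 ^ s + 3 * (r : ℝ) ^ 2 / C := by
    refine (ev_inj hM hp.le hp1 hδ hδ1 (Nat.one_le_two_pow) Z η h hZ hS).trans ?_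
    have h1 : 3 * δ * (M.card : ℝ) ^ 2 * (W : ℝ) ^ 2 ≤ 3 * (r : ℝ) ^ 2 / C := by
      calc 3 * δ * (M.card : ℝ) ^ 2 * (W : ℝ) ^ 2 ≤
            3 * δ * ((r : ℝ) ^ 2 * ((n : ℝ) + 1) ^ 2) * 4 ^ W := by gcongr
        _ = 3 * (r : ℝ) ^ 2 * (δ * ((n : ℝ) + 1) ^ 2 * 4 ^ W) := by ring
        _ ≤ 3 * (r : ℝ) ^ 2 * (1 / C) := mul_le_mul_of_nonneg_left hδC (by positivity)
        _ = 3 * (r : ℝ) ^ 2 / C := by ring
    have h2 : 2 * (t : ℝ) / C ≤ 2 * t := div_le_self (by positivity) (by linarith)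
    have h3 : p ^ 2 * A1 T M ^ 2 + r * (p ^ 2 * A2 T M) ≤ 4 * (t : ℝ) ^ 2 + 2 * r * t := by
      have h4 : p ^ 2 * A1 T M ^ 2 ≤ 4 * (t : ℝ) ^ 2 := by
        have : p ^ 2 * A1 T M ^ 2 = a ^ 2 := by rw [ha]; ring
        rw [this]
        exact (pow_le_pow_left₀ (by linarith only [hta, ht1]) hta' 2).trans (le_of_eq (by ring))
      have h5 : (r : ℝ) * (p ^ 2 * A2 T M) ≤ r * (2 * t) :=
        mul_le_mul_of_nonneg_left (hA2'.trans h2) hr0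
      linarith
    have h6 : 4 * p ^ 2 / ((2 ^ s : ℕ) : ℝ) * (A1 T M ^ 2 + r * A2 T M) ≤
        (16 * (t : ℝ) ^ 2 + 8 * r * t) / 2 ^ s := by
      push_cast
      rw [div_mul_eq_mul_div]
      refine div_le_div_of_nonneg_right ?_ (by positivity)
      linarith
    linarith
  -- event 3
  have hSD : A1 T M ≤ D * S := hlow n T M ζ hM.rd hζ hRed
  have hpS : (t : ℝ) / D ≤ p * S := by
    rw [div_le_iff₀ hDpos]
    calc (t : ℝ) ≤ p * A1 T M := hta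
      _ ≤ p * (D * S) := mul_le_mul_of_nonneg_left hSD hp.le
      _ = p * S * D := by ring
  have hpS0 : 0 < p * S := lt_of_lt_of_le (by positivity) hpS
  have e3 : (avg fun ω₂ => avg fun ω₁ => one (nac T ζ M (η ω₂) (Z ω₂ ω₁) < K)) ≤
      4 * r * D / C + 4 * D / t + 4 * C₁ * D ^ 2 / C := by
    have h2K : 2 * (K : ℝ) ≤ p * avg (S0 T ζ M) := by
      refine le_trans ?_ hpS
      rw [le_div_iff₀ hDpos]
      exact ht2
    have h1 := hcheb n T M ζ hM.rd hζ0 p δ hp.le hp1 hδ Z η h hZ hS K h2K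
    rw [← hSd] at h1
    have hV : avg (fun z => (S0 T ζ M z - S) ^ 2) ≤ r * W * S := S0_var hζ0 hM
    rw [← le_div_iff₀ (by positivity)] at h1
    refine h1.trans ?_
    have hinv : 1 / (p * S) ≤ D / t := by
      rw [div_le_div_iff₀ hpS0 (by linarith)]
      rw [div_le_iff₀ hDpos] at hpS
      linarith
    have hinv0 : 0 ≤ 1 / (p * S) := by positivity
    have hinvD : 1 / (p * S) ≤ D := hinv.trans (div_le_self hD0 ht1)
    have hinv2 : (1 / (p * S)) ^ 2 ≤ D ^ 2 := pow_le_pow_left₀ hinv0 hinvD 2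
    have g1 : 4 * (p ^ 2 * avg (fun z => (S0 T ζ M z - S) ^ 2)) * (1 / (p * S)) ^ 2 ≤
        4 * r * D / C := by
      have h3 : p ^ 2 * avg (fun z => (S0 T ζ M z - S) ^ 2) ≤ r * (1 / C) * (p * S) := by
        calc p ^ 2 * avg (fun z => (S0 T ζ M z - S) ^ 2) ≤ p ^ 2 * (r * W * S) :=
              mul_le_mul_of_nonneg_left hV (by positivity)
          _ = r * (p * W) * (p * S) := by ring
          _ ≤ r * (1 / C) * (p * S) := by gcongr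
      calc 4 * (p ^ 2 * avg (fun z => (S0 T ζ M z - S) ^ 2)) * (1 / (p * S)) ^ 2 ≤
            4 * (r * (1 / C) * (p * S)) * (1 / (p * S)) ^ 2 := by gcongr
        _ = 4 * r * (1 / C) * (1 / (p * S)) := by field_simp
        _ ≤ 4 * r * (1 / C) * D := mul_le_mul_of_nonneg_left hinvD (by positivity)
        _ = _ := by ring
    have g2 : 4 * (p * S) * (1 / (p * S)) ^ 2 ≤ 4 * D / t := by
      calc 4 * (p * S) * (1 / (p * S)) ^ 2 = 4 * (1 / (p * S)) := by field_simp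
        _ ≤ 4 * (D / t) := by linarith
        _ = 4 * D / t := by ring
    have g3 : 4 * (C₁ * δ * ((n : ℝ) + 1) ^ 2) * (1 / (p * S)) ^ 2 ≤ 4 * C₁ * D ^ 2 / C := by
      calc 4 * (C₁ * δ * ((n : ℝ) + 1) ^ 2) * (1 / (p * S)) ^ 2 =
            4 * C₁ * (δ * ((n : ℝ) + 1) ^ 2) * (1 / (p * S)) ^ 2 := by ring
        _ ≤ 4 * C₁ * (1 / C) * D ^ 2 := by gcongr
        _ = _ := by ring
    calc 4 * (p ^ 2 * avg (fun z => (S0 T ζ M z - S) ^ 2) + p * S + C₁ * δ * ((n : ℝ) + 1) ^ 2) /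
          (p * S) ^ 2 = 4 * (p ^ 2 * avg (fun z => (S0 T ζ M z - S) ^ 2)) * (1 / (p * S)) ^ 2 +
            4 * (p * S) * (1 / (p * S)) ^ 2 +
            4 * (C₁ * δ * ((n : ℝ) + 1) ^ 2) * (1 / (p * S)) ^ 2 := by
          rw [div_eq_mul_one_div, one_div_pow]
          ring
      _ ≤ _ := by linarith
  -- sum
  have hsum : (avg fun ω₂ => avg fun ω₁ =>
      ‖av fun u : Fin (2 ^ s) → Bool => pr T ζ M (mv (Z ω₂ ω₁) (η ω₂) (h ω₂) u)‖) ≤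
      (avg fun ω₂ => avg fun ω₁ => one (¬ Lin T M (η ω₂) (Z ω₂ ω₁))) +
      (avg fun ω₂ => avg fun ω₁ => one (Lin T M (η ω₂) (Z ω₂ ω₁) ∧
        ¬ Inj T M (η ω₂) (h ω₂) (Z ω₂ ω₁))) +
      (avg fun ω₂ => avg fun ω₁ => one (nac T ζ M (η ω₂) (Z ω₂ ω₁) < K)) + ρ ^ K := by
    have h1 : ∀ ω₂, (avg fun ω₁ =>
        ‖av fun u : Fin (2 ^ s) → Bool => pr T ζ M (mv (Z ω₂ ω₁) (η ω₂) (h ω₂) u)‖) ≤
        (avg fun ω₁ => one (¬ Lin T M (η ω₂) (Z ω₂ ω₁))) +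
        (avg fun ω₁ => one (Lin T M (η ω₂) (Z ω₂ ω₁) ∧
          ¬ Inj T M (η ω₂) (h ω₂) (Z ω₂ ω₁))) +
        (avg fun ω₁ => one (nac T ζ M (η ω₂) (Z ω₂ ω₁) < K)) + ρ ^ K := by
      intro ω₂
      refine (avg_mono fun ω₁ => co_point hq T M (η ω₂) (h ω₂) (Z ω₂ ω₁) ζ hζ hρ0 hρ1.le hρ
        K).trans ?_
      rw [avg_add, avg_add, avg_add, avg_const]
    refine (avg_mono h1).trans ?_
    rw [avg_add, avg_add, avg_add, avg_const]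
  have hfin : (8 * (t : ℝ) + 3 * r) / C + ((16 * (t : ℝ) ^ 2 + 8 * r * t) / 2 ^ s +
      3 * (r : ℝ) ^ 2 / C) + (4 * r * D / C + 4 * D / t +
        4 * C₁ * D ^ 2 / C) ≤ ε / 5 + ε / 5 + ε / 5 := by
    have : (8 * (t : ℝ) + 3 * r) / C + 3 * (r : ℝ) ^ 2 / C + 4 * r * D / C +
        4 * C₁ * D ^ 2 / C = (8 * (t : ℝ) + 3 * r + 3 * (r : ℝ) ^ 2 +
          4 * r * D + 4 * C₁ * D ^ 2) / C := by ring
    linarith
  linarith

end Pool.Agent.MP_ca1109_lc.Xl
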