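import Pool.Agent.MP_ca1109_lc.Xl.MA
import Pool.Agent.MP_ca1109_lc.Agp.G3
import Pool.Agent.MP_ca1109_lc.Agp.N1

/-!
# Functions of sums of terms with bounded read: the theorem
-/

namespace Pool.Agent.MP_ca1109_lc.Xl

open Finset Pool.Agent.H66 Pool.Agent.MP_ca1109_lc.Mpg Pool.Agent.MP_ca1109_lc.Agp
open Pool.Agent.MP_ca1109_lc.Dnf (Cube ch one Term)
open Pool.Agent.MP_ca1109_lc.Xp (Sp Bias xo fl Src mv)

variable {n : ℕ}

/-! ## FI: the theorem -/

open Classical in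
/-- `f` is an expansion in characters, of norm at most `B`, of a sum `∑ c m [T m x]` with values in a
finite abelian group with `q g = 0`; at most `n ^ b` terms, and every variable occurs in at most `r`
terms of width at most `wb b n`. -/
def SpecTest (q r b : ℕ) (B : ℝ) (n : ℕ) (f : (Fin n → Bool) → Bool) : Prop :=
  ∃ (G : Type) (_ : AddCommGroup G) (_ : Fintype G) (N : ℕ) (T : Fin N → Term n) (c : Fin N → G)
    (a : AddChar G ℂ → ℂ), (∀ g : G, q • g = 0) ∧ N ≤ n ^ b ∧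
    (∀ i, (univ.filter fun m => i ∈ (T m).S ∧ (T m).S.card ≤ wb b n).card ≤ r) ∧
    ∑ χ, ‖a χ‖ ≤ B ∧
    ∀ x, ((ind (f x) : ℝ) : ℂ) = ∑ χ, a χ * χ (∑ m, if (T m).Sat x then c m else 0)

private theorem fl_av {A : Type*} [Fintype A] (g : A → Bool) :
    ((prob g : ℝ) : ℂ) = av (fun a => ((ind (g a) : ℝ) : ℂ)) := by
  rw [prob_eq_avg]
  unfold avg av
  push_cast
  rfl

private theorem fl_av_sum {A C : Type*} [Fintype A] (s : Finset C) (b : C → ℂ) (f : C → A → ℂ) :
    av (fun a => ∑ c ∈ s, b c * f c a) = ∑ c ∈ s, b c * av (f c) := by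
  unfold av
  rw [Finset.sum_comm, Finset.sum_div]
  refine Finset.sum_congr rfl fun c _ => ?_
  rw [← Finset.mul_sum, mul_div_assoc]

private theorem fl_na_sum {C : Type*} (M : ℕ) (s : Finset C) (b : C → ℂ) (f : C → ℕ → ℂ) :
    na M (fun a => ∑ c ∈ s, b c * f c a) = ∑ c ∈ s, b c * na M (f c) := by
  rw [na_sum]
  exact Finset.sum_congr rfl fun c _ => na_mul_left _ _ _

private theorem fl_sum {Γ κ : Type*} [AddCommGroup Γ] (χ : AddChar Γ ℂ) (s : Finset κ)
    (g : κ → Γ) : χ (∑ m ∈ s, g m) = ∏ m ∈ s, χ (g m) := by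
  classical
  induction s using Finset.induction_on with
  | empty => rw [Finset.sum_empty, Finset.prod_empty, AddChar.map_zero_eq_one]
  | insert a s ha ih => rw [Finset.sum_insert ha, Finset.prod_insert ha, AddChar.map_add_eq_mul, ih]

/-- Larger classes for small `n` do not matter. -/
private theorem fl_eventually {𝒯 𝒯' : ∀ n : ℕ, ((Fin n → Bool) → Bool) → Prop} {ε : ℝ}
    (h : LogGen 𝒯 ε) (n₀ : ℕ) (h' : ∀ n ≥ n₀, ∀ T, 𝒯' n T → 𝒯 n T) : LogGen 𝒯' ε := by
  obtain ⟨D, G, hD, hG, hl, c, hc⟩ := h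
  refine ⟨D, G, hD, hG, hl, c, ?_⟩
  filter_upwards [hc, Filter.eventually_ge_atTop n₀] with n hn hn'
  exact ⟨hn.1, hn.2.1, fun T hT => hn.2.2 T (h' n hn' T hT)⟩

theorem final (q r b : ℕ) (B : ℝ) (hq : 0 < q) {ε : ℝ} (hε : 0 < ε) :
    LogGen (SpecTest q r b B) ε := by
  classical
  have hB : (0 : ℝ) < max B 1 := lt_max_of_lt_right one_pos
  obtain ⟨E, G, hNG, n₀, H⟩ := main_pr r q b hq (ε := ε / max B 1) (by positivity)
  refine fl_eventually (𝒯 := fun n f => n₀ ≤ n ∧ SpecTest q r b B n f)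
    (logGen_of hNG fun n f hf => ?_) n₀ fun n hn f hf => ⟨hn, hf⟩
  obtain ⟨hn, Γ, _, _, N, T, c, a, hqΓ, hN, hR, ha, hf⟩ := hf
  have hpr : ∀ (χ : AddChar Γ ℂ) (x : Cube n),
      χ (∑ m, if (T m).Sat x then c m else 0) = pr T (fun m => χ (c m)) univ x := by
    intro χ x
    rw [fl_sum]
    unfold pr
    refine Finset.prod_congr rfl fun m _ => ?_
    by_cases hm : (T m).Sat x
    · rw [if_pos (show Tr (T m).S (T m).a x from hm), if_pos hm]
    · rw [if_neg (show ¬ Tr (T m).S (T m).a x from hm), if_neg hm, AddChar.map_zero_eq_one]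
  have hRd : Rd r T ((univ : Finset (Fin N)).filter fun m => (T m).S.card ≤ wb b n) := by
    intro i
    refine le_trans (le_of_eq ?_) (hR i)
    rw [Finset.filter_filter]
    congr 1
    ext m
    simp only [Finset.mem_filter, Finset.mem_univ, true_and]
    exact and_comm
  have hcard : (univ : Finset (Fin N)).card ≤ n ^ b := by
    rw [Finset.card_univ, Fintype.card_fin]
    exact hN
  have hroot : ∀ (χ : AddChar Γ ℂ), ∀ m ∈ (univ : Finset (Fin N)), (χ (c m)) ^ q = 1 := by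
    intro χ m _
    rw [← AddChar.map_nsmul_eq_pow, hqΓ, AddChar.map_zero_eq_one]
  have h1 : ((nr (2 ^ E n) (fun p => ind (f (out G n p))) : ℝ) : ℂ) =
      ∑ χ : AddChar Γ ℂ, a χ *
        na (2 ^ E n) (fun p => pr T (fun m => χ (c m)) univ (out G n p)) := by
    rw [nr_ofReal, ← fl_na_sum]
    exact na_congr fun p _ => by rw [hf]; exact Finset.sum_congr rfl fun χ _ => by rw [hpr]
  have h2 : ((prob f : ℝ) : ℂ) =
      ∑ χ : AddChar Γ ℂ, a χ * av (pr T (fun m => χ (c m)) univ) := by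
    rw [fl_av, ← fl_av_sum]
    congr 1
    funext x
    rw [hf]
    exact Finset.sum_congr rfl fun χ _ => by rw [hpr]
  have h3 : |nr (2 ^ E n) (fun p => ind (f (out G n p))) - prob f|
      = ‖((nr (2 ^ E n) (fun p => ind (f (out G n p))) : ℝ) : ℂ) - ((prob f : ℝ) : ℂ)‖ := by
    rw [← Complex.ofReal_sub, Complex.norm_real, Real.norm_eq_abs]
  rw [h3, h1, h2, ← Finset.sum_sub_distrib]
  refine (norm_sum_le _ _).trans ?_
  have h4 : ∀ χ ∈ (Finset.univ : Finset (AddChar Γ ℂ)),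
      ‖a χ * na (2 ^ E n) (fun p => pr T (fun m => χ (c m)) univ (out G n p)) -
        a χ * av (pr T (fun m => χ (c m)) univ)‖ ≤ ‖a χ‖ * (ε / max B 1) := by
    intro χ _
    rw [← mul_sub, norm_mul]
    exact mul_le_mul_of_nonneg_left (H n hn T univ _ hRd hcard (hroot χ)) (norm_nonneg _)
  refine (Finset.sum_le_sum h4).trans ?_
  rw [← Finset.sum_mul]
  refine (mul_le_mul_of_nonneg_right (ha.trans (le_max_left B 1)) (by positivity)).trans
    (le_of_eq ?_)
  field_simp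

end Pool.Agent.MP_ca1109_lc.Xl
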