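import Pool.Agent.MP_ca1109_lc.Xl.FI

/-!
# Systems of equations in sums of terms, and functions of sums modulo `q`
-/

namespace Pool.Agent.MP_ca1109_lc.Xl

open Finset Pool.Agent.H66 Pool.Agent.MP_ca1109_lc.Mpg Pool.Agent.MP_ca1109_lc.Agp
open Pool.Agent.MP_ca1109_lc.Dnf (Cube ch one Term)
open Pool.Agent.MP_ca1109_lc.Xp (Sp Bias xo fl Src mv)

variable {n : ℕ}

open Classical in
/-- The sum of the coefficients `c m` of the terms `T m` which are true at `x`. -/
noncomputable def ts {Γ : Type*} [AddCommMonoid Γ] {N : ℕ} (T : Fin N → Term n) (c : Fin N → Γ)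
    (x : Fin n → Bool) : Γ :=
  ∑ m, if (T m).Sat x then c m else 0

/-- There are at most `n ^ b` terms, and every variable occurs in at most `r` terms of width at most
`(b + 1) ⌈log₂ n⌉ + 1`. -/
def Few (r b : ℕ) {N : ℕ} (T : Fin N → Term n) : Prop :=
  N ≤ n ^ b ∧ ∀ i, {m | i ∈ (T m).S ∧ (T m).S.card ≤ wb b n}.ncard ≤ r

/-- `f` is a Boolean function of the answers to `k` questions `P x = 0`, where `P` is a sum of terms
with coefficients in a finite abelian group `Γ` of any size with `q Γ = 0`. -/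
def SysTest (q r b k n : ℕ) (f : (Fin n → Bool) → Bool) : Prop :=
  ∃ (Γ : Fin k → Type) (_ : ∀ j, AddCommGroup (Γ j)) (_ : ∀ j, Finite (Γ j)) (N : ℕ)
    (T : Fin N → Term n) (c : ∀ j, Fin N → Γ j) (F : (Fin k → Prop) → Prop),
    Few r b T ∧ (∀ j (g : Γ j), q • g = 0) ∧ ∀ x, f x = true ↔ F fun j => ts T (c j) x = 0

/-- `f` is a function of `k` sums modulo `q` of terms. -/
def PolyTest (q r b k n : ℕ) (f : (Fin n → Bool) → Bool) : Prop :=
  ∃ (N : ℕ) (T : Fin N → Term n) (c : Fin k → Fin N → ZMod q) (F : (Fin k → ZMod q) → Bool),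
    Few r b T ∧ ∀ x, f x = F fun j => ts T (c j) x

private theorem fm_ind (b : Bool) : ((ind b : ℝ) : ℂ) = if b = true then 1 else 0 := by
  cases b <;> simp [ind]

/-- A combination of characters. -/
private theorem fm_comb {Γ ι : Type*} [AddCommGroup Γ] [Fintype Γ] [Fintype ι] (b : ι → ℂ)
    (ψ : ι → AddChar Γ ℂ) : ∃ a : AddChar Γ ℂ → ℂ, (∑ χ, ‖a χ‖ ≤ ∑ i, ‖b i‖) ∧
      ∀ g, ∑ i, b i * ψ i g = ∑ χ, a χ * χ g := by
  classical
  refine ⟨fun χ => ∑ i ∈ univ.filter fun i => ψ i = χ, b i, ?_, fun g => ?_⟩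
  · rw [← Finset.sum_fiberwise univ ψ fun i => ‖b i‖]
    exact Finset.sum_le_sum fun χ _ => norm_sum_le _ _
  · rw [← Finset.sum_fiberwise univ ψ fun i => b i * ψ i g]
    refine Finset.sum_congr rfl fun χ _ => ?_
    rw [Finset.sum_mul]
    refine Finset.sum_congr rfl fun i hi => ?_
    rw [(Finset.mem_filter.1 hi).2]

/-- The expansion of an arbitrary function of bits in products of bits. -/
private theorem fm_expand {k : ℕ} (F : (Fin k → Bool) → Bool) :
    ∃ a : Finset (Fin k) → ℂ, (∀ U, ‖a U‖ ≤ 2 ^ k) ∧ ∀ b : Fin k → Bool,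
      ((ind (F b) : ℝ) : ℂ) = ∑ U, a U * ∏ i ∈ U, ((ind (b i) : ℝ) : ℂ) := by
  classical
  refine ⟨fun U => ∑ c ∈ U.powerset, (-1 : ℂ) ^ (U \ c).card *
    ((ind (F fun i => decide (i ∈ c)) : ℝ) : ℂ), fun U => ?_, fun b => ?_⟩
  · refine (norm_sum_le _ _).trans ?_
    have h1 : ∀ c ∈ U.powerset, ‖(-1 : ℂ) ^ (U \ c).card *
        ((ind (F fun i => decide (i ∈ c)) : ℝ) : ℂ)‖ ≤ 1 := by
      intro c _
      rw [norm_mul, norm_pow, norm_neg, norm_one, one_pow, one_mul, Complex.norm_real,
        Real.norm_of_nonneg (ind_nonneg _)]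
      exact ind_le_one _
    refine (Finset.sum_le_sum h1).trans ?_
    rw [Finset.sum_const, Finset.card_powerset, nsmul_eq_mul, mul_one]
    push_cast
    refine pow_le_pow_right₀ (by norm_num) ?_
    exact (Finset.card_le_univ U).trans (by simp)
  · set B : Finset (Fin k) := univ.filter fun i => b i = true with hB
    have hprod : ∀ U : Finset (Fin k), (∏ i ∈ U, ((ind (b i) : ℝ) : ℂ)) = if U ⊆ B then 1 else 0 := by
      intro U
      by_cases hU : U ⊆ B
      · rw [if_pos hU]
        refine Finset.prod_eq_one fun i hi => ?_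
        have : b i = true := (Finset.mem_filter.1 (hU hi)).2
        rw [this]
        simp [ind]
      · rw [if_neg hU]
        obtain ⟨i, hi, hi'⟩ := Finset.not_subset.1 hU
        refine Finset.prod_eq_zero hi ?_
        have : b i = false := by
          rw [← Bool.not_eq_true]
          exact fun h => hi' (Finset.mem_filter.2 ⟨Finset.mem_univ _, h⟩)
        rw [this]
        simp [ind]
    have hb : b = fun i => decide (i ∈ B) := by
      funext i
      rw [hB]
      cases h : b i <;> simp [h]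
    simp only [hprod, mul_ite, mul_one, mul_zero]
    rw [← Finset.sum_filter]
    have e1 : (univ.filter fun U : Finset (Fin k) => U ⊆ B) = B.powerset := by
      ext U
      simp
    rw [e1]
    -- swap the two sums
    have e2 : ∑ U ∈ B.powerset, ∑ c ∈ U.powerset, (-1 : ℂ) ^ (U \ c).card *
        ((ind (F fun i => decide (i ∈ c)) : ℝ) : ℂ) =
        ∑ c ∈ B.powerset, (∑ U ∈ (B \ c).powerset, (-1 : ℂ) ^ U.card) *
          ((ind (F fun i => decide (i ∈ c)) : ℝ) : ℂ) := by
      rw [Finset.sum_comm' (s := B.powerset) (t := fun U => U.powerset) (t' := B.powerset)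
        (s' := fun c => B.powerset.filter fun U => c ⊆ U)]
      · refine Finset.sum_congr rfl fun c hc => ?_
        rw [← Finset.sum_mul]
        congr 1
        rw [Finset.mem_powerset] at hc
        refine Finset.sum_bij (fun U _ => U \ c) ?_ ?_ ?_ ?_
        · intro U hU
          rw [Finset.mem_filter, Finset.mem_powerset] at hU
          rw [Finset.mem_powerset]
          exact Finset.sdiff_subset_sdiff hU.1 (le_refl c)
        · intro U hU U' hU' h
          rw [Finset.mem_filter] at hU hU'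
          rw [← Finset.sdiff_union_of_subset hU.2, ← Finset.sdiff_union_of_subset hU'.2, h]
        · intro V hV
          rw [Finset.mem_powerset] at hV
          refine ⟨V ∪ c, ?_, ?_⟩
          · rw [Finset.mem_filter, Finset.mem_powerset]
            exact ⟨Finset.union_subset (hV.trans Finset.sdiff_subset) hc,
              Finset.subset_union_right⟩
          · rw [Finset.union_sdiff_cancel_right]
            rw [Finset.disjoint_left]
            intro i hi
            exact (Finset.mem_sdiff.1 (hV hi)).2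
        · intro U _
          rfl
      · intro U c
        rw [Finset.mem_powerset, Finset.mem_powerset, Finset.mem_filter, Finset.mem_powerset,
          Finset.mem_powerset]
        constructor
        · rintro ⟨h1, h2⟩
          exact ⟨⟨h1, h2⟩, h2.trans h1⟩
        · rintro ⟨⟨h1, h2⟩, -⟩
          exact ⟨h1, h2⟩
    rw [e2]
    have e3 : ∀ c ∈ B.powerset, c ≠ B → (∑ U ∈ (B \ c).powerset, (-1 : ℂ) ^ U.card) *
        ((ind (F fun i => decide (i ∈ c)) : ℝ) : ℂ) = 0 := by
      intro c hc hne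
      have h1 : (∑ U ∈ (B \ c).powerset, (-1 : ℂ) ^ U.card) = 0 := by
        have h2 : ((∑ U ∈ (B \ c).powerset, (-1 : ℤ) ^ U.card : ℤ) : ℂ) = 0 := by
          rw [Finset.sum_powerset_neg_one_pow_card_of_nonempty]
          · simp
          · rw [Finset.sdiff_nonempty]
            exact fun h => hne (Finset.Subset.antisymm (Finset.mem_powerset.1 hc) h)
        push_cast at h2
        exact h2
      rw [h1, zero_mul]
    rw [Finset.sum_eq_single_of_mem B (Finset.mem_powerset_self B) e3]
    rw [Finset.sdiff_self, Finset.powerset_empty, Finset.sum_singleton, Finset.card_empty,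
      pow_zero, one_mul, ← hb]

theorem Few.read {r b N : ℕ} {T : Fin N → Term n} (h : Few r b T) (i : Fin n) :
    (univ.filter fun m => i ∈ (T m).S ∧ (T m).S.card ≤ wb b n).card ≤ r := by
  refine le_trans (le_of_eq ?_) (h.2 i)
  rw [← Set.ncard_coe_finset]
  congr 1
  ext m
  simp

theorem ts_apply {κ : Type*} {Γ : κ → Type*} [∀ j, AddCommMonoid (Γ j)] {N : ℕ}
    (T : Fin N → Term n) (c : ∀ j, Fin N → Γ j) (x : Fin n → Bool) (j : κ) :
    (ts T (fun m (j : κ) => c j m) x : ∀ j, Γ j) j = ts T (c j) x := by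
  unfold ts
  rw [Finset.sum_apply]
  refine Finset.sum_congr rfl fun m _ => ?_
  split_ifs <;> rfl

/-- Every Boolean function on a finite abelian group is a combination of characters. -/
private theorem fm_fourier {Γ : Type*} [AddCommGroup Γ] [Fintype Γ] (F : Γ → Bool) :
    ∃ a : AddChar Γ ℂ → ℂ, (∑ χ, ‖a χ‖ ≤ (Fintype.card Γ : ℝ)) ∧
      ∀ g, (if F g = true then 1 else 0 : ℂ) = ∑ χ : AddChar Γ ℂ, a χ * χ g := by
  classical
  have hc : (Fintype.card Γ : ℂ) ≠ 0 := by exact_mod_cast Fintype.card_ne_zero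
  have hc' : (0 : ℝ) < (Fintype.card Γ : ℝ) := by exact_mod_cast Fintype.card_pos
  refine ⟨fun χ => (∑ h : Γ, (if F h = true then 1 else 0 : ℂ) * χ (-h)) /
    (Fintype.card Γ : ℂ), ?_, fun g => ?_⟩
  · have h0 : ∀ χ : AddChar Γ ℂ, ‖(∑ h : Γ, (if F h = true then 1 else 0 : ℂ) * χ (-h)) /
        (Fintype.card Γ : ℂ)‖ ≤ 1 := by
      intro χ
      rw [norm_div, Complex.norm_natCast, div_le_one hc']
      refine (norm_sum_le _ _).trans ?_
      have h1 : ∀ h ∈ (univ : Finset Γ), ‖(if F h = true then 1 else 0 : ℂ) * χ (-h)‖ ≤ 1 := by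
        intro h _
        rw [norm_mul, AddChar.norm_apply, mul_one]
        split_ifs <;> simp
      refine (Finset.sum_le_sum h1).trans ?_
      rw [Finset.sum_const, Finset.card_univ, nsmul_eq_mul, mul_one]
    refine (Finset.sum_le_sum fun χ _ => h0 χ).trans ?_
    rw [Finset.sum_const, Finset.card_univ, AddChar.card_eq, nsmul_eq_mul, mul_one]
  · have e1 : ∑ χ : AddChar Γ ℂ, (∑ h : Γ, (if F h = true then 1 else 0 : ℂ) * χ (-h)) /
        (Fintype.card Γ : ℂ) * χ g =
        ∑ h : Γ, (if F h = true then 1 else 0 : ℂ) / (Fintype.card Γ : ℂ) *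
          ∑ χ : AddChar Γ ℂ, χ (g - h) := by
      simp_rw [Finset.sum_div, Finset.sum_mul, Finset.mul_sum]
      rw [Finset.sum_comm]
      refine Finset.sum_congr rfl fun h _ => Finset.sum_congr rfl fun χ _ => ?_
      rw [sub_eq_add_neg, AddChar.map_add_eq_mul]
      ring
    rw [e1]
    have e2 : ∀ h : Γ, (if F h = true then 1 else 0 : ℂ) / (Fintype.card Γ : ℂ) *
        ∑ χ : AddChar Γ ℂ, χ (g - h) = if h = g then (if F g = true then 1 else 0 : ℂ) else 0 := by
      intro h
      rw [AddChar.sum_apply_eq_ite]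
      by_cases hg : h = g
      · subst hg
        rw [if_pos rfl, if_pos (sub_self h)]
        field_simp
      · rw [if_neg hg, if_neg fun h' => hg (sub_eq_zero.1 h').symm, mul_zero]
    rw [Finset.sum_congr rfl fun h _ => e2 h, Finset.sum_ite_eq' univ g, if_pos (Finset.mem_univ _)]

/-- Systems have small spectral norm. -/
theorem SysTest.spec {q r b k n : ℕ} {f : (Fin n → Bool) → Bool} (h : SysTest q r b k n f) :
    SpecTest q r b (4 ^ k) n f := by
  classical
  obtain ⟨Γ, _, hfin, N, T, c, F, hfew, hq, hT⟩ := h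
  have _ : ∀ j, Fintype (Γ j) := fun j => Fintype.ofFinite (Γ j)
  obtain ⟨a, ha, hF⟩ := fm_expand (k := k) (fun b => decide (F (fun i => b i = true)))
  let pj : Finset (Fin k) → (∀ j, Γ j) →+ (∀ j, Γ j) := fun U =>
    { toFun := fun g j => if j ∈ U then g j else 0
      map_zero' := by funext j; simp
      map_add' := fun g g' => by
        funext j
        by_cases hj : j ∈ U <;> simp [hj] }
  have hcard : ((Fintype.card (∀ j, Γ j) : ℕ) : ℂ) ≠ 0 := by exact_mod_cast Fintype.card_ne_zero
  obtain ⟨a', ha', hF'⟩ := fm_comb (Γ := ∀ j, Γ j) (ι := Finset (Fin k) × AddChar (∀ j, Γ j) ℂ)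
    (fun u => a u.1 / (Fintype.card (∀ j, Γ j) : ℂ)) (fun u => u.2.compAddMonoidHom (pj u.1))
  refine ⟨∀ j, Γ j, inferInstance, inferInstance, N, T, fun m j => c j m, a',
    fun g => funext fun j => hq j (g j), hfew.1, hfew.read, ha'.trans ?_, fun x => ?_⟩
  · -- the norm
    have h1 : ∀ u : Finset (Fin k) × AddChar (∀ j, Γ j) ℂ,
        ‖a u.1 / (Fintype.card (∀ j, Γ j) : ℂ)‖ ≤ 2 ^ k / (Fintype.card (∀ j, Γ j) : ℝ) := by
      intro u
      rw [norm_div, Complex.norm_natCast]
      exact div_le_div_of_nonneg_right (ha _) (by positivity)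
    refine (Finset.sum_le_sum fun u _ => h1 u).trans ?_
    rw [Finset.sum_const, Finset.card_univ, Fintype.card_prod, AddChar.card_eq,
      Fintype.card_finset, Fintype.card_fin, nsmul_eq_mul]
    have h2 : ((Fintype.card (∀ j, Γ j) : ℕ) : ℝ) ≠ 0 := by exact_mod_cast Fintype.card_ne_zero
    push_cast
    have h3 : (4 : ℝ) ^ k = 2 ^ k * 2 ^ k := by rw [← mul_pow]; norm_num
    rw [h3]
    apply le_of_eq
    field_simp
  · -- the expansion
    obtain ⟨g, hg⟩ : ∃ g, (∑ m, if (T m).Sat x then (fun j => c j m) else 0 : ∀ j, Γ j) = g :=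
      ⟨_, rfl⟩
    have hgj : ∀ j, g j = ts T (c j) x := fun j => by
      rw [← ts_apply T c x j, ← hg]
      rfl
    rw [hg, ← hF', Fintype.sum_prod_type]
    have hfx : f x = decide (F fun j => g j = 0) := by
      rw [Bool.eq_iff_iff, hT, decide_eq_true_eq]
      simp only [hgj]
    have h1 : ((ind (f x) : ℝ) : ℂ) =
        ∑ U, a U * ∏ i ∈ U, ((ind (decide (g i = 0)) : ℝ) : ℂ) := by
      rw [← hF, hfx]
      congr 2
      simp only [decide_eq_true_eq]
    rw [h1]
    refine Finset.sum_congr rfl fun U _ => ?_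
    have h2 : ∑ ψ : AddChar (∀ j, Γ j) ℂ, ψ (pj U g) =
        if pj U g = 0 then (Fintype.card (∀ j, Γ j) : ℂ) else 0 := by
      rw [AddChar.sum_apply_eq_ite]
    have h3 : ∑ ψ : AddChar (∀ j, Γ j) ℂ, a U / (Fintype.card (∀ j, Γ j) : ℂ) *
        (ψ.compAddMonoidHom (pj U)) g = a U * if pj U g = 0 then 1 else 0 := by
      have : ∀ ψ : AddChar (∀ j, Γ j) ℂ, (ψ.compAddMonoidHom (pj U)) g = ψ (pj U g) :=
        fun ψ => rfl
      simp only [this]
      rw [← Finset.mul_sum, h2]
      split_ifs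
      · field_simp
      · simp
    show a U * _ = ∑ ψ : AddChar (∀ j, Γ j) ℂ, a U / (Fintype.card (∀ j, Γ j) : ℂ) *
        (ψ.compAddMonoidHom (pj U)) g
    rw [h3]
    congr 1
    by_cases hall : ∀ i ∈ U, g i = 0
    · have h4 : pj U g = 0 := by
        funext i
        show (if i ∈ U then g i else 0) = 0
        split_ifs with hi
        · exact hall i hi
        · rfl
      rw [if_pos h4]
      refine Finset.prod_eq_one fun i hi => ?_
      rw [decide_eq_true (hall i hi)]
      simp [ind]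
    · have h4 : pj U g ≠ 0 := by
        intro h
        apply hall
        intro i hi
        have h5 := congrFun h i
        have h6 : (if i ∈ U then g i else 0) = 0 := h5
        rwa [if_pos hi] at h6
      rw [if_neg h4]
      push Not at hall
      obtain ⟨i, hi, hix⟩ := hall
      refine Finset.prod_eq_zero hi ?_
      rw [decide_eq_false hix]
      simp [ind]

theorem PolyTest.spec {q r b k n : ℕ} (hq : 0 < q) {f : (Fin n → Bool) → Bool}
    (h : PolyTest q r b k n f) : SpecTest q r b (q ^ k) n f := by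
  classical
  obtain ⟨N, T, c, F, hfew, hT⟩ := h
  have : NeZero q := ⟨hq.ne'⟩
  obtain ⟨a, ha, hF⟩ := fm_fourier F
  refine ⟨Fin k → ZMod q, inferInstance, inferInstance, N, T, fun m j => c j m, a,
    fun g => ?_, hfew.1, hfew.read, ha.trans ?_, fun x => ?_⟩
  · funext j
    rw [Pi.smul_apply, nsmul_eq_mul, ZMod.natCast_self, zero_mul]
    rfl
  · rw [Fintype.card_fun, Fintype.card_fin, ZMod.card]
    push_cast
    exact le_refl _
  · rw [hT x, fm_ind, hF]
    have h1 : (fun j => ts T (c j) x) =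
        (∑ m, if (T m).Sat x then (fun j => c j m) else 0 : Fin k → ZMod q) := by
      funext j
      rw [← ts_apply T c x j]
      rfl
    rw [h1]

theorem SpecTest.mono {q r b : ℕ} {B B' : ℝ} (hB : B ≤ B') {n : ℕ} {f : (Fin n → Bool) → Bool}
    (h : SpecTest q r b B n f) : SpecTest q r b B' n f := by
  obtain ⟨Γ, i1, i2, N, T, c, a, hq, hN, hc, ha, hf⟩ := h
  exact ⟨Γ, i1, i2, N, T, c, a, hq, hN, hc, ha.trans hB, hf⟩

/-- **One generator for all three classes.** -/
theorem final_union (q r b k : ℕ) (hq : 0 < q) (B : ℝ) {ε : ℝ} (hε : 0 < ε) :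
    LogGen (fun n f => SpecTest q r b B n f ∨ SysTest q r b k n f ∨ PolyTest q r b k n f) ε := by
  obtain ⟨D, G, hD, hG, hl, c, hc⟩ := final q r b (max B (max (4 ^ k) (q ^ k))) hq hε
  refine ⟨D, G, hD, hG, hl, c, ?_⟩
  filter_upwards [hc] with n hn
  refine ⟨hn.1, hn.2.1, fun f hf => hn.2.2 f ?_⟩
  rcases hf with h | h | h
  · exact h.mono (le_max_left _ _)
  · exact h.spec.mono ((le_max_left _ _).trans (le_max_right _ _))
  · exact (h.spec hq).mono ((le_max_right _ _).trans (le_max_right _ _))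

end Pool.Agent.MP_ca1109_lc.Xl
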