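import Pool.Agent.MP_ca1109_lc.Xl.CI
import Pool.Agent.MP_ca1109_lc.Xl.CO
import Pool.Agent.MP_ca1109_lc.Xl.NF
import Pool.Agent.MP_ca1109_lc.Xp.MA

/-!
# The main assembly: the generator fools the characters of sums of terms with bounded read
-/

namespace Pool.Agent.MP_ca1109_lc.Xl

open Finset Pool.Agent.H66 Pool.Agent.MP_ca1109_lc.Mpg Pool.Agent.MP_ca1109_lc.Agp
open Pool.Agent.MP_ca1109_lc.Dnf (Cube ch one Term)
open Pool.Agent.MP_ca1109_lc.Xp (Sp Bias xo fl Src mv Ph gx ph_close ph_const ph_unif ph_level ph_mul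
  ma_norm_av ma_av_sub ma_av_mul_left ma_av_diff ma_clog ma_clog' ma_pow ma_level)

variable {n : ℕ} {ι : Type} [DecidableEq ι]

/-- The width up to which the read is bounded. -/
def wb (b n : ℕ) : ℕ := (b + 1) * Nat.clog 2 n + 1

theorem mb_half (b n : ℕ) (hn : 1 ≤ n) : ((1 : ℝ) / 2) ^ wb b n ≤ 1 / n ^ (b + 1) := by
  have hn' : (1 : ℝ) ≤ n := by exact_mod_cast hn
  have h1 : ((1 : ℝ) / 2) ^ wb b n = 1 / (2 * ((2 : ℝ) ^ Nat.clog 2 n) ^ (b + 1)) := by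
    unfold wb
    rw [one_div_pow, pow_succ, mul_comm (b + 1) (Nat.clog 2 n), pow_mul]
    ring
  rw [h1]
  apply one_div_le_one_div_of_le (by positivity)
  have h2 := ma_clog' n
  have h3 : (n : ℝ) ^ (b + 1) ≤ ((2 : ℝ) ^ Nat.clog 2 n) ^ (b + 1) :=
    pow_le_pow_left₀ (by linarith) h2 (b + 1)
  have h4 : (0 : ℝ) ≤ ((2 : ℝ) ^ Nat.clog 2 n) ^ (b + 1) := by positivity
  linarith

theorem mb_four (b n : ℕ) :
    (4 : ℝ) ^ wb b n ≤ 4 * 2 ^ (2 * (b + 1)) * ((n : ℝ) + 1) ^ (2 * (b + 1)) := by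
  have h1 : (4 : ℝ) ^ wb b n = 4 * ((2 : ℝ) ^ Nat.clog 2 n) ^ (2 * (b + 1)) := by
    unfold wb
    rw [pow_succ, mul_comm, show (4 : ℝ) = 2 ^ 2 by norm_num, ← pow_mul, ← pow_mul]
    congr 2
    ring
  rw [h1, mul_assoc, ← mul_pow]
  refine mul_le_mul_of_nonneg_left ?_ (by norm_num)
  exact pow_le_pow_left₀ (by positivity) (ma_clog n) _

theorem mb_big (C₂ C₁ b n : ℕ) : (2 : ℝ) ^ (C₂ * (C₁ * wb b n + wb b n + 1)) ≤
    2 ^ (C₂ * (C₁ + 2) + C₂ * ((b + 1) * (C₁ + 1))) *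
      ((n : ℝ) + 1) ^ (C₂ * ((b + 1) * (C₁ + 1))) := by
  have h1 : C₂ * (C₁ * wb b n + wb b n + 1) =
      C₂ * (C₁ + 2) + Nat.clog 2 n * (C₂ * ((b + 1) * (C₁ + 1))) := by
    unfold wb
    ring
  rw [h1, pow_add, pow_mul 2 (Nat.clog 2 n), pow_add, mul_assoc, ← mul_pow]
  refine mul_le_mul_of_nonneg_left ?_ (by positivity)
  exact pow_le_pow_left₀ (by positivity) (ma_clog n) _


theorem ml_factor (T : ι → Term n) (ζ : ι → ℂ) (M : Finset ι) (P : ι → Prop) [DecidablePred P]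
    (x : Cube n) :
    pr T ζ M x = pr T ζ (M.filter P) x * pr T ζ (M.filter fun m => ¬ P m) x := by
  unfold pr
  exact (Finset.prod_filter_mul_prod_filter_not M P _).symm

theorem ml_norm_pr {T : ι → Term n} {ζ : ι → ℂ} {M : Finset ι} (h : ∀ m ∈ M, ‖ζ m‖ = 1)
    (x : Cube n) : ‖pr T ζ M x‖ = 1 := by
  unfold pr
  rw [norm_prod]
  refine Finset.prod_eq_one fun m hm => ?_
  split_ifs
  · exact h m hm
  · exact norm_one

theorem ml_pr_one {T : ι → Term n} {ζ : ι → ℂ} {M : Finset ι} (h : ∀ m ∈ M, ‖ζ m‖ = 1)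
    (x : Cube n) : ‖pr T ζ M x - 1‖ ≤ ∑ m ∈ M, 2 * tm (T m).S (T m).a x := by
  classical
  induction M using Finset.induction_on with
  | empty => simp [pr]
  | insert a M ha ih =>
    have h1 : ‖ζ a‖ = 1 := h a (Finset.mem_insert_self _ _)
    have h2 : ∀ m ∈ M, ‖ζ m‖ = 1 := fun m hm => h m (Finset.mem_insert_of_mem hm)
    have h3 : pr T ζ (insert a M) x =
        (if Tr (T a).S (T a).a x then ζ a else 1) * pr T ζ M x := by
      unfold pr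
      rw [Finset.prod_insert ha]
    rw [h3, Finset.sum_insert ha]
    have h4 : ‖(if Tr (T a).S (T a).a x then ζ a else (1 : ℂ)) - 1‖ ≤
        2 * tm (T a).S (T a).a x := by
      unfold tm
      by_cases hT : Tr (T a).S (T a).a x
      · rw [if_pos hT, Dnf.one_true hT]
        calc ‖ζ a - 1‖ ≤ ‖ζ a‖ + ‖(1 : ℂ)‖ := norm_sub_le _ _
          _ = 2 * 1 := by rw [h1, norm_one]; norm_num
      · rw [if_neg hT, Dnf.one_false hT, sub_self, norm_zero, mul_zero]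
    calc ‖(if Tr (T a).S (T a).a x then ζ a else (1 : ℂ)) * pr T ζ M x - 1‖
        = ‖((if Tr (T a).S (T a).a x then ζ a else (1 : ℂ)) - 1) * pr T ζ M x +
            (pr T ζ M x - 1)‖ := by
          congr 1
          ring
      _ ≤ ‖((if Tr (T a).S (T a).a x then ζ a else (1 : ℂ)) - 1) * pr T ζ M x‖ +
            ‖pr T ζ M x - 1‖ := norm_add_le _ _
      _ ≤ 2 * tm (T a).S (T a).a x + ∑ m ∈ M, 2 * tm (T m).S (T m).a x := by
          rw [norm_mul, ml_norm_pr h2, mul_one]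
          exact add_le_add h4 (ih h2)

theorem ml_sum {Ω : Type} [Fintype Ω] [Nonempty Ω] {W : ℕ} {T : ι → Term n} {M : Finset ι}
    (hW : ∀ m ∈ M, W < (T m).S.card) {δ : ℝ} (hδ : 0 ≤ δ) {Y : Ω → Cube n} (hY : Bias δ Y) :
    (avg fun ω => ∑ m ∈ M, 2 * tm (T m).S (T m).a (Y ω)) ≤ 2 * M.card * ((1 / 2) ^ W + δ) := by
  rw [avg_sum]
  have h1 : ∀ m ∈ M, (avg fun ω => 2 * tm (T m).S (T m).a (Y ω)) ≤ 2 * ((1 / 2) ^ W + δ) := by
    intro m hm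
    rw [avg_mul_left]
    have h2 := (abs_le.1 (avg_tm_bias hδ hY (T m).S (T m).a)).2
    have h3 : ((1 : ℝ) / 2) ^ (T m).S.card ≤ (1 / 2) ^ W :=
      pow_le_pow_of_le_one (by norm_num) (by norm_num) (hW m hm).le
    linarith
  calc ∑ m ∈ M, (avg fun ω => 2 * tm (T m).S (T m).a (Y ω)) ≤
        ∑ _m ∈ M, 2 * ((1 / 2 : ℝ) ^ W + δ) := Finset.sum_le_sum h1
    _ = 2 * M.card * ((1 / 2) ^ W + δ) := by
      rw [Finset.sum_const, nsmul_eq_mul]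
      ring

/-- The wide terms may be dropped. -/
theorem ml_drop {W : ℕ} {T : ι → Term n} {M : Finset ι} {ζ : ι → ℂ} (hζ : ∀ m ∈ M, ‖ζ m‖ = 1)
    {δ : ℝ} (hδ : 0 ≤ δ) {K : ℝ} (hK : (M.card : ℝ) ≤ K)
    {Ω : Type} [Fintype Ω] [Nonempty Ω] {Y : Ω → Cube n} (hY : Bias δ Y) :
    ‖(av fun ω => pr T ζ M (Y ω)) -
      av fun ω => pr T ζ (M.filter fun m => (T m).S.card ≤ W) (Y ω)‖ ≤
      2 * K * ((1 / 2) ^ W + δ) := by
  classical
  have h1 : ∀ ω, ‖pr T ζ M (Y ω) - pr T ζ (M.filter fun m => (T m).S.card ≤ W) (Y ω)‖ ≤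
      ∑ m ∈ M.filter (fun m => ¬ (T m).S.card ≤ W), 2 * tm (T m).S (T m).a (Y ω) := by
    intro ω
    rw [ml_factor T ζ M (fun m => (T m).S.card ≤ W) (Y ω)]
    have h2 : ‖pr T ζ (M.filter fun m => (T m).S.card ≤ W) (Y ω)‖ = 1 :=
      ml_norm_pr (fun m hm => hζ m (Finset.mem_filter.1 hm).1) _
    calc ‖pr T ζ (M.filter fun m => (T m).S.card ≤ W) (Y ω) *
          pr T ζ (M.filter fun m => ¬ (T m).S.card ≤ W) (Y ω) -
          pr T ζ (M.filter fun m => (T m).S.card ≤ W) (Y ω)‖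
        = ‖pr T ζ (M.filter fun m => (T m).S.card ≤ W) (Y ω) *
          (pr T ζ (M.filter fun m => ¬ (T m).S.card ≤ W) (Y ω) - 1)‖ := by
          congr 1
          ring
      _ = ‖pr T ζ (M.filter fun m => ¬ (T m).S.card ≤ W) (Y ω) - 1‖ := by
          rw [norm_mul, h2, one_mul]
      _ ≤ _ := ml_pr_one (fun m hm => hζ m (Finset.mem_filter.1 hm).1) _
  refine (ma_av_diff h1).trans ?_
  refine (ml_sum (fun m hm => not_le.1 (Finset.mem_filter.1 hm).2) hδ hY).trans ?_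
  have h3 : ((M.filter fun m => ¬ (T m).S.card ≤ W).card : ℝ) ≤ K :=
    le_trans (by exact_mod_cast Finset.card_le_card (Finset.filter_subset _ _)) hK
  have h4 : (0 : ℝ) ≤ (1 / 2) ^ W + δ := by positivity
  nlinarith

/-! ## The second case for the narrow terms -/

theorem ml_caseII {q r : ℕ} {ε : ℝ} {t s C : ℕ} (ht : 1 ≤ t)
    (hcore : ∀ (n W : ℕ) {ι : Type} [DecidableEq ι] (T : ι → Term n) (M : Finset ι)
      (ζ : ι → ℂ), Fam r W T M → 1 ≤ W → (∀ m ∈ M, ζ m ^ q = 1) → Red T ζ M →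
      ∀ p δ : ℝ, 0 < p → p ≤ 1 → t ≤ p * A1 T M → p * A1 T M ≤ 2 * t → C * p * W ≤ 1 → 0 ≤ δ →
      C * δ * ((n : ℝ) + 1) ^ 2 * 4 ^ W ≤ 1 →
      ∀ {Ω₁ Ω₂ : Type} [Fintype Ω₁] [Nonempty Ω₁] [Fintype Ω₂] [Nonempty Ω₂]
        (Z : Ω₂ → Ω₁ → Cube n) (η : Ω₂ → Finset (Fin n)) (h : Ω₂ → Fin n → Fin (2 ^ s)),
        (∀ ω₂, Bias δ (Z ω₂)) → Src p δ η h →
        (avg fun ω₂ => avg fun ω₁ =>
          ‖av fun u : Fin (2 ^ s) → Bool => pr T ζ M (mv (Z ω₂ ω₁) (η ω₂) (h ω₂) u)‖) ≤ ε)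
    {n W : ℕ} {T : ι → Term n} {M : Finset ι} {ζ : ι → ℂ} (hM : Fam r W T M)
    (hW : 1 ≤ W) (hζ : ∀ m ∈ M, ζ m ^ q = 1) (hR : Red T ζ M)
    (hA : (((2 * t * C + t) * W : ℕ) : ℝ) ≤ A1 T M) {δ : ℝ} (hδ : 0 ≤ δ)
    (hCδ : C * δ * ((n : ℝ) + 1) ^ 2 * 4 ^ W ≤ 1)
    {Ω₂ : Type} [Fintype Ω₂] [Nonempty Ω₂]
    (η : Fin (Nat.clog 2 n + r + 1) → Ω₂ → Finset (Fin n)) (h : Ω₂ → Fin n → Fin (2 ^ s))
    (hS : ∀ l : Fin (Nat.clog 2 n + r + 1), Src ((1 / 2 : ℝ) ^ (l : ℕ)) δ (η l) h)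
    {Ω₁ : Type} [Fintype Ω₁] [Nonempty Ω₁] (Y : Ω₁ → Cube n) (hY : Bias δ Y) :
    ‖Ph Y η h (pr T ζ M)‖ ≤ ε := by
  have hW' : (1 : ℝ) ≤ W := by exact_mod_cast hW
  have ht' : (1 : ℝ) ≤ t := by exact_mod_cast ht
  have hC' : (0 : ℝ) ≤ C := Nat.cast_nonneg C
  push_cast at hA
  have hA1 : (t : ℝ) ≤ A1 T M := by
    have h1 : (0 : ℝ) ≤ 2 * t * C * W := by positivity
    have h2 : (t : ℝ) * 1 ≤ t * W := mul_le_mul_of_nonneg_left hW' (by linarith)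
    nlinarith
  obtain ⟨l, h1, h2, h3⟩ := ma_level ht hA1
  -- the level exists
  have hl : l < Nat.clog 2 n + r + 1 := by
    have h4 : A1 T M ≤ r * n := (A1_le_card T M).trans (by exact_mod_cast card_le hM.ne hM.rd)
    have h5 : (2 : ℝ) ^ l ≤ 2 ^ (Nat.clog 2 n + r) := by
      refine h3.trans (h4.trans ?_)
      rw [pow_add, mul_comm]
      have h6 : (r : ℝ) ≤ 2 ^ r := by exact_mod_cast Nat.lt_two_pow_self.le
      exact mul_le_mul (ma_clog' n) h6 (Nat.cast_nonneg _) (by positivity)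
    have h7 : l ≤ Nat.clog 2 n + r := (pow_le_pow_iff_right₀ (by norm_num)).1 h5
    omega
  have hp : (0 : ℝ) < (1 / 2) ^ l := by positivity
  have hp1 : ((1 : ℝ) / 2) ^ l ≤ 1 := pow_le_one₀ (by norm_num) (by norm_num)
  have hCp : (C : ℝ) * (1 / 2) ^ l * W ≤ 1 := by
    have h4 : 2 * t * (C * (1 / 2 : ℝ) ^ l * W) ≤ 2 * t * 1 := by
      calc 2 * t * (C * (1 / 2 : ℝ) ^ l * W) = (1 / 2 : ℝ) ^ l * (2 * t * C * W) := by ring
        _ ≤ (1 / 2 : ℝ) ^ l * A1 T M := by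
          refine mul_le_mul_of_nonneg_left ?_ hp.le
          have h5 : (0 : ℝ) ≤ t * W := by positivity
          nlinarith
        _ ≤ 2 * t * 1 := by linarith
    exact le_of_mul_le_mul_left h4 (by linarith)
  rw [ph_level Y η h ⟨l, hl⟩]
  refine ma_norm_av fun v => ?_
  have key := hcore n W T M ζ hM hW hζ hR ((1 / 2) ^ l) δ hp hp1 h1 h2 hCp hδ hCδ
    (fun ω₂ ω₁ => xo (Y ω₁) (gx (fun _ => false) (fun l => η l ω₂) (h ω₂)
      (Function.update v ⟨l, hl⟩ fun _ => false))) (η ⟨l, hl⟩) h (fun ω₂ => hY.xo _)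
    (hS ⟨l, hl⟩)
  refine le_trans ((norm_av_le _).trans (avg_mono fun ω₂ => norm_av_le _)) key

theorem main_pr (r q b : ℕ) (hq : 0 < q) {ε : ℝ} (hε : 0 < ε) : ∃ E G, NG E G ∧
    ∃ n₀ : ℕ, ∀ n ≥ n₀, ∀ {ι : Type} [DecidableEq ι] (T : ι → Term n) (M : Finset ι) (ζ : ι → ℂ),
      Rd r T (M.filter fun m => (T m).S.card ≤ wb b n) → M.card ≤ n ^ b →
      (∀ m ∈ M, ζ m ^ q = 1) →
      ‖na (2 ^ E n) (fun p => pr T ζ M (out G n p)) - av (pr T ζ M)‖ ≤ ε := by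
  classical
  obtain ⟨ρ, hρ0, hρ1, hρ⟩ := Xp.root_gap q hq
  obtain ⟨t, s, C, ht, hcore⟩ := core q r hq hρ0 hρ1 hρ (show 0 < ε / 8 by positivity)
  obtain ⟨C₂, hfool⟩ := foolI r (show 0 < ε / 8 by positivity)
  obtain ⟨C₁, hC₁⟩ : ∃ C₁ : ℕ, C₁ = 2 * t * C + t := ⟨_, rfl⟩
  obtain ⟨K0, hK0⟩ : ∃ K0 : ℕ, K0 = C₂ * ((b + 1) * (C₁ + 1)) := ⟨_, rfl⟩
  obtain ⟨c₀, hc₀⟩ : ∃ c₀ : ℝ, c₀ = 2 ^ (C₂ * (C₁ + 2) + C₂ * ((b + 1) * (C₁ + 1))) := ⟨_, rfl⟩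
  have hc₀' : 0 ≤ c₀ := by rw [hc₀]; positivity
  obtain ⟨E, G, hG, hgen⟩ := Xp.xgen r s (K0 + (2 * b + 7))
  obtain ⟨n₀, hn₀⟩ := exists_nat_gt ((16 + 8 * c₀) / ε + 4 * 2 ^ (2 * (b + 1)) * C)
  refine ⟨E, G, hG, max n₀ 1, fun n hn ι _ T M ζ hM hMc hζq => ?_⟩
  have hn1 : 1 ≤ n := (le_max_right _ _).trans hn
  have hnn : (n₀ : ℝ) ≤ n := by exact_mod_cast (le_max_left _ _).trans hn
  have hn1' : (1 : ℝ) ≤ n := by exact_mod_cast hn1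
  have hC0 : (0 : ℝ) ≤ C := Nat.cast_nonneg C
  have hbig : (16 + 8 * c₀) / ε + 4 * 2 ^ (2 * (b + 1)) * C ≤ n := hn₀.le.trans hnn
  have hb1 : 16 + 8 * c₀ ≤ ε * n := by
    have h0 : (0 : ℝ) ≤ 4 * 2 ^ (2 * (b + 1)) * C := by positivity
    have h1 : (16 + 8 * c₀) / ε ≤ n := by linarith
    rw [div_le_iff₀ hε] at h1
    linarith
  have hb2 : 4 * 2 ^ (2 * (b + 1)) * (C : ℝ) ≤ n := by
    have h1 : 0 ≤ (16 + 8 * c₀) / ε := by positivity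
    linarith
  obtain ⟨δ, hδ⟩ : ∃ δ : ℝ, δ = 1 / ((n : ℝ) + 1) ^ (K0 + (2 * b + 7)) := ⟨_, rfl⟩
  have hδ0 : 0 ≤ δ := by rw [hδ]; positivity
  -- the numbers
  have e1 : 2 * (n : ℝ) ^ b * ((1 / 2) ^ wb b n + δ) ≤ ε / 4 := by
    have h1 := mb_half b n hn1
    have h2 : δ ≤ 1 / (n : ℝ) ^ (b + 1) := by
      rw [hδ]
      apply one_div_le_one_div_of_le (by positivity)
      calc (n : ℝ) ^ (b + 1) ≤ ((n : ℝ) + 1) ^ (b + 1) :=
            pow_le_pow_left₀ (by linarith) (by linarith) _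
        _ ≤ ((n : ℝ) + 1) ^ (K0 + (2 * b + 7)) := pow_le_pow_right₀ (by linarith) (by omega)
    calc 2 * (n : ℝ) ^ b * ((1 / 2) ^ wb b n + δ) ≤
          2 * (n : ℝ) ^ b * (1 / n ^ (b + 1) + 1 / n ^ (b + 1)) :=
          mul_le_mul_of_nonneg_left (add_le_add h1 h2) (by positivity)
      _ = 4 / n := by
        rw [pow_succ]
        field_simp
        ring
      _ ≤ ε / 4 := by
        rw [div_le_div_iff₀ (by linarith) (by norm_num)]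
        linarith
  have e2 : δ * 2 ^ (C₂ * (C₁ * wb b n + wb b n + 1)) ≤ ε / 8 := by
    have h1 := mb_big C₂ C₁ b n
    have h2 := ma_pow n K0 (K0 + (2 * b + 7)) (by omega) hc₀'
    rw [← hδ] at h2
    calc δ * 2 ^ (C₂ * (C₁ * wb b n + wb b n + 1)) ≤ δ * (c₀ * ((n : ℝ) + 1) ^ K0) := by
          rw [hc₀, hK0]
          exact mul_le_mul_of_nonneg_left h1 hδ0
      _ ≤ c₀ / ((n : ℝ) + 1) := h2
      _ ≤ ε / 8 := by
        rw [div_le_div_iff₀ (by linarith) (by norm_num)]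
        nlinarith
  have e3 : C * δ * ((n : ℝ) + 1) ^ 2 * 4 ^ wb b n ≤ 1 := by
    have h1 := mb_four b n
    have h2 := ma_pow n (2 * (b + 1) + 2) (K0 + (2 * b + 7)) (by omega)
      (show (0 : ℝ) ≤ 4 * 2 ^ (2 * (b + 1)) * C by positivity)
    rw [← hδ] at h2
    calc C * δ * ((n : ℝ) + 1) ^ 2 * 4 ^ wb b n ≤
          C * δ * ((n : ℝ) + 1) ^ 2 * (4 * 2 ^ (2 * (b + 1)) * ((n : ℝ) + 1) ^ (2 * (b + 1))) :=
          mul_le_mul_of_nonneg_left h1 (by positivity)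
      _ = δ * (4 * 2 ^ (2 * (b + 1)) * C * ((n : ℝ) + 1) ^ (2 * (b + 1) + 2)) := by ring
      _ ≤ 4 * 2 ^ (2 * (b + 1)) * C / ((n : ℝ) + 1) := h2
      _ ≤ 1 := by
        rw [div_le_one (by linarith)]
        linarith
  -- the generator
  obtain ⟨M₁, M₂, hM₁, hM₂, Y, η, h, hY, hS, hf⟩ := hgen n
  rw [← hδ] at hY hS
  have : Nonempty (Fin M₁) := ⟨⟨0, hM₁⟩⟩
  have : Nonempty (Fin M₂) := ⟨⟨0, hM₂⟩⟩
  have hf' : na (2 ^ E n) (fun p => pr T ζ M (out G n p)) = Ph Y η h (pr T ζ M) := hf _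
  rw [hf']
  have hnorm : ∀ m ∈ M, ‖ζ m‖ = 1 := fun m hm =>
    Complex.norm_eq_one_of_pow_eq_one (hζq m hm) (by omega)
  have hMc' : (M.card : ℝ) ≤ (n : ℝ) ^ b := by exact_mod_cast hMc
  -- the wide part
  obtain ⟨N, hN⟩ : ∃ N : Finset ι, N = M.filter fun m => (T m).S.card ≤ wb b n := ⟨_, rfl⟩
  rw [← hN] at hM
  have hU : Bias δ (fun x : Cube n => x) := Xp.Bias.mono Xp.Bias.unif hδ0
  have d1 : ‖Ph Y η h (pr T ζ M) - Ph Y η h (pr T ζ N)‖ ≤ ε / 4 := by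
    refine (ph_close Y η h fun sx => ?_).trans e1
    rw [hN]
    exact ml_drop hnorm hδ0 hMc' (hY.xo sx)
  have d2 : ‖av (pr T ζ M) - av (pr T ζ N)‖ ≤ ε / 4 := by
    refine le_trans ?_ e1
    rw [hN]
    exact ml_drop (Y := fun x : Cube n => x) hnorm hδ0 hMc' hU
  -- the reduced form
  have hNq : ∀ m ∈ N, ζ m ^ q = 1 := by
    intro m hm
    rw [hN] at hm
    exact hζq m (Finset.mem_filter.1 hm).1
  have hNw : ∀ m ∈ N, (T m).S.card ≤ wb b n := by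
    intro m hm
    rw [hN] at hm
    exact (Finset.mem_filter.1 hm).2
  obtain ⟨T', ζ', M', κ, hκ, -, hfam, hζ', hred, hpr⟩ := reduce hq T ζ N hM hNw hNq
  have hN1 : ∀ m ∈ M', ‖ζ' m‖ = 1 := fun m hm =>
    Complex.norm_eq_one_of_pow_eq_one (hζ' m hm) (by omega)
  have hpr' : pr T ζ N = fun x => κ * pr T' ζ' M' x := funext hpr
  have d3 : ‖Ph Y η h (pr T ζ N) - av (pr T ζ N)‖ ≤ ε / 4 := by
    rw [hpr', ph_mul, ma_av_mul_left, ← mul_sub, norm_mul, hκ, one_mul]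
    rcases le_total (A1 T' M') ((C₁ * wb b n : ℕ) : ℝ) with hA | hA
    · refine ph_const Y η h fun sx => ?_
      have h1 := hfool n (wb b n) (C₁ * wb b n) T' M' ζ' hfam hA hN1 (fun ω => xo (Y ω) sx) δ hδ0
        (hY.xo sx)
      linarith
    · rw [hC₁] at hA
      have h1 := ml_caseII ht hcore hfam (by unfold wb; omega) hζ' hred hA hδ0 e3 η h hS Y hY
      have h2 := ml_caseII ht hcore hfam (by unfold wb; omega) hζ' hred hA hδ0 e3 η h hS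
        (fun x : Cube n => x) hU
      rw [ph_unif] at h2
      calc ‖Ph Y η h (pr T' ζ' M') - av (pr T' ζ' M')‖ ≤
            ‖Ph Y η h (pr T' ζ' M')‖ + ‖av (pr T' ζ' M')‖ := norm_sub_le _ _
        _ ≤ ε / 4 := by linarith
  calc ‖Ph Y η h (pr T ζ M) - av (pr T ζ M)‖
      = ‖(Ph Y η h (pr T ζ M) - Ph Y η h (pr T ζ N)) + (Ph Y η h (pr T ζ N) - av (pr T ζ N)) -
          (av (pr T ζ M) - av (pr T ζ N))‖ := by
        congr 1
        ring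
    _ ≤ ‖(Ph Y η h (pr T ζ M) - Ph Y η h (pr T ζ N)) + (Ph Y η h (pr T ζ N) - av (pr T ζ N))‖ +
          ‖av (pr T ζ M) - av (pr T ζ N)‖ := norm_sub_le _ _
    _ ≤ (‖Ph Y η h (pr T ζ M) - Ph Y η h (pr T ζ N)‖ + ‖Ph Y η h (pr T ζ N) - av (pr T ζ N)‖) +
          ‖av (pr T ζ M) - av (pr T ζ N)‖ := add_le_add (norm_add_le _ _) le_rfl
    _ ≤ ε := by linarith

end Pool.Agent.MP_ca1109_lc.Xl
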