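import Pool.Agent.MP_ca1109_lc.Xl.Defs
import Pool.Agent.MP_ca1109_lc.Xp.PW

/-!
# The linear part for terms: the average over the values of the hashed bits
-/

namespace Pool.Agent.MP_ca1109_lc.Xl

open Finset Pool.Agent.H66 Pool.Agent.MP_ca1109_lc.Mpg Pool.Agent.MP_ca1109_lc.Agp
open Pool.Agent.MP_ca1109_lc.Dnf (Cube ch one Term)
open Pool.Agent.MP_ca1109_lc.Xp (Sp Bias xo fl Src mv)

variable {n : ℕ} {ι : Type} [DecidableEq ι]

open Classical in
/-- The factor of the variable `i` with value `b`. -/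
noncomputable def Wf (T : ι → Term n) (ζ : ι → ℂ) (M : Finset ι) (i : Fin n) (z : Cube n)
    (b : Bool) : ℂ :=
  ∏ m ∈ M.filter fun m => i ∈ (T m).S ∧ Tr ((T m).S.erase i) (T m).a z,
    if b = (T m).a i then ζ m else 1

open Classical in
/-- On a point where no term has two alive variables, `pr` is a product over the variables. -/
theorem pr_mv {B : ℕ} {T : ι → Term n} {M : Finset ι} {η : Finset (Fin n)} {z : Cube n}
    (hL : Lin T M η z) (ζ : ι → ℂ) (h : Fin n → Fin B) (u : Fin B → Bool) :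
    pr T ζ M (mv z η h u) =
      (∏ m ∈ M.filter fun m => Disjoint (T m).S η ∧ Tr (T m).S (T m).a z, ζ m) *
        ∏ i ∈ η.filter fun i => Al T M i z, Wf T ζ M i z (xor (z i) (u (h i))) := by
  have hpair : ∀ m ∈ M, ∀ i ∈ (T m).S, ∀ j ∈ (T m).S, i ∈ η → j ∈ η →
      Tr ((T m).S.erase i) (T m).a z → j = i := by
    intro m hm i him j hjm hi hj hT
    by_contra hne
    refine hL m hm {j, i} ?_ ?_ ?_ fun v hv => hT v ?_
    · intro v hv
      rcases Finset.mem_insert.1 hv with h | h
      · exact h ▸ hjm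
      · exact (Finset.mem_singleton.1 h) ▸ him
    · rw [Finset.card_pair hne]
    · intro v hv
      rcases Finset.mem_insert.1 hv with h | h
      · exact h ▸ hj
      · exact (Finset.mem_singleton.1 h) ▸ hi
    · simp only [Finset.mem_sdiff, Finset.mem_insert, Finset.mem_singleton, not_or] at hv
      exact Finset.mem_erase.2 ⟨hv.2.2, hv.1⟩
  have hout : ∀ j, j ∉ η → mv z η h u j = z j := by
    intro j hj
    simp [Xp.mv, hj]
  have hin : ∀ j, j ∈ η → mv z η h u j = xor (z j) (u (h j)) := by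
    intro j hj
    simp [Xp.mv, hj]
  have key : ∀ m ∈ M, (if Tr (T m).S (T m).a (mv z η h u) then ζ m else 1) =
      (if Disjoint (T m).S η ∧ Tr (T m).S (T m).a z then ζ m else 1) *
        ∏ i ∈ η.filter fun i => Al T M i z,
          if i ∈ (T m).S ∧ Tr ((T m).S.erase i) (T m).a z then
            (if xor (z i) (u (h i)) = (T m).a i then ζ m else 1) else 1 := by
    intro m hm
    by_cases hd : Disjoint (T m).S η
    · have h1 : ∀ i ∈ η.filter fun i => Al T M i z,
          (if i ∈ (T m).S ∧ Tr ((T m).S.erase i) (T m).a z then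
            (if xor (z i) (u (h i)) = (T m).a i then ζ m else 1) else 1) = (1 : ℂ) := by
        intro i hi
        rw [if_neg]
        rintro ⟨him, -⟩
        exact (Finset.disjoint_left.1 hd) him (Finset.mem_filter.1 hi).1
      rw [Finset.prod_congr rfl h1, Finset.prod_const_one, mul_one]
      have h2 : Tr (T m).S (T m).a (mv z η h u) ↔
          Disjoint (T m).S η ∧ Tr (T m).S (T m).a z := by
        rw [and_iff_right hd]
        refine forall₂_congr fun j hj => ?_
        rw [hout j fun hjη => (Finset.disjoint_left.1 hd) hj hjη]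
      simp only [h2]
    · have h0 : ¬ (Disjoint (T m).S η ∧ Tr (T m).S (T m).a z) := fun hc => hd hc.1
      rw [if_neg h0, one_mul]
      obtain ⟨i₀, him₀, hiη₀⟩ := Finset.not_disjoint_iff.1 hd
      by_cases hT : Tr ((T m).S.erase i₀) (T m).a z
      · have hA : i₀ ∈ η.filter fun i => Al T M i z :=
          Finset.mem_filter.2 ⟨hiη₀, m, hm, him₀, hT⟩
        rw [Finset.prod_eq_single i₀]
        · have hpp : i₀ ∈ (T m).S ∧ Tr ((T m).S.erase i₀) (T m).a z := ⟨him₀, hT⟩
          rw [if_pos hpp]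
          have h2 : Tr (T m).S (T m).a (mv z η h u) ↔ xor (z i₀) (u (h i₀)) = (T m).a i₀ := by
            rw [← hin i₀ hiη₀]
            constructor
            · intro hh
              exact hh i₀ him₀
            · intro hh j hj
              by_cases hji : j = i₀
              · rw [hji]; exact hh
              · have hjη : j ∉ η := fun hjη => hji (hpair m hm i₀ him₀ j hj hiη₀ hjη hT)
                rw [hout j hjη]
                exact hT j (Finset.mem_erase.2 ⟨hji, hj⟩)
          simp only [h2]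
        · intro i hi hne
          rw [if_neg]
          rintro ⟨him, -⟩
          exact hne (hpair m hm i₀ him₀ i him hiη₀ (Finset.mem_filter.1 hi).1 hT)
        · intro hc
          exact absurd hA hc
      · have h1 : ∀ i ∈ η.filter fun i => Al T M i z,
            (if i ∈ (T m).S ∧ Tr ((T m).S.erase i) (T m).a z then
              (if xor (z i) (u (h i)) = (T m).a i then ζ m else 1) else 1) = (1 : ℂ) := by
          intro i hi
          rw [if_neg]
          rintro ⟨him, hTi⟩
          have hi0 : i₀ = i := hpair m hm i him i₀ him₀ (Finset.mem_filter.1 hi).1 hiη₀ hTi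
          rw [hi0] at hT
          exact hT hTi
        rw [Finset.prod_congr rfl h1, Finset.prod_const_one, if_neg]
        intro hh
        have h3 : Tr ((T m).S \ ((T m).S ∩ η)) (T m).a z := by
          intro j hj
          obtain ⟨hjm, hjn⟩ := Finset.mem_sdiff.1 hj
          have hjη : j ∉ η := fun hjη => hjn (Finset.mem_inter.2 ⟨hjm, hjη⟩)
          have := hh j hjm
          rwa [hout j hjη] at this
        by_cases hc : 2 ≤ ((T m).S ∩ η).card
        · exact hL m hm ((T m).S ∩ η) Finset.inter_subset_left hc Finset.inter_subset_right h3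
        · apply hT
          intro j hj
          obtain ⟨hji, hjm⟩ := Finset.mem_erase.1 hj
          refine h3 j (Finset.mem_sdiff.2 ⟨hjm, fun hji2 => hc ?_⟩)
          have hsub : ({j, i₀} : Finset (Fin n)) ⊆ (T m).S ∩ η := by
            intro v hv
            rcases Finset.mem_insert.1 hv with h | h
            · exact h ▸ hji2
            · exact (Finset.mem_singleton.1 h) ▸ Finset.mem_inter.2 ⟨him₀, hiη₀⟩
          calc 2 = ({j, i₀} : Finset (Fin n)).card := (Finset.card_pair hji).symm
            _ ≤ ((T m).S ∩ η).card := Finset.card_le_card hsub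
  unfold pr
  rw [Finset.prod_congr rfl key, Finset.prod_mul_distrib, Finset.prod_filter, Finset.prod_comm]
  congr 1
  refine Finset.prod_congr rfl fun i _ => ?_
  unfold Wf
  rw [Finset.prod_filter]

/-- The factor is a root of unity. -/
theorem Wf_pow {q : ℕ} {T : ι → Term n} {M : Finset ι} {ζ : ι → ℂ} (hζ : ∀ m ∈ M, ζ m ^ q = 1)
    (i : Fin n) (z : Cube n) (b : Bool) : Wf T ζ M i z b ^ q = 1 := by
  classical
  unfold Wf
  rw [← Finset.prod_pow]
  refine Finset.prod_eq_one fun m hm => ?_
  split_ifs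
  · exact hζ m (Finset.mem_filter.1 hm).1
  · exact one_pow q

/-- If `i` is active, then the two factors are different. -/
theorem Wf_ne {T : ι → Term n} {M : Finset ι} {ζ : ι → ℂ} {i : Fin n} {z : Cube n}
    (h : Ac T ζ M i z) : Wf T ζ M i z false ≠ Wf T ζ M i z true := by
  classical
  have key : ∀ y : Cube n, (∀ j, j ≠ i → y j = z j) → pr T ζ M y =
      (∏ m ∈ M, if i ∉ (T m).S ∧ Tr (T m).S (T m).a z then ζ m else 1) * Wf T ζ M i z (y i) := by
    intro y hy
    unfold pr Wf
    rw [Finset.prod_filter, ← Finset.prod_mul_distrib]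
    refine Finset.prod_congr rfl fun m _ => ?_
    by_cases hi : i ∈ (T m).S
    · have h1 : Tr (T m).S (T m).a y ↔
          Tr ((T m).S.erase i) (T m).a z ∧ y i = (T m).a i := by
        constructor
        · intro hh
          refine ⟨fun j hj => ?_, hh i hi⟩
          obtain ⟨hji, hjm⟩ := Finset.mem_erase.1 hj
          rw [← hy j hji]
          exact hh j hjm
        · rintro ⟨hh, h2⟩ j hj
          by_cases hji : j = i
          · rw [hji]; exact h2
          · rw [hy j hji]
            exact hh j (Finset.mem_erase.2 ⟨hji, hj⟩)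
      by_cases h2 : Tr ((T m).S.erase i) (T m).a z <;> by_cases h3 : y i = (T m).a i <;>
        simp [h1, h2, h3, hi]
    · have h1 : Tr (T m).S (T m).a y ↔ Tr (T m).S (T m).a z := by
        refine forall₂_congr fun j hj => ?_
        rw [hy j fun hji => hi (hji ▸ hj)]
      simp [h1, hi]
  intro hEq
  apply h
  have hc : ∀ b c : Bool, Wf T ζ M i z b = Wf T ζ M i z c := by
    intro b c
    cases b <;> cases c
    · rfl
    · exact hEq
    · exact hEq.symm
    · rfl
  rw [key (fl i z) fun j hj => by unfold fl; rw [Function.update_of_ne hj], key z fun j _ => rfl,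
    hc (fl i z i) (z i)]

theorem norm_Wf {q : ℕ} (hq : 0 < q) {T : ι → Term n} {M : Finset ι} {ζ : ι → ℂ}
    (hζ : ∀ m ∈ M, ζ m ^ q = 1) (i : Fin n) (z : Cube n) (b : Bool) : ‖Wf T ζ M i z b‖ = 1 := by
  have h1 : ‖Wf T ζ M i z b‖ ^ q = 1 := by rw [← norm_pow, Wf_pow hζ, norm_one]
  exact (pow_eq_one_iff_of_nonneg (norm_nonneg _) hq.ne').1 h1

/-! ## PW: the pointwise lemma -/

theorem pointwise {B q : ℕ} (hq : 0 < q) (T : ι → Term n) (M : Finset ι) (η : Finset (Fin n))
    (h : Fin n → Fin B) (z : Cube n) (ζ : ι → ℂ) {ρ : ℝ} (hζ : ∀ m ∈ M, ζ m ^ q = 1)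
    (hρ0 : 0 ≤ ρ) (hρ1 : ρ ≤ 1) (hρ : ∀ ξ : ℂ, ξ ^ q = 1 → ξ ≠ 1 → ‖(1 + ξ) / 2‖ ≤ ρ)
    (hL : Lin T M η z) (hI : Inj T M η h z) :
    ‖av fun u : Fin B → Bool => pr T ζ M (mv z η h u)‖ ≤ ρ ^ nac T ζ M η z := by
  classical
  set A := η.filter fun i => Al T M i z with hA
  have hinj : ∀ i ∈ A, ∀ j ∈ A, h i = h j → i = j := fun i hi j hj hij =>
    hI i (Finset.mem_filter.1 hi).1 j (Finset.mem_filter.1 hj).1 (Finset.mem_filter.1 hi).2
      (Finset.mem_filter.1 hj).2 hij
  have h2 : (av fun u : Fin B → Bool => pr T ζ M (mv z η h u)) =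
      (∏ m ∈ M.filter fun m => Disjoint (T m).S η ∧ Tr (T m).S (T m).a z, ζ m) *
        ∏ i ∈ A, (Wf T ζ M i z false + Wf T ζ M i z true) / 2 := by
    have h3 : (fun u : Fin B → Bool => pr T ζ M (mv z η h u)) = fun u =>
        (∏ m ∈ M.filter fun m => Disjoint (T m).S η ∧ Tr (T m).S (T m).a z, ζ m) *
          ∏ i ∈ A, Wf T ζ M i z (xor (z i) (u (h i))) := by
      funext u
      exact pr_mv hL ζ h u
    have h4 := Xp.av_prod A h hinj fun i c => Wf T ζ M i z (xor (z i) c)
    have h5 : (av fun u : Fin B → Bool =>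
        (∏ m ∈ M.filter fun m => Disjoint (T m).S η ∧ Tr (T m).S (T m).a z, ζ m) *
          ∏ i ∈ A, Wf T ζ M i z (xor (z i) (u (h i)))) =
        (∏ m ∈ M.filter fun m => Disjoint (T m).S η ∧ Tr (T m).S (T m).a z, ζ m) *
          av fun u : Fin B → Bool => ∏ i ∈ A, Wf T ζ M i z (xor (z i) (u (h i))) := by
      unfold av
      rw [← Finset.mul_sum, mul_div_assoc]
    rw [h3, h5, h4]
    congr 1
    refine Finset.prod_congr rfl fun i _ => ?_
    cases z i <;> simp [add_comm]
  have hfac : ∀ i, ‖(Wf T ζ M i z false + Wf T ζ M i z true) / 2‖ ≤ 1 := by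
    intro i
    rw [norm_div, RCLike.norm_ofNat, div_le_one (by norm_num)]
    calc ‖Wf T ζ M i z false + Wf T ζ M i z true‖
        ≤ ‖Wf T ζ M i z false‖ + ‖Wf T ζ M i z true‖ := norm_add_le _ _
      _ = 2 := by
        rw [norm_Wf hq hζ, norm_Wf hq hζ]
        norm_num
  have hact : ∀ i, Ac T ζ M i z → ‖(Wf T ζ M i z false + Wf T ζ M i z true) / 2‖ ≤ ρ := by
    intro i hi
    have hne := Wf_ne hi
    set w0 := Wf T ζ M i z false with hw0
    set w1 := Wf T ζ M i z true with hw1
    have hn0 : ‖w0‖ = 1 := norm_Wf hq hζ i z false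
    have h0 : w0 ≠ 0 := by
      intro hc
      rw [hc, norm_zero] at hn0
      exact zero_ne_one hn0
    have h3 : (w1 / w0) ^ q = 1 := by
      rw [div_pow, hw0, hw1, Wf_pow hζ, Wf_pow hζ, div_one]
    have h4 : w1 / w0 ≠ 1 := by
      intro hc
      rw [div_eq_one_iff_eq h0] at hc
      exact hne hc.symm
    have h5 : (w0 + w1) / 2 = w0 * ((1 + w1 / w0) / 2) := by
      field_simp
    rw [h5, norm_mul, hn0, one_mul]
    exact hρ _ h3 h4
  have hm1 : ∀ m ∈ M, ‖ζ m‖ = 1 := by
    intro m hm
    have h1 : ‖ζ m‖ ^ q = 1 := by rw [← norm_pow, hζ m hm, norm_one]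
    exact (pow_eq_one_iff_of_nonneg (norm_nonneg _) hq.ne').1 h1
  rw [h2, norm_mul, norm_prod, norm_prod]
  have hc : ∏ m ∈ M.filter (fun m => Disjoint (T m).S η ∧ Tr (T m).S (T m).a z), ‖ζ m‖ ≤ 1 :=
    Finset.prod_le_one (fun m _ => norm_nonneg _) fun m hm => (hm1 m (Finset.mem_filter.1 hm).1).le
  have hsub : (η.filter fun i => Ac T ζ M i z) ⊆ A := by
    intro i hi
    obtain ⟨hiη, hac⟩ := Finset.mem_filter.1 hi
    refine Finset.mem_filter.2 ⟨hiη, ?_⟩
    by_contra hal
    apply Wf_ne hac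
    have he : (M.filter fun m => i ∈ (T m).S ∧ Tr ((T m).S.erase i) (T m).a z) = ∅ := by
      rw [Finset.filter_eq_empty_iff]
      intro m hm hmm
      exact hal ⟨m, hm, hmm.1, hmm.2⟩
    unfold Wf
    rw [he, Finset.prod_empty, Finset.prod_empty]
  have hp : ∏ i ∈ A, ‖(Wf T ζ M i z false + Wf T ζ M i z true) / 2‖ ≤ ρ ^ nac T ζ M η z := by
    rw [← Finset.prod_sdiff hsub]
    have ha : ∏ i ∈ A \ (η.filter fun i => Ac T ζ M i z),
        ‖(Wf T ζ M i z false + Wf T ζ M i z true) / 2‖ ≤ 1 :=
      Finset.prod_le_one (fun i _ => norm_nonneg _) fun i _ => hfac i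
    have hb : ∏ i ∈ η.filter (fun i => Ac T ζ M i z),
        ‖(Wf T ζ M i z false + Wf T ζ M i z true) / 2‖ ≤ ρ ^ nac T ζ M η z := by
      unfold nac
      refine (Finset.prod_le_prod (fun i _ => norm_nonneg _) fun i hi =>
        hact i (Finset.mem_filter.1 hi).2).trans (le_of_eq ?_)
      rw [Finset.prod_const]
    exact (mul_le_of_le_one_left (Finset.prod_nonneg fun i _ => norm_nonneg _) ha).trans hb
  exact (mul_le_of_le_one_left (Finset.prod_nonneg fun i _ => norm_nonneg _) hc).trans hp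

end Pool.Agent.MP_ca1109_lc.Xl
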