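import Pool.Agent.MP_ca1109_lc.Xl.Defs
import Pool.Agent.MP_ca1109_lc.Xp.SP

namespace Pool.Agent.MP_ca1109_lc.Xl

open Finset Pool.Agent.H66 Pool.Agent.MP_ca1109_lc.Mpg Pool.Agent.MP_ca1109_lc.Agp
open Pool.Agent.MP_ca1109_lc.Dnf (Cube ch one Term)
open Pool.Agent.MP_ca1109_lc.Xp (Sp Bias xo fl Src mv)

variable {n : ℕ} {ι : Type} [DecidableEq ι]

/-! ## ST: single terms -/

theorem st_tm (S : Finset (Fin n)) (a : Cube n) : tm S a = (Term.mk S a).f := rfl

theorem sp_tm (S : Finset (Fin n)) (a : Cube n) : Sp 1 (fun x => ((tm S a x : ℝ) : ℂ)) := by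
  refine ⟨fun T => if T ⊆ S then (((1 / 2 : ℝ) ^ S.card * ch T a : ℝ) : ℂ) else 0, ?_, ?_⟩
  · intro x
    have h2 : tm S a x = ∑ T ∈ S.powerset, (1 / 2 : ℝ) ^ S.card * ch T a * ch T x :=
      Dnf.term_expand (Term.mk S a) x
    have h3 : (univ.filter fun T => T ⊆ S) = S.powerset := by
      ext T
      simp
    change ((tm S a x : ℝ) : ℂ) = ∑ T : Finset (Fin n),
      (if T ⊆ S then (((1 / 2 : ℝ) ^ S.card * ch T a : ℝ) : ℂ) else 0) * ((ch T x : ℝ) : ℂ)
    rw [h2, Complex.ofReal_sum, ← h3, sum_filter]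
    refine sum_congr rfl fun T _ => ?_
    split_ifs
    · push_cast
      ring
    · simp
  · have h1 : ∀ T : Finset (Fin n),
        ‖(if T ⊆ S then (((1 / 2 : ℝ) ^ S.card * ch T a : ℝ) : ℂ) else 0)‖ =
          if T ⊆ S then (1 / 2 : ℝ) ^ S.card else 0 := by
      intro T
      split_ifs
      · rw [Complex.norm_real, Real.norm_eq_abs, abs_mul, Dnf.ch_abs, mul_one,
          abs_of_nonneg (by positivity)]
      · simp
    simp only [h1]
    have h3 : (univ.filter fun T => T ⊆ S) = S.powerset := by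
      ext T
      simp
    rw [← sum_filter, h3, sum_const, card_powerset, nsmul_eq_mul]
    push_cast
    rw [← mul_pow]
    norm_num

theorem avg_tm (S : Finset (Fin n)) (a : Cube n) : avg (tm S a) = (1 / 2) ^ S.card := by
  have h := Dnf.E_term (Term.mk S a)
  rw [← st_tm] at h
  unfold Dnf.E at h
  unfold avg
  rw [Fintype.card_fun, Fintype.card_bool, Fintype.card_fin]
  push_cast
  exact h

theorem avg_tm_bias {Ω : Type*} [Fintype Ω] [Nonempty Ω] {Y : Ω → Cube n} {δ : ℝ} (hδ : 0 ≤ δ)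
    (hY : Bias δ Y) (S : Finset (Fin n)) (a : Cube n) :
    |(avg fun ω => tm S a (Y ω)) - (1 / 2) ^ S.card| ≤ δ := by
  have h := Xp.fool_real hδ hY (sp_tm S a)
  rw [avg_tm, mul_one] at h
  exact h

end Pool.Agent.MP_ca1109_lc.Xl
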