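import Pool.Agent.MP_ca1109_lc.Xl.ST

/-!
# Truncated expansions: pointwise bounds
-/

namespace Pool.Agent.MP_ca1109_lc.Xl

open Finset Pool.Agent.H66 Pool.Agent.MP_ca1109_lc.Mpg Pool.Agent.MP_ca1109_lc.Agp
open Pool.Agent.MP_ca1109_lc.Dnf (Cube ch one Term one_true one_false one_nonneg one_le)
open Pool.Agent.MP_ca1109_lc.Xp (Sp Bias xo fl Src mv)

variable {n : ℕ} {ι : Type} [DecidableEq ι]

theorem tm_zero_or (S : Finset (Fin n)) (a x : Cube n) : tm S a x = 0 ∨ tm S a x = 1 := by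
  unfold tm
  by_cases h : Tr S a x
  · exact Or.inr (one_true h)
  · exact Or.inl (one_false h)

theorem tm_nonneg (S : Finset (Fin n)) (a x : Cube n) : 0 ≤ tm S a x := one_nonneg _

theorem tm_le (S : Finset (Fin n)) (a x : Cube n) : tm S a x ≤ 1 := one_le _

theorem trn_zero (T : ι → Term n) (ζ : ι → ℂ) (M : Finset ι) (x : Cube n) :
    trn T ζ M 0 x = 1 := by
  unfold trn
  have : M.powerset.filter (fun J => J.card ≤ 0) = {∅} := by
    ext J
    simp only [Finset.mem_filter, Finset.mem_powerset, Nat.le_zero, Finset.card_eq_zero,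
      Finset.mem_singleton]
    exact ⟨fun h => h.2, fun h => ⟨h ▸ Finset.empty_subset _, h⟩⟩
  rw [this, Finset.sum_singleton, Finset.prod_empty]

omit n in
theorem sum_pow_insert {R : Type*} [CommRing R] {m : ι} {M : Finset ι}
    (hm : m ∉ M) (a : ι → R) (P : ℕ → Prop) [DecidablePred P] :
    ∑ J ∈ (insert m M).powerset.filter (fun J => P J.card), ∏ i ∈ J, a i =
      ∑ J ∈ M.powerset.filter (fun J => P J.card), ∏ i ∈ J, a i +
        a m * ∑ J ∈ M.powerset.filter (fun J => P (J.card + 1)), ∏ i ∈ J, a i := by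
  rw [Finset.sum_filter, Finset.sum_powerset_insert hm, Finset.sum_filter, Finset.sum_filter,
    Finset.mul_sum]
  congr 1
  refine Finset.sum_congr rfl fun J hJ => ?_
  have hmJ : m ∉ J := fun h => hm (Finset.mem_powerset.1 hJ h)
  rw [Finset.card_insert_of_notMem hmJ, Finset.prod_insert hmJ]
  split_ifs <;> simp

theorem trn_insert (T : ι → Term n) (ζ : ι → ℂ) {m : ι} {M : Finset ι}
    (hm : m ∉ M) (D : ℕ) (x : Cube n) : trn T ζ (insert m M) (D + 1) x =
      trn T ζ M (D + 1) x + (ζ m - 1) * ((tm (T m).S (T m).a x : ℝ) : ℂ) * trn T ζ M D x := by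
  unfold trn
  rw [sum_pow_insert hm (fun m => (ζ m - 1) * ((tm (T m).S (T m).a x : ℝ) : ℂ)) (fun k => k ≤ D + 1)]
  simp only [add_le_add_iff_right]

theorem rem_insert (T : ι → Term n) {m : ι} {M : Finset ι}
    (hm : m ∉ M) (D : ℕ) (x : Cube n) : rem T (insert m M) (D + 1) x =
      rem T M (D + 1) x + 2 * tm (T m).S (T m).a x * rem T M D x := by
  unfold rem
  rw [sum_pow_insert hm (fun m => 2 * tm (T m).S (T m).a x) (fun k => k = D + 1 + 1)]
  simp only [Nat.add_right_cancel_iff]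

theorem rem_insert_zero (T : ι → Term n) {m : ι} {M : Finset ι}
    (hm : m ∉ M) (x : Cube n) : rem T (insert m M) 0 x = rem T M 0 x + 2 * tm (T m).S (T m).a x := by
  unfold rem
  rw [sum_pow_insert hm (fun m => 2 * tm (T m).S (T m).a x) (fun k => k = 0 + 1)]
  have : M.powerset.filter (fun J => J.card + 1 = 0 + 1) = {∅} := by
    ext J
    simp only [Finset.mem_filter, Finset.mem_powerset, Nat.add_right_cancel_iff,
      Finset.card_eq_zero, Finset.mem_singleton]
    exact ⟨fun h => h.2, fun h => ⟨h ▸ Finset.empty_subset _, h⟩⟩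
  rw [this, Finset.sum_singleton, Finset.prod_empty, mul_one]

theorem rem_nonneg (T : ι → Term n) (M : Finset ι) (D : ℕ) (x : Cube n) : 0 ≤ rem T M D x := by
  refine Finset.sum_nonneg fun J _ => Finset.prod_nonneg fun m _ => ?_
  have := tm_nonneg (T m).S (T m).a x
  positivity

theorem pr_empty (T : ι → Term n) (ζ : ι → ℂ) (x : Cube n) : pr T ζ ∅ x = 1 := by
  simp [pr]

theorem pr_insert (T : ι → Term n) (ζ : ι → ℂ) {m : ι} {M : Finset ι}
    (hm : m ∉ M) (x : Cube n) : pr T ζ (insert m M) x =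
      pr T ζ M x + (ζ m - 1) * ((tm (T m).S (T m).a x : ℝ) : ℂ) * pr T ζ M x := by
  unfold pr
  rw [Finset.prod_insert hm]
  by_cases h : Tr (T m).S (T m).a x
  · rw [if_pos h]
    have : tm (T m).S (T m).a x = 1 := one_true h
    rw [this]
    push_cast
    ring
  · rw [if_neg h]
    have : tm (T m).S (T m).a x = 0 := one_false h
    rw [this]
    push_cast
    ring

theorem norm_pr (T : ι → Term n) (ζ : ι → ℂ) (M : Finset ι) (hζ : ∀ m ∈ M, ‖ζ m‖ = 1)
    (x : Cube n) : ‖pr T ζ M x‖ = 1 := by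
  unfold pr
  rw [norm_prod]
  refine Finset.prod_eq_one fun m hm => ?_
  split_ifs
  · exact hζ m hm
  · exact norm_one

theorem norm_tm_le (T : ι → Term n) (ζ : ℂ) (hζ : ‖ζ‖ = 1) (m : ι) (x : Cube n) :
    ‖(ζ - 1) * ((tm (T m).S (T m).a x : ℝ) : ℂ)‖ ≤ 2 * tm (T m).S (T m).a x := by
  rw [norm_mul, Complex.norm_real, Real.norm_of_nonneg (tm_nonneg (T m).S (T m).a x)]
  refine mul_le_mul_of_nonneg_right ?_ (tm_nonneg (T m).S (T m).a x)
  calc ‖ζ - 1‖ ≤ ‖ζ‖ + ‖(1 : ℂ)‖ := norm_sub_le _ _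
    _ = 2 := by rw [hζ, norm_one]; norm_num

theorem trn_close (T : ι → Term n) (ζ : ι → ℂ) (M : Finset ι) (D : ℕ)
    (hζ : ∀ m ∈ M, ‖ζ m‖ = 1) (x : Cube n) : ‖pr T ζ M x - trn T ζ M D x‖ ≤ rem T M D x := by
  induction M using Finset.induction_on generalizing D with
  | empty =>
    rw [pr_empty]
    have : trn T ζ ∅ D x = 1 := by
      unfold trn
      rw [Finset.powerset_empty, Finset.filter_singleton, if_pos (by simp), Finset.sum_singleton,
        Finset.prod_empty]
    rw [this, sub_self, norm_zero]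
    exact rem_nonneg _ _ _ _
  | insert m M hm ih =>
    have hζM : ∀ m' ∈ M, ‖ζ m'‖ = 1 := fun m' h => hζ m' (Finset.mem_insert_of_mem h)
    have hm1 : ‖ζ m‖ = 1 := hζ m (Finset.mem_insert_self _ _)
    have hn := norm_tm_le T (ζ m) hm1 m x
    rcases D with _ | D
    · rw [trn_zero, pr_insert T ζ hm, rem_insert_zero T hm]
      have h1 := ih 0 hζM
      rw [trn_zero] at h1
      calc ‖pr T ζ M x + (ζ m - 1) * ((tm (T m).S (T m).a x : ℝ) : ℂ) * pr T ζ M x - 1‖
          = ‖(pr T ζ M x - 1) + (ζ m - 1) * ((tm (T m).S (T m).a x : ℝ) : ℂ) * pr T ζ M x‖ := by ring_nf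
        _ ≤ ‖pr T ζ M x - 1‖ + ‖(ζ m - 1) * ((tm (T m).S (T m).a x : ℝ) : ℂ) * pr T ζ M x‖ := norm_add_le _ _
        _ ≤ rem T M 0 x + 2 * tm (T m).S (T m).a x := by
            refine add_le_add h1 ?_
            rw [norm_mul, norm_pr T ζ M hζM x, mul_one]
            exact hn
    · rw [trn_insert T ζ hm, pr_insert T ζ hm, rem_insert T hm]
      calc ‖pr T ζ M x + (ζ m - 1) * ((tm (T m).S (T m).a x : ℝ) : ℂ) * pr T ζ M x -
            (trn T ζ M (D + 1) x + (ζ m - 1) * ((tm (T m).S (T m).a x : ℝ) : ℂ) * trn T ζ M D x)‖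
          = ‖(pr T ζ M x - trn T ζ M (D + 1) x) + (ζ m - 1) * ((tm (T m).S (T m).a x : ℝ) : ℂ) *
              (pr T ζ M x - trn T ζ M D x)‖ := by ring_nf
        _ ≤ ‖pr T ζ M x - trn T ζ M (D + 1) x‖ + ‖(ζ m - 1) * ((tm (T m).S (T m).a x : ℝ) : ℂ) *
              (pr T ζ M x - trn T ζ M D x)‖ := norm_add_le _ _
        _ ≤ rem T M (D + 1) x + 2 * tm (T m).S (T m).a x * rem T M D x := by
            refine add_le_add (ih (D + 1) hζM) ?_
            rw [norm_mul]
            exact mul_le_mul hn (ih D hζM) (norm_nonneg _)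
              (by have := tm_nonneg (T m).S (T m).a x; positivity)

theorem norm_trn (T : ι → Term n) (ζ : ι → ℂ) (M : Finset ι)
    (hζ : ∀ m ∈ M, ‖ζ m‖ = 1) (D : ℕ) (x : Cube n) : ‖trn T ζ M D x‖ ≤ 1 + rem T M D x := by
  have h1 := trn_close T ζ M D hζ x
  have h2 := norm_pr T ζ M hζ x
  calc ‖trn T ζ M D x‖ = ‖pr T ζ M x - (pr T ζ M x - trn T ζ M D x)‖ := by congr 1; ring
    _ ≤ ‖pr T ζ M x‖ + ‖pr T ζ M x - trn T ζ M D x‖ := norm_sub_le _ _
    _ ≤ 1 + rem T M D x := by rw [h2]; linarith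

/-- `rem` by the exponential moment, any base. -/
theorem rem_le_base (T : ι → Term n) (M : Finset ι) (D : ℕ) (x : Cube n) {b : ℝ} (hb : 0 < b) :
    rem T M D x ≤ (b⁻¹) ^ (D + 1) * ∏ m ∈ M, (1 + 2 * b * tm (T m).S (T m).a x) := by
  induction M using Finset.induction_on generalizing D with
  | empty =>
    rw [Finset.prod_empty, mul_one]
    have : rem T (∅ : Finset ι) D x = 0 := by
      unfold rem
      rw [Finset.powerset_empty, Finset.filter_singleton, if_neg (by simp), Finset.sum_empty]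
    rw [this]
    positivity
  | insert m M hm ih =>
    rw [Finset.prod_insert hm]
    have hP : 0 ≤ ∏ m ∈ M, (1 + 2 * b * tm (T m).S (T m).a x) := Finset.prod_nonneg fun m _ => by
      have := tm_nonneg (T m).S (T m).a x
      positivity
    have hm0 := tm_nonneg (T m).S (T m).a x
    rcases D with _ | D
    · rw [rem_insert_zero T hm]
      have h1 := ih 0
      have hP1 : 1 ≤ ∏ m ∈ M, (1 + 2 * b * tm (T m).S (T m).a x) := by
        refine Finset.prod_induction _ (fun y : ℝ => 1 ≤ y) (fun u v hu hv => by nlinarith) le_rfl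
          (fun m _ => ?_)
        have := tm_nonneg (T m).S (T m).a x
        have : 0 ≤ 2 * b * tm (T m).S (T m).a x := by positivity
        linarith
      rw [zero_add, pow_one] at h1 ⊢
      have h2 : 2 * tm (T m).S (T m).a x ≤ b⁻¹ * (2 * b * tm (T m).S (T m).a x * ∏ m ∈ M, (1 + 2 * b * tm (T m).S (T m).a x)) := by
        have h3 : b⁻¹ * (2 * b * tm (T m).S (T m).a x * ∏ m ∈ M, (1 + 2 * b * tm (T m).S (T m).a x)) =
            2 * tm (T m).S (T m).a x * ∏ m ∈ M, (1 + 2 * b * tm (T m).S (T m).a x) := by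
          field_simp
        rw [h3]
        nlinarith
      calc rem T M 0 x + 2 * tm (T m).S (T m).a x ≤ b⁻¹ * ∏ m ∈ M, (1 + 2 * b * tm (T m).S (T m).a x) +
            b⁻¹ * (2 * b * tm (T m).S (T m).a x * ∏ m ∈ M, (1 + 2 * b * tm (T m).S (T m).a x)) := add_le_add h1 h2
        _ = _ := by ring
    · rw [rem_insert T hm]
      have h1 := ih (D + 1)
      have h2 := mul_le_mul_of_nonneg_left (ih D) (show 0 ≤ 2 * tm (T m).S (T m).a x by positivity)
      calc rem T M (D + 1) x + 2 * tm (T m).S (T m).a x * rem T M D x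
          ≤ (b⁻¹) ^ (D + 1 + 1) * ∏ m ∈ M, (1 + 2 * b * tm (T m).S (T m).a x) +
            2 * tm (T m).S (T m).a x * ((b⁻¹) ^ (D + 1) * ∏ m ∈ M, (1 + 2 * b * tm (T m).S (T m).a x)) := add_le_add h1 h2
        _ = _ := by
            rw [pow_succ (b⁻¹) (D + 1)]
            field_simp

theorem rem_le (T : ι → Term n) (M : Finset ι) (D : ℕ) (x : Cube n) :
    rem T M D x ≤ (1 / 2) ^ (D + 1) * ∏ m ∈ M, (1 + 4 * tm (T m).S (T m).a x) := by
  refine (rem_le_base T M D x (b := 2) (by norm_num)).trans (le_of_eq ?_)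
  norm_num

/-! ## Norms -/

theorem norm_sub_one_le {ζ : ℂ} (hζ : ‖ζ‖ = 1) : ‖ζ - 1‖ ≤ 2 := by
  calc ‖ζ - 1‖ ≤ ‖ζ‖ + ‖(1 : ℂ)‖ := norm_sub_le _ _
    _ = 2 := by rw [hζ, norm_one]; norm_num

/-- The norm of the truncated expansion. -/
theorem Sp_trn_base (T : ι → Term n) (ζ : ι → ℂ) (M : Finset ι)
    (hζ : ∀ m ∈ M, ‖ζ m‖ = 1) (D : ℕ) {y : ℝ} (hy : 0 < y) (hy1 : y ≤ 1) :
    Sp ((y⁻¹) ^ D * (1 + 2 * y) ^ M.card) (trn T ζ M D) := by
  have hyi : 1 ≤ y⁻¹ := (one_le_inv₀ hy).2 hy1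
  have h12 : 1 ≤ 1 + 2 * y := by linarith
  induction M using Finset.induction_on generalizing D with
  | empty =>
    have h := Sp.const (n := n) 1
    rw [norm_one] at h
    refine (h.mono ?_).of_eq fun x => Eq.symm ?_
    · rw [Finset.card_empty, pow_zero, mul_one]
      exact one_le_pow₀ hyi
    · unfold trn
      rw [Finset.powerset_empty, Finset.filter_singleton, if_pos (by simp), Finset.sum_singleton,
        Finset.prod_empty]
  | insert m M hm ih =>
    have hζM : ∀ m' ∈ M, ‖ζ m'‖ = 1 := fun m' h => hζ m' (Finset.mem_insert_of_mem h)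
    have hm1 : ‖ζ m‖ = 1 := hζ m (Finset.mem_insert_self _ _)
    rcases D with _ | D
    · have h := Sp.const (n := n) 1
      rw [norm_one] at h
      refine (h.mono ?_).of_eq fun x => (trn_zero T ζ _ x).symm
      rw [pow_zero, one_mul]
      exact one_le_pow₀ h12
    · have h1 := ih hζM (D + 1)
      have h2 := ((sp_tm (T m).S (T m).a).smul (ζ m - 1)).mul (ih hζM D)
      refine ((h1.add h2).mono ?_).of_eq fun x => (trn_insert T ζ hm D x).symm
      rw [Finset.card_insert_of_notMem hm]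
      have h3 : 0 ≤ (y⁻¹) ^ D * (1 + 2 * y) ^ M.card := by positivity
      have h4 : ‖ζ m - 1‖ * 1 * ((y⁻¹) ^ D * (1 + 2 * y) ^ M.card) ≤
          2 * ((y⁻¹) ^ D * (1 + 2 * y) ^ M.card) := by
        rw [mul_one]
        exact mul_le_mul_of_nonneg_right (norm_sub_one_le hm1) h3
      refine (add_le_add le_rfl h4).trans (le_of_eq ?_)
      rw [pow_succ (y⁻¹) D, pow_succ (1 + 2 * y) M.card]
      field_simp

theorem Sp_rem_base (T : ι → Term n) (M : Finset ι) (D : ℕ) {y : ℝ} (hy : 0 < y) :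
    Sp ((y⁻¹) ^ (D + 1) * (1 + 2 * y) ^ M.card) fun x => ((rem T M D x : ℝ) : ℂ) := by
  have h12 : 1 ≤ 1 + 2 * y := by linarith
  induction M using Finset.induction_on generalizing D with
  | empty =>
    have h := Sp.const (n := n) 0
    rw [norm_zero] at h
    refine (h.mono (by positivity)).of_eq fun x => Eq.symm ?_
    have : rem T (∅ : Finset ι) D x = 0 := by
      unfold rem
      rw [Finset.powerset_empty, Finset.filter_singleton, if_neg (by simp), Finset.sum_empty]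
    rw [this, Complex.ofReal_zero]
  | insert m M hm ih =>
    rw [Finset.card_insert_of_notMem hm]
    have h2n : ‖(2 : ℂ)‖ = 2 := by norm_num
    rcases D with _ | D
    · have h1 := ih 0
      have h2 := (sp_tm (T m).S (T m).a).smul 2
      refine ((h1.add h2).mono ?_).of_eq fun x => Eq.symm ?_
      · rw [h2n, zero_add, pow_one, pow_succ (1 + 2 * y) M.card]
        have h5 : 1 ≤ (1 + 2 * y) ^ M.card := one_le_pow₀ h12
        have h6 : y⁻¹ * ((1 + 2 * y) ^ M.card * (1 + 2 * y)) =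
            y⁻¹ * (1 + 2 * y) ^ M.card + 2 * (1 + 2 * y) ^ M.card := by
          field_simp
        rw [h6]
        linarith
      · rw [rem_insert_zero T hm]
        push_cast
        ring
    · have h1 := ih (D + 1)
      have h2 := ((sp_tm (T m).S (T m).a).smul 2).mul (ih D)
      refine ((h1.add h2).mono ?_).of_eq fun x => Eq.symm ?_
      · rw [h2n]
        refine le_of_eq ?_
        rw [pow_succ (y⁻¹) (D + 1), pow_succ (1 + 2 * y) M.card]
        field_simp
      · rw [rem_insert T hm]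
        push_cast
        ring

theorem card_le_lam (T : ι → Term n) {M : Finset ι} {w : ℕ} (hw : ∀ m ∈ M, (T m).S.card ≤ w) :
    (1 / 2 : ℝ) ^ w * M.card ≤ lam T M := by
  unfold lam
  rw [mul_comm, ← nsmul_eq_mul, ← Finset.sum_const]
  exact Finset.sum_le_sum fun m hm => pow_le_pow_of_le_one (by norm_num) (by norm_num) (hw m hm)

theorem pow_le_exp (T : ι → Term n) {M : Finset ι} {w : ℕ} (hw : ∀ m ∈ M, (T m).S.card ≤ w) :
    (1 + 2 * (1 / 2 : ℝ) ^ w) ^ M.card ≤ Real.exp (2 * lam T M) := by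
  have h1 : 1 + 2 * (1 / 2 : ℝ) ^ w ≤ Real.exp (2 * (1 / 2 : ℝ) ^ w) := by
    have := Real.add_one_le_exp (2 * (1 / 2 : ℝ) ^ w)
    linarith
  calc (1 + 2 * (1 / 2 : ℝ) ^ w) ^ M.card ≤ Real.exp (2 * (1 / 2 : ℝ) ^ w) ^ M.card :=
        pow_le_pow_left₀ (by positivity) h1 _
    _ = Real.exp (2 * ((1 / 2 : ℝ) ^ w * M.card)) := by
        rw [← Real.exp_nat_mul]
        congr 1
        ring
    _ ≤ Real.exp (2 * lam T M) := Real.exp_le_exp.2 (by have := card_le_lam T hw; linarith)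

theorem trn_sp (T : ι → Term n) (ζ : ι → ℂ) (M : Finset ι) (D W : ℕ)
    (hζ : ∀ m ∈ M, ‖ζ m‖ = 1) (hw : ∀ m ∈ M, (T m).S.card ≤ W) :
    Sp (2 ^ (W * D) * Real.exp (2 * lam T M)) (trn T ζ M D) := by
  refine (Sp_trn_base T ζ M hζ D (y := (1 / 2) ^ W) (by positivity)
    (pow_le_one₀ (by norm_num) (by norm_num))).mono ?_
  refine mul_le_mul (le_of_eq ?_) (pow_le_exp T hw) (by positivity) (by positivity)
  rw [← inv_pow, pow_mul]
  norm_num

theorem rem_sp (T : ι → Term n) (M : Finset ι) (D W : ℕ) (hw : ∀ m ∈ M, (T m).S.card ≤ W) :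
    Sp (2 ^ (W * (D + 1)) * Real.exp (2 * lam T M)) (fun x => ((rem T M D x : ℝ) : ℂ)) := by
  refine (Sp_rem_base T M D (y := (1 / 2) ^ W) (by positivity)).mono ?_
  refine mul_le_mul (le_of_eq ?_) (pow_le_exp T hw) (by positivity) (by positivity)
  rw [← inv_pow, pow_mul]
  norm_num

end Pool.Agent.MP_ca1109_lc.Xl
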